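import Pool.Agent.Run7.h261.LI.Base

/-!
# Independence of `ℓ` for local factors: averages over the inertia group
-/

set_option autoImplicit false
set_option linter.unusedSectionVars false

namespace Pool.Agent.Run7.h261.LI

open Module Polynomial Pool.Agent.N184.HK Pool.Agent.Y143

section avg

variable {G Ω V : Type} [Group G] [Field Ω] [CharZero Ω] [AddCommGroup V] [Module Ω V]
  [FiniteDimensional Ω V]

/-- The trace of `f` on the stable subspace `E` (and `0` if `E` is not stable). -/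
noncomputable def trOn (E : Submodule Ω V) (f : Module.End Ω V) : Ω :=
  open Classical in
  if h : ∀ x ∈ E, f x ∈ E then LinearMap.trace Ω E (f.restrict h) else 0

lemma trOn_eq {E : Submodule Ω V} {f : Module.End Ω V} (h : ∀ x ∈ E, f x ∈ E) :
    trOn E f = LinearMap.trace Ω E (f.restrict h) := dif_pos h

lemma trOn_top (f : Module.End Ω V) : trOn ⊤ f = LinearMap.trace Ω V f := by
  rw [trOn_eq fun x _ => Submodule.mem_top]
  exact LinearMap.trace_restrict_eq_of_forall_mem (⊤ : Submodule Ω V) f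
    (fun x => Submodule.mem_top)

variable {φ : G → Module.End Ω V} (hmul : ∀ g h x, φ (g * h) x = φ g (φ h x))
  {I U : Subgroup G} [Finite (I ⧸ U.subgroupOf I)] {E F : Submodule Ω V}
  (hEI : ∀ τ ∈ I, ∀ x ∈ E, φ τ x ∈ E) (hEU : ∀ τ ∈ I, τ ∈ U → ∀ x ∈ E, φ τ x = x)
  (hF : ∀ x, x ∈ F ↔ x ∈ E ∧ ∀ τ ∈ I, φ τ x = x) {g : G} (hgE : ∀ x ∈ E, φ g x ∈ E)
  (hgF : ∀ x ∈ F, φ g x ∈ F)

include hmul hEI hEU hF hgE hgF in
/-- The trace on the invariants of `I` is the average of traces on `E`. -/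
theorem avg : (Nat.card (I ⧸ U.subgroupOf I) : Ω) * trOn F (φ g) =
    ∑ᶠ q : I ⧸ U.subgroupOf I, trOn E (φ (g * (q.out : I))) := by
  classical
  have hft : Fintype (I ⧸ U.subgroupOf I) := Fintype.ofFinite _
  rw [finsum_eq_sum_of_fintype, Nat.card_eq_fintype_card]
  have hFE : ∀ x ∈ F, x ∈ E := fun x hx => ((hF x).1 hx).1
  -- translations
  have hout : ∀ (a b : I), (a : I ⧸ U.subgroupOf I) = b → ∀ x ∈ E, φ a x = φ b x := by
    intro a b hab x hx
    have h1 := QuotientGroup.eq.1 hab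
    rw [Subgroup.mem_subgroupOf] at h1
    have h2 : (b : G) = (a : G) * ((a⁻¹ * b : I) : G) := by
      rw [Subgroup.coe_mul, Subgroup.coe_inv, mul_inv_cancel_left]
    rw [h2, hmul, hEU _ (a⁻¹ * b).2 h1 x hx]
  -- the operator on `E`
  have hqE : ∀ q : I ⧸ U.subgroupOf I, ∀ x ∈ E, φ (g * (q.out : I)) x ∈ E := fun q x hx => by
    rw [hmul]
    exact hgE _ (hEI _ q.out.2 _ hx)
  have hoE : ∀ q : I ⧸ U.subgroupOf I, ∀ x ∈ E, φ ((q.out : I) : G) x ∈ E := fun q x hx =>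
    hEI _ q.out.2 _ hx
  let S : Module.End Ω E := ∑ q : I ⧸ U.subgroupOf I, (φ ((q.out : I) : G)).restrict (hoE q)
  have hS : ∀ x : E, (S x : V) = ∑ q : I ⧸ U.subgroupOf I, φ ((q.out : I) : G) x := by
    intro x
    rw [LinearMap.sum_apply, Submodule.coe_sum]
    rfl
  let T : Module.End Ω E := (φ g).restrict hgE * S
  have hT : T = ∑ q : I ⧸ U.subgroupOf I, (φ (g * (q.out : I))).restrict (hqE q) := by
    refine LinearMap.ext fun x => Subtype.ext ?_
    rw [LinearMap.sum_apply, Submodule.coe_sum]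
    change φ g (S x : V) = _
    rw [hS, map_sum]
    refine Finset.sum_congr rfl fun q _ => ?_
    exact (hmul _ _ _).symm
  have hSF : ∀ x : E, (S x : V) ∈ F := by
    intro x
    rw [hF]
    refine ⟨(S x).2, fun τ hτ => ?_⟩
    rw [hS, map_sum]
    let t : I := ⟨τ, hτ⟩
    conv_rhs => rw [← Equiv.sum_comp (MulAction.toPerm t : Equiv.Perm (I ⧸ U.subgroupOf I))]
    refine Finset.sum_congr rfl fun q _ => ?_
    rw [← hmul]
    have h1 : τ * ((q.out : I) : G) = ((t * q.out : I) : G) := rfl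
    rw [h1]
    refine hout _ _ ?_ _ x.2
    rw [MulAction.toPerm_apply]
    have h2 : (((t • q).out : I) : I ⧸ U.subgroupOf I) = t • q := Quotient.out_eq _
    rw [h2]
    conv_rhs => rw [← Quotient.out_eq q]
    rfl
  -- the invariants as a subspace of `E`
  let F' : Submodule Ω E := F.comap E.subtype
  have hTF' : ∀ x : E, T x ∈ F' := fun x => hgF _ (hSF x)
  have h1 := LinearMap.trace_restrict_eq_of_forall_mem F' T hTF'
  let e : F' ≃ₗ[Ω] F := Submodule.comapSubtypeEquivOfLe (fun x hx => hFE x hx)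
  have h2 : LinearMap.trace Ω F' (T.restrict fun x _ => hTF' x) =
      (Fintype.card (I ⧸ U.subgroupOf I) : Ω) * trOn F (φ g) := by
    rw [trOn_eq hgF, ← smul_eq_mul, ← map_smul, ← LinearMap.trace_conj' _ e]
    congr 1
    refine LinearMap.ext fun y => Subtype.ext ?_
    have hy : ∀ q : I ⧸ U.subgroupOf I, φ ((q.out : I) : G) (y : V) = y := fun q =>
      ((hF _).1 y.2).2 _ q.out.2
    change φ g (S ⟨y, hFE _ y.2⟩ : V) = (Fintype.card (I ⧸ U.subgroupOf I) : Ω) • φ g (y : V)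
    rw [hS, Finset.sum_congr rfl fun q _ => hy q, Finset.sum_const, Finset.card_univ,
      ← Nat.cast_smul_eq_nsmul Ω, map_smul]
  rw [← h2, h1, hT, map_sum]
  refine Finset.sum_congr rfl fun q _ => ?_
  rw [trOn_eq (hqE q)]

end avg

section family

variable {G Λ : Type} [Group G] {Ω : Λ → Type} [∀ l, Field (Ω l)] [∀ l, CharZero (Ω l)]
  {V : Λ → Type} [∀ l, AddCommGroup (V l)] [∀ l, Module (Ω l) (V l)]
  [∀ l, FiniteDimensional (Ω l) (V l)]

/-- Rationality and independence of `l` for the traces on the invariants of `I`. -/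
theorem avg_family (φ : ∀ l, G → Module.End (Ω l) (V l))
    (hmul : ∀ l g h x, φ l (g * h) x = φ l g (φ l h x)) (I : Subgroup G)
    (U : Λ → Subgroup G) (hfin : ∀ l l', Finite (I ⧸ (U l ⊓ U l').subgroupOf I))
    (E F : ∀ l, Submodule (Ω l) (V l)) (hEI : ∀ l, ∀ τ ∈ I, ∀ x ∈ E l, φ l τ x ∈ E l)
    (hEU : ∀ l, ∀ τ ∈ I, τ ∈ U l → ∀ x ∈ E l, φ l τ x = x)
    (hF : ∀ l x, x ∈ F l ↔ x ∈ E l ∧ ∀ τ ∈ I, φ l τ x = x) (g : G)
    (hgE : ∀ l, ∀ x ∈ E l, φ l g x ∈ E l) (hgF : ∀ l, ∀ x ∈ F l, φ l g x ∈ F l)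
    (htr : ∀ τ ∈ I, ∃ r : ℚ, ∀ l, trOn (E l) (φ l (g * τ)) = (r : Ω l)) :
    ∃ r : ℚ, ∀ l, trOn (F l) (φ l g) = (r : Ω l) := by
  classical
  refine glue (fun l => trOn (F l) (φ l g)) fun l l' => ?_
  have := hfin l l'
  have hft : Fintype (I ⧸ (U l ⊓ U l').subgroupOf I) := Fintype.ofFinite _
  have hc : (Nat.card (I ⧸ (U l ⊓ U l').subgroupOf I)) ≠ 0 := Nat.card_pos.ne'
  choose r hr using fun q : I ⧸ (U l ⊓ U l').subgroupOf I => htr _ (q.out : I).2
  have key : ∀ m, (∀ τ ∈ I, τ ∈ U l ⊓ U l' → ∀ x ∈ E m, φ m τ x = x) →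
      trOn (F m) (φ m g) =
        (((∑ q, r q) / (Nat.card (I ⧸ (U l ⊓ U l').subgroupOf I)) : ℚ) : Ω m) := by
    intro m hm
    have h1 := avg (hmul m) (hEI m) hm (hF m) (hgE m) (hgF m)
    rw [finsum_eq_sum_of_fintype, Finset.sum_congr rfl fun q _ => hr q m] at h1
    have h2 : (Nat.card (I ⧸ (U l ⊓ U l').subgroupOf I) : Ω m) ≠ 0 := by exact_mod_cast hc
    rw [Rat.cast_div, eq_div_iff (by push_cast; exact h2), mul_comm, Rat.cast_natCast, h1]
    push_cast
    rfl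
  exact ⟨_, key l fun τ hτ hU => hEU l τ hτ hU.1, key l' fun τ hτ hU => hEU l' τ hτ hU.2⟩

end family

end Pool.Agent.Run7.h261.LI
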