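import Pool.Agent.N184.HK.W7
import Pool.Agent.R401.Tr4

/-!
# Independence of `ℓ` for local factors: separation of weights
-/

set_option autoImplicit false
set_option linter.unusedSectionVars false

namespace Pool.Agent.Run7.h261.LI

open Module Polynomial Pool.Agent.N184.HK Pool.Agent.Y143

section trace

variable {K V : Type} [Field K] [IsAlgClosed K] [CharZero K] [AddCommGroup V] [Module K V]
  [FiniteDimensional K V]

/-- The trace of `f(φ)`. -/
lemma tr_aeval (φ : Module.End K V) (f : K[X]) :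
    LinearMap.trace K V (aeval φ f) = (φ.charpoly.roots.map fun e => f.eval e).sum := by
  rw [← tr_fop φ (fun e => f.eval e), ← sub_eq_zero, ← map_sub]
  have hcomm : ∀ p : K[X], Commute (aeval φ p) φ := fun p => by
    have := (Polynomial.X_mul (p := p)).symm
    have h2 := congrArg (aeval φ) this
    rw [map_mul, map_mul, aeval_X] at h2
    exact h2
  have hst : ∀ (p : K[X]) (e : K) (x : V), x ∈ φ.maxGenEigenspace e →
      (aeval φ p) x ∈ φ.maxGenEigenspace e := fun p e x hx =>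
    φ.mapsTo_maxGenEigenspace_of_comm (hcomm p).symm e hx
  have key : ∀ (e : K) (x : V), x ∈ φ.maxGenEigenspace e → ∀ k : ℕ,
      ((aeval φ f - fop φ fun e => f.eval e) ^ k) x =
        (aeval φ ((f - C (f.eval e)) ^ k)) x := by
    intro e x hx k
    induction k with
    | zero => simp
    | succ k ih =>
      rw [pow_succ', Module.End.mul_apply, ih, pow_succ', map_mul, Module.End.mul_apply,
        LinearMap.sub_apply, fop_apply _ (hst _ e x hx), map_sub, LinearMap.sub_apply, aeval_C]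
      rfl
  have hnil : IsNilpotent (aeval φ f - fop φ fun e => f.eval e) := by
    refine ⟨finrank K V, ext_gen φ fun e x hx => ?_⟩
    rw [key e x hx, LinearMap.zero_apply]
    obtain ⟨g, hg⟩ : X - C e ∣ f - C (f.eval e) := by
      rw [dvd_iff_isRoot, IsRoot.def, eval_sub, eval_C, sub_self]
    rw [hg, mul_pow, mul_comm, map_mul, Module.End.mul_apply, map_pow, map_pow, map_sub, aeval_X,
      aeval_C]
    have h1 : ((φ - algebraMap K (Module.End K V) e) ^ finrank K V) x = 0 := by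
      rw [Module.End.maxGenEigenspace_eq_genEigenspace_finrank,
        Module.End.mem_genEigenspace_nat] at hx
      exact hx
    rw [h1, map_zero]
  exact (LinearMap.isNilpotent_trace_of_isNilpotent hnil).eq_zero

end trace

/-- A polynomial which separates the weights. -/
lemma exists_sep {d q : ℕ} (hq : 1 < q) (h : ℕ → ℚ[X])
    (hw : ∀ j ∈ Finset.range (d + 1), ∀ z : ℂ, aeval z (h j) = 0 →
      ‖z‖ = (q : ℝ) ^ (((j : ℤ) : ℝ) / 2)) {i : ℕ} (hi : i ∈ Finset.range (d + 1)) :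
    ∃ f : ℚ[X], X ∣ f ∧ (∀ j ∈ Finset.range (d + 1), j ≠ i → h j ∣ f) ∧ h i ∣ f - X := by
  classical
  set g : ℚ[X] := X * ∏ j ∈ (Finset.range (d + 1)).erase i, h j with hg
  have hq0 : (0 : ℝ) < q := by exact_mod_cast (zero_lt_one.trans hq)
  have hcop : IsCoprime (h i) g := by
    refine (isCoprime_iff_aeval_ne_zero_of_isAlgClosed ℚ ℂ _ _).2 fun z => ?_
    by_contra hcon
    push Not at hcon
    obtain ⟨h1, h2⟩ := hcon
    have h3 := hw i hi z h1
    rw [hg, map_mul, aeval_X, map_prod, mul_eq_zero] at h2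
    rcases h2 with h2 | h2
    · rw [h2, norm_zero] at h3
      exact (Real.rpow_pos_of_pos hq0 _).ne h3
    · obtain ⟨j, hj, h4⟩ := Finset.prod_eq_zero_iff.1 h2
      rw [Finset.mem_erase] at hj
      have h5 := hw j hj.2 z h4
      rw [h3, Real.rpow_right_inj hq0 (by exact_mod_cast hq.ne')] at h5
      apply hj.1
      have h6 : ((i : ℤ) : ℝ) = ((j : ℤ) : ℝ) := by linarith
      exact_mod_cast h6.symm
  obtain ⟨a, b, hab⟩ := hcop
  refine ⟨X * (b * g), ⟨b * g, rfl⟩, fun j hj hji => ?_, ?_⟩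
  · refine Dvd.dvd.mul_left (Dvd.dvd.mul_left ?_ _) _
    rw [hg]
    exact Dvd.dvd.mul_left (Finset.dvd_prod_of_mem _ (Finset.mem_erase.2 ⟨hji, hj⟩)) _
  · refine ⟨-(X * a), ?_⟩
    linear_combination X * hab

section sep

variable {Ω : Type} [Field Ω] [IsAlgClosed Ω] [CharZero Ω] {d : ℕ} {V : ℕ → Type}
  [∀ j, AddCommGroup (V j)] [∀ j, Module Ω (V j)] [∀ j, FiniteDimensional Ω (V j)]

lemma sep_trace (φ : ∀ j, Module.End Ω (V j)) (h : ℕ → ℚ[X])
    (hr : ∀ j ∈ Finset.range (d + 1), ∀ e ∈ (φ j).charpoly.roots, aeval e (h j) = 0)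
    {i : ℕ} (hi : i ∈ Finset.range (d + 1)) (f : ℚ[X]) (hX : X ∣ f)
    (hf : ∀ j ∈ Finset.range (d + 1), j ≠ i → h j ∣ f) (hfi : h i ∣ f - X) (r : ℕ → ℚ)
    (hr' : ∀ k, 0 < k → ∑ j ∈ Finset.range (d + 1), (-1 : Ω) ^ j *
      LinearMap.trace Ω (V j) (φ j ^ k) = (r k : Ω)) :
    LinearMap.trace Ω (V i) (φ i) =
      (((-1) ^ i * ∑ k ∈ Finset.range (f.natDegree + 1), f.coeff k * r k : ℚ) : Ω) := by
  -- the traces of `f(φ j)`
  have h1 : ∀ j ∈ Finset.range (d + 1), LinearMap.trace Ω (V j)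
      (aeval (φ j) (f.map (algebraMap ℚ Ω))) = if j = i then LinearMap.trace Ω (V i) (φ i) else 0 := by
    intro j hj
    rw [tr_aeval]
    split_ifs with hji
    · subst hji
      have h2 := tr_aeval (φ j) (X : Polynomial Ω)
      rw [aeval_X] at h2
      rw [h2]
      congr 1
      refine Multiset.map_congr rfl fun e he => ?_
      rw [eval_X, eval_map_algebraMap]
      obtain ⟨g, hg⟩ := hfi
      have h3 : f = X + h j * g := by rw [← hg]; ring
      rw [h3, map_add, map_mul, hr j hj e he, zero_mul, add_zero, aeval_X]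
    · refine Multiset.sum_eq_zero fun x hx => ?_
      obtain ⟨e, he, rfl⟩ := Multiset.mem_map.1 hx
      rw [eval_map_algebraMap]
      obtain ⟨g, hg⟩ := hf j hj hji
      rw [hg, map_mul, hr j hj e he, zero_mul]
  have hf0 : f.coeff 0 = 0 := by
    rw [coeff_zero_eq_eval_zero]
    obtain ⟨g, hg⟩ := hX
    rw [hg, eval_mul, eval_X, zero_mul]
  have h2 : ∑ j ∈ Finset.range (d + 1), (-1 : Ω) ^ j * LinearMap.trace Ω (V j)
      (aeval (φ j) (f.map (algebraMap ℚ Ω))) = (-1) ^ i * LinearMap.trace Ω (V i) (φ i) := by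
    rw [Finset.sum_congr rfl fun j hj => by rw [h1 j hj]]
    simp only [mul_ite, mul_zero]
    rw [Finset.sum_ite_eq' _ _ fun j => (-1 : Ω) ^ j * LinearMap.trace Ω (V i) (φ i), if_pos hi]
  have h3 : ∀ j, LinearMap.trace Ω (V j) (aeval (φ j) (f.map (algebraMap ℚ Ω))) =
      ∑ k ∈ Finset.range (f.natDegree + 1), (f.coeff k : Ω) * LinearMap.trace Ω (V j) (φ j ^ k) := by
    intro j
    rw [aeval_eq_sum_range' (n := f.natDegree + 1)
      (by rw [natDegree_map]; exact Nat.lt_succ_self _), map_sum]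
    refine Finset.sum_congr rfl fun k _ => ?_
    rw [map_smul, coeff_map, smul_eq_mul]
    rfl
  have h4 : (-1 : Ω) ^ i * LinearMap.trace Ω (V i) (φ i) =
      ∑ k ∈ Finset.range (f.natDegree + 1), (f.coeff k : Ω) * (r k : Ω) := by
    rw [← h2]
    simp only [h3, Finset.mul_sum]
    rw [Finset.sum_comm]
    refine Finset.sum_congr rfl fun k _ => ?_
    rcases Nat.eq_zero_or_pos k with rfl | hk
    · rw [hf0]
      simp
    · rw [← hr' k hk, Finset.mul_sum]
      refine Finset.sum_congr rfl fun j _ => ?_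
      ring
  have h5 : LinearMap.trace Ω (V i) (φ i) = (-1 : Ω) ^ i * ((-1) ^ i * LinearMap.trace Ω (V i) (φ i)) := by
    rw [← mul_assoc, ← mul_pow, neg_one_mul, neg_neg, one_pow, one_mul]
  rw [h5, h4]
  push_cast
  rfl

end sep

section glue

lemma glue {Λ : Type} {Ω : Λ → Type} [∀ l, Field (Ω l)] [∀ l, CharZero (Ω l)] (a : ∀ l, Ω l)
    (h : ∀ l l', ∃ r : ℚ, a l = (r : Ω l) ∧ a l' = (r : Ω l')) :
    ∃ r : ℚ, ∀ l, a l = (r : Ω l) := by
  by_cases hΛ : Nonempty Λ
  · obtain ⟨l₀⟩ := hΛ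
    obtain ⟨r, hr, -⟩ := h l₀ l₀
    refine ⟨r, fun l => ?_⟩
    obtain ⟨r', h1, h2⟩ := h l₀ l
    rw [hr] at h1
    rw [h2, Rat.cast_injective h1]
  · exact ⟨0, fun l => (hΛ ⟨l⟩).elim⟩

end glue

section weights

variable {Λ : Type} {Ω : Λ → Type} [∀ l, Field (Ω l)] [∀ l, IsAlgClosed (Ω l)]
  [∀ l, CharZero (Ω l)] {d : ℕ} {V : Λ → ℕ → Type}
  [∀ l j, AddCommGroup (V l j)] [∀ l j, Module (Ω l) (V l j)]
  [∀ l j, FiniteDimensional (Ω l) (V l j)]

/-- **Separation of weights.** -/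
theorem sep {q : ℕ} (hq : 1 < q) (φ : ∀ l j, Module.End (Ω l) (V l j))
    (hw : ∀ l, ∀ j ∈ Finset.range (d + 1), ∀ e ∈ (φ l j).charpoly.roots, IsWeilNumber q j e)
    (r : ℕ → ℚ)
    (hr : ∀ l k, 0 < k → ∑ j ∈ Finset.range (d + 1), (-1 : Ω l) ^ j *
      LinearMap.trace (Ω l) (V l j) (φ l j ^ k) = (r k : Ω l))
    {i : ℕ} (hi : i ∈ Finset.range (d + 1)) :
    ∃ s : ℚ, ∀ l, LinearMap.trace (Ω l) (V l i) (φ l i) = (s : Ω l) := by
  classical
  refine glue (fun l => LinearMap.trace (Ω l) (V l i) (φ l i)) fun l l' => ?_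
  let h : ℕ → ℚ[X] := fun j => ((φ l j).charpoly.roots.map fun e => minpoly ℚ e).prod *
    ((φ l' j).charpoly.roots.map fun e => minpoly ℚ e).prod
  have hw' : ∀ j ∈ Finset.range (d + 1), ∀ z : ℂ, aeval z (h j) = 0 →
      ‖z‖ = (q : ℝ) ^ (((j : ℤ) : ℝ) / 2) := by
    intro j hj z hz
    change aeval z (_ * _) = 0 at hz
    rw [map_mul, map_multiset_prod, map_multiset_prod, Multiset.map_map, Multiset.map_map,
      mul_eq_zero, Multiset.prod_eq_zero_iff, Multiset.prod_eq_zero_iff] at hz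
    rcases hz with hz | hz
    · obtain ⟨e, he, hz⟩ := Multiset.mem_map.1 hz
      exact (hw l j hj e he).2 z hz
    · obtain ⟨e, he, hz⟩ := Multiset.mem_map.1 hz
      exact (hw l' j hj e he).2 z hz
  obtain ⟨f, hX, hf, hfi⟩ := exists_sep hq h hw' hi
  have hroot : ∀ j, ∀ e ∈ (φ l j).charpoly.roots, aeval e (h j) = 0 := by
    intro j e he
    change aeval e (_ * _) = 0
    rw [map_mul, map_multiset_prod, Multiset.map_map]
    refine mul_eq_zero_of_left (Multiset.prod_eq_zero_iff.2 (Multiset.mem_map.2 ⟨e, he, ?_⟩)) _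
    exact minpoly.aeval ℚ e
  have hroot' : ∀ j, ∀ e ∈ (φ l' j).charpoly.roots, aeval e (h j) = 0 := by
    intro j e he
    change aeval e (_ * _) = 0
    rw [map_mul, map_multiset_prod, map_multiset_prod, Multiset.map_map, Multiset.map_map]
    refine mul_eq_zero_of_right _ (Multiset.prod_eq_zero_iff.2 (Multiset.mem_map.2 ⟨e, he, ?_⟩))
    exact minpoly.aeval ℚ e
  exact ⟨_, sep_trace (φ l) h (fun j _ => hroot j) hi f hX hf hfi r (hr l),
    sep_trace (φ l') h (fun j _ => hroot' j) hi f hX hf hfi r (hr l')⟩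

end weights

end Pool.Agent.Run7.h261.LI
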