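import Pool.Agent.Run7.h261.MT.Defs

/-!
# Independence of `ℓ` for local factors: the first fundamental theorem of invariant theory
-/

set_option autoImplicit false

namespace Pool.Agent.Run7.h261.LI

open Module NumberField
open Pool.Agent.W401.Cheb Pool.Agent.N184.HK Pool.Agent.Run7.h261.MT

section generic

variable {Ω V W : Type} [Field Ω] [AddCommGroup V] [Module Ω V] [AddCommGroup W] [Module Ω W]

/-- The trace of `φ ^ k`. -/
noncomputable def trPow (φ : Module.End Ω V) (k : ℕ) : Ω := LinearMap.trace Ω V (φ ^ k)

/-- The trace of the composition of `D` and `φ`. -/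
noncomputable def trComp (D φ : Module.End Ω V) : Ω := LinearMap.trace Ω V (D ∘ₗ φ)

/-- `B` is a linear combination of the `D j`. -/
def InSpan {m : ℕ} (D : Fin m → Module.End Ω V) (B : Module.End Ω V) : Prop :=
  B ∈ Submodule.span Ω (Set.range D)

end generic

section defs

variable {K : Type} [Field K] [NumberField K] {Ω : Type} [Field Ω] [TopologicalSpace Ω]

/-- The endomorphisms of the vector space of the tensor construction `e`. -/
abbrev EvEnd {X : HKVariety K Ω} (c : Twist X) (e : Expr) : Type := Module.End Ω (ev c e).V

/-- The operator by which `g` acts on the tensor construction `e`. -/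
noncomputable def act {X : HKVariety K Ω} (c : Twist X) (e : Expr) (g : GK K) : EvEnd c e :=
  ((ev c e).φ g).toLinearMap

/-- The trace of `σ` on the tensor construction `e`. -/
noncomputable def evTrace {X : HKVariety K Ω} (c : Twist X) (e : Expr) (σ : GK K) : Ω :=
  trPow (act c e σ) 1

/-- The trace of `σ ^ k` on `H²(X)`. -/
noncomputable def twoTrace (X : HKVariety K Ω) (k : ℕ) (σ : GK K) : Ω := trPow (X.E.Φ σ 2) k

/-- The product of the number `χ(σ) ^ s` and of the traces of `σ ^ k` on `H²(X)`, for the elements
`k` of the multiset `κ`. -/
noncomputable def loops {X : HKVariety K Ω} (c : Twist X) (s : ℤ) (κ : Multiset ℕ) (σ : GK K) : Ω :=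
  c.pow s σ * (κ.map fun k => twoTrace X k σ).prod

/-- The trace of the composition of the linear map `D` with the action of `σ`. -/
noncomputable def twisted {X : HKVariety K Ω} (c : Twist X) (f : Expr) (D : EvEnd c f)
    (σ : GK K) : Ω := trComp D (act c f σ)

/-- The endomorphism `B` commutes with `so(H²)`. -/
def CommutesSo {X : HKVariety K Ω} (c : Twist X) (f : Expr) (B : EvEnd c f) : Prop :=
  (ev c f).SoMap (ev c f) B

/-- The endomorphisms of the tensor construction `f` which commute with `so(H²)` are linear
combinations of endomorphisms `D j` (given by Brauer diagrams). The trace of the composition of `D j`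
with the action of an element `σ` of the Galois group is the product of a power of `χ(σ)` and, for
each closed loop in the diagram, of the trace of a power of `σ` on `H²`. -/
structure IsBrauer {X : HKVariety K Ω} (c : Twist X) (f : Expr) {m : ℕ} (D : Fin m → EvEnd c f)
    (s : Fin m → ℤ) (κ : Fin m → Multiset ℕ) : Prop where
  span : ∀ B, CommutesSo c f B → InSpan D B
  trace : ∀ j σ, twisted c f (D j) σ = loops c (s j) (κ j) σ

/-- The first fundamental theorem of invariant theory for the tensor construction `f` with `H²`. -/
def Brauer {X : HKVariety K Ω} (c : Twist X) (f : Expr) : Prop :=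
  ∃ (m : ℕ) (D : Fin m → EvEnd c f) (s : Fin m → ℤ) (κ : Fin m → Multiset ℕ), IsBrauer c f D s κ

/-- The tensor construction `e` is contained in a finite direct sum of tensor constructions with `H²` of
the same weight, as a representation of `so(H²)`, and the first fundamental theorem holds for these
tensor constructions (in the form `Brauer`). -/
def InTwoB {X : HKVariety K Ω} (c : Twist X) (e : Expr) : Prop :=
  ∃ (n : ℕ) (f : Fin n → Expr) (ι : ∀ k, (ev c e).V →ₗ[Ω] (ev c (f k)).V),
    (∀ k, (f k).two ∧ (f k).wt = e.wt) ∧ (∀ k, (ev c e).SoMap (ev c (f k)) (ι k)) ∧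
      JointInj ι ∧ ∀ k, Brauer c (f k)

end defs

end Pool.Agent.Run7.h261.LI
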