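import Pool.Agent.Run7.h261.PW.Split
import Pool.Agent.Run7.h261.LI.CosetDefs

/-!
# Independence of `ℓ` for local factors: traces on tensor constructions, on cosets of an open subgroup
-/

set_option autoImplicit false
set_option linter.unusedSectionVars false

namespace Pool.Agent.Run7.h261.LI

open Module NumberField
open Pool.Agent.W401.Cheb Pool.Agent.N184.HK Pool.Agent.Y143 Pool.Agent.Run7.h261.MT
open Pool.Agent.Run7.h261.PW

section defs

variable {K : Type} [Field K] [NumberField K] {Ω : Type} [Field Ω] [TopologicalSpace Ω]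

lemma evTrace_eq {X : HKVariety K Ω} (c : Twist X) (e : Expr) (σ : GK K) :
    evTrace c e σ = LinearMap.trace Ω (ev c e).V ((ev c e).φ σ).toLinearMap := by
  rw [evTrace, trPow, pow_one, act]

lemma twoTrace_eq (X : HKVariety K Ω) (k : ℕ) (σ : GK K) :
    twoTrace X k σ = LinearMap.trace Ω (X.E.X.H 2) (X.E.Φ σ 2 ^ k) := rfl

lemma Brauer.exists {X : HKVariety K Ω} {c : Twist X} {f : Expr} (h : Brauer c f) :
    ∃ (m : ℕ) (D : Fin m → EvEnd c f) (s : Fin m → ℤ) (κ : Fin m → Multiset ℕ),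
      (∀ B : EvEnd c f, (ev c f).SoMap (ev c f) B → B ∈ Submodule.span Ω (Set.range D)) ∧
      ∀ j σ, LinearMap.trace Ω (ev c f).V (D j ∘ₗ ((ev c f).φ σ).toLinearMap) =
        loops c (s j) (κ j) σ := by
  obtain ⟨m, D, s, κ, h⟩ := h
  exact ⟨m, D, s, κ, h.span, h.trace⟩

end defs

section

variable {K : Type} [Field K] [NumberField K] {Ω : Type} [Field Ω] [CharZero Ω] [IsAlgClosed Ω]
  [TopologicalSpace Ω] {X : HKVariety K Ω} (c : Twist X)

/-- Splittings which are compatible with `so(H²)`. -/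
theorem split_so {e : Expr} {n : ℕ} (f : Fin n → Expr)
    (ι : ∀ k, (ev c e).V →ₗ[Ω] (ev c (f k)).V)
    (hι : ∀ k, (ev c e).SoMap (ev c (f k)) (ι k)) (hinj : JointInj ι) :
    ∃ (π : ∀ k, (ev c (f k)).V →ₗ[Ω] (ev c e).V),
      (∀ k, (ev c (f k)).SoMap (ev c e) (π k)) ∧ ∀ x, ∑ k, π k (ι k x) = x := by
  classical
  choose R hR1 hR2 using rho_lin (X := X) c
  -- the action on the direct sum
  let V := (k : Fin n) → (ev c (f k)).V
  let RV : Module.End Ω (X.E.X.H 2) →ₗ[Ω] Module.End Ω V :=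
    { toFun := fun T => LinearMap.pi fun k => R (f k) T ∘ₗ LinearMap.proj k
      map_add' := fun S T => by
        refine LinearMap.ext fun x => funext fun k => ?_
        simp
      map_smul' := fun r T => by
        refine LinearMap.ext fun x => funext fun k => ?_
        simp }
  have hRV : ∀ T (x : V) k, RV T x k = R (f k) T (x k) := fun T x k => rfl
  have hbr : ∀ A B, Skew X.E.X.q A → Skew X.E.X.q B →
      RV (A * B - B * A) = RV A * RV B - RV B * RV A := by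
    intro A B hA hB
    refine LinearMap.ext fun x => funext fun k => ?_
    rw [hRV, hR2 _ A B hA hB]
    rfl
  let ιV : (ev c e).V →ₗ[Ω] V := LinearMap.pi ι
  have hιV : ∀ x k, ιV x k = ι k x := fun x k => rfl
  have hιinj : Function.Injective ιV := by
    rw [injective_iff_map_eq_zero]
    intro x hx
    exact hinj x fun k => congrFun hx k
  have hιR : ∀ T, Skew X.E.X.q T → ∀ x, ιV ((ev c e).ρ T x) = RV T (ιV x) := by
    intro T hT x
    funext k
    rw [hιV, hRV, hιV, hι k T hT x, hR1]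
  -- the projection
  obtain ⟨pr, hpr1, hpr2, hpr3⟩ := Run7.h615.MT.weyl X.E.X.symm X.E.X.nondeg X.E.X.dim3 RV hbr
    (LinearMap.range ιV) (by
      rintro T hT _ ⟨x, rfl⟩
      exact ⟨(ev c e).ρ T x, hιR T hT x⟩)
  let ιe : (ev c e).V ≃ₗ[Ω] LinearMap.range ιV := LinearEquiv.ofInjective ιV hιinj
  let πV : V →ₗ[Ω] (ev c e).V := ιe.symm.toLinearMap ∘ₗ pr.codRestrict (LinearMap.range ιV) hpr2
  have hπ : ∀ y, ιV (πV y) = pr y := by
    intro y
    have h1 : ιe (πV y) = pr.codRestrict (LinearMap.range ιV) hpr2 y := ιe.apply_symm_apply _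
    exact congrArg Subtype.val h1
  have hπι : ∀ x, πV (ιV x) = x := by
    intro x
    apply hιinj
    rw [hπ]
    exact hpr3 _ ⟨x, rfl⟩
  have hπR : ∀ T, Skew X.E.X.q T → ∀ y, πV (RV T y) = (ev c e).ρ T (πV y) := by
    intro T hT y
    apply hιinj
    rw [hπ, hιR T hT, hπ]
    exact (congrArg (fun g : Module.End Ω V => g y) (hpr1 T hT).eq).symm
  let π : ∀ k, (ev c (f k)).V →ₗ[Ω] (ev c e).V := fun k =>
    πV ∘ₗ LinearMap.single Ω (fun k => (ev c (f k)).V) k
  have hπso : ∀ k, (ev c (f k)).SoMap (ev c e) (π k) := by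
    intro k T hT y
    change πV (Pi.single k ((ev c (f k)).ρ T y)) = (ev c e).ρ T (πV (Pi.single k y))
    rw [← hπR T hT]
    congr 1
    funext l
    rw [hRV]
    by_cases h : l = k
    · subst h
      rw [Pi.single_eq_same, Pi.single_eq_same, hR1]
    · rw [Pi.single_eq_of_ne h, Pi.single_eq_of_ne h, map_zero]
  refine ⟨π, hπso, fun x => ?_⟩
  have h1 : ∑ k, π k (ι k x) = πV (∑ k, Pi.single k (ι k x)) := by
    rw [map_sum]
    rfl
  have h2 : (∑ k, Pi.single k (ι k x) : V) = ιV x := by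
    rw [← Finset.univ_sum_single (ιV x)]
    rfl
  rw [h1, h2, hπι]

omit [NumberField K] in
lemma trace_comm' {V W : Type} [AddCommGroup V] [Module Ω V] [FiniteDimensional Ω V]
    [AddCommGroup W] [Module Ω W] [FiniteDimensional Ω W] (f : V →ₗ[Ω] W) (g : W →ₗ[Ω] V) :
    LinearMap.trace Ω V (g ∘ₗ f) = LinearMap.trace Ω W (f ∘ₗ g) :=
  LinearMap.trace_comp_comm' f g

/-- Twisting by Galois elements preserves maps compatible with `so(H²)`. -/
lemma so_conj {A B : Rep X} {w w' : ℤ} {a b : ℕ} (hA : IsGood A w a) (hB : IsGood B w' b)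
    {ι : A.V →ₗ[Ω] B.V} {π : B.V →ₗ[Ω] A.V} (hι : A.SoMap B ι) (hπ : B.SoMap A π) (σ : GK K) :
    B.SoMap B (ι ∘ₗ (A.φ σ).toLinearMap ∘ₗ π ∘ₗ (B.φ σ).symm.toLinearMap) := by
  intro T hT x
  set F := X.E.F σ with hF
  set T' : Module.End Ω (X.E.X.H 2) := (F.φ 2).symm.conj T with hT'
  have h5 : ∀ x, F.φ 2 (T' x) = T (F.φ 2 x) := by
    intro x
    simp [hT', LinearEquiv.conj_apply]
  have hsk : Skew X.E.X.q T' := by
    intro x y
    have h3 : X.E.X.q (F.φ 2 (T' x)) (F.φ 2 y) = F.μ * X.E.X.q (T' x) y := F.similar _ _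
    have h4 : X.E.X.q (F.φ 2 x) (F.φ 2 (T' y)) = F.μ * X.E.X.q x (T' y) := F.similar _ _
    have h6 := hT (F.φ 2 x) (F.φ 2 y)
    rw [← h5, ← h5, h3, h4, ← mul_add] at h6
    exact (mul_eq_zero.1 h6).resolve_left F.μ_ne
  have h2 : (F.φ 2).toLinearMap ∘ₗ T' ∘ₗ (F.φ 2).symm.toLinearMap = T := by
    refine LinearMap.ext fun y => ?_
    change F.φ 2 (T' ((F.φ 2).symm y)) = T y
    rw [h5, LinearEquiv.apply_symm_apply]
  have hA' : ∀ y, A.φ σ (A.ρ T' y) = A.ρ T (A.φ σ y) := by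
    intro y
    rw [hA.equi σ T' y]
    exact congrArg (fun S => A.ρ S (A.φ σ y)) h2
  have hB' : ∀ y, B.φ σ (B.ρ T' y) = B.ρ T (B.φ σ y) := by
    intro y
    rw [hB.equi σ T' y]
    exact congrArg (fun S => B.ρ S (B.φ σ y)) h2
  change ι (A.φ σ (π ((B.φ σ).symm (B.ρ T x)))) = B.ρ T (ι (A.φ σ (π ((B.φ σ).symm x))))
  have h7 : (B.φ σ).symm (B.ρ T x) = B.ρ T' ((B.φ σ).symm x) := by
    rw [LinearEquiv.symm_apply_eq, hB', LinearEquiv.apply_symm_apply]
  rw [h7, hπ T' hsk, hA', hι T hT]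

variable [IsTopologicalRing Ω] [T2Space Ω]

/-- **The traces on a tensor construction, on the cosets of an open subgroup.** -/
theorem coset (hc : Rigid c) {e : Expr} (he : e.le X.d) (hV : InTwoB c e) :
    ∃ (U : Subgroup (GK K)) (J : Type) (_ : Fintype J) (s : J → ℤ) (κ : J → Multiset ℕ),
      IsOpen (U : Set (GK K)) ∧ ∀ σ₀ : GK K, ∃ b : J → Ω, ∀ σ ∈ U,
        evTrace c e (σ * σ₀) = ∑ j, b j * loops c (s j) (κ j) (σ * σ₀) := by
  classical
  obtain ⟨n, f, ι, hf, hι, hinj, hB⟩ := hV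
  obtain ⟨π, hπ, hsum⟩ := split_so c f ι hι hinj
  choose m D s κ hD hDtr using fun k => (hB k).exists
  have hfle : ∀ k, (f k).le X.d := fun k => (hf k).1.le X.two_le
  have hU1 : ∀ k, ∃ U : Subgroup (GK K), IsOpen (U : Set (GK K)) ∧ GalMap c e (f k) U (ι k) := by
    intro k
    obtain ⟨U, hU, h⟩ := equi_open c hc he (hfle k) (hf k).2
    exact ⟨U, hU, h (ι k) (hι k)⟩
  have hU2 : ∀ k, ∃ U : Subgroup (GK K), IsOpen (U : Set (GK K)) ∧
      ∀ B : EvHom c (f k) (f k), (ev c (f k)).SoMap (ev c (f k)) B → GalMap c (f k) (f k) U B := by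
    intro k
    obtain ⟨U, hU, h⟩ := equi_open c hc (hfle k) (hfle k) rfl
    exact ⟨U, hU, h⟩
  choose U1 hU1 hι1 using hU1
  choose U2 hU2 hB2 using hU2
  have hgood : ∀ e : Expr, e.le X.d → IsGood (ev c e) e.wt (e.deg X) := good_ev c
  refine ⟨⨅ k, U1 k ⊓ U2 k, Σ k : Fin n, Fin (m k), inferInstance, fun j => s j.1 j.2,
    fun j => κ j.1 j.2, ?_, fun σ₀ => ?_⟩
  · rw [Subgroup.coe_iInf]
    exact isOpen_iInter_of_finite fun k => (hU1 k).inter (hU2 k)
  · -- the endomorphisms of `f k`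
    let B : ∀ k, EvHom c (f k) (f k) := fun k =>
      ι k ∘ₗ ((ev c e).φ σ₀).toLinearMap ∘ₗ π k ∘ₗ ((ev c (f k)).φ σ₀).symm.toLinearMap
    have hBso : ∀ k, (ev c (f k)).SoMap (ev c (f k)) (B k) := fun k =>
      so_conj (hgood e he) (hgood (f k) (hfle k)) (hι k) (hπ k) σ₀
    have hspan := fun k => hD k (B k) (hBso k)
    simp only [Submodule.mem_span_range_iff_exists_fun] at hspan
    choose b hb using hspan
    refine ⟨fun j => b j.1 j.2, fun σ hσ => ?_⟩
    have hσ' : ∀ k, σ ∈ U1 k ∧ σ ∈ U2 k := fun k => Subgroup.mem_iInf.1 hσ k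
    have h1 : ((ev c e).φ (σ * σ₀)).toLinearMap =
        ∑ k, (((ev c e).φ (σ * σ₀)).toLinearMap ∘ₗ π k) ∘ₗ ι k := by
      refine LinearMap.ext fun x => ?_
      rw [LinearMap.sum_apply]
      change (ev c e).φ (σ * σ₀) x = ∑ k, (ev c e).φ (σ * σ₀) (π k (ι k x))
      rw [← map_sum, hsum]
    have h2 : ∀ k, ι k ∘ₗ (((ev c e).φ (σ * σ₀)).toLinearMap ∘ₗ π k) =
        B k ∘ₗ ((ev c (f k)).φ (σ * σ₀)).toLinearMap := by
      intro k
      refine LinearMap.ext fun x => ?_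
      change ι k ((ev c e).φ (σ * σ₀) (π k x)) = B k ((ev c (f k)).φ (σ * σ₀) x)
      rw [(hgood e he).mul, (hgood (f k) (hfle k)).mul, LinearEquiv.trans_apply,
        LinearEquiv.trans_apply, hι1 k σ (hσ' k).1, hB2 k (B k) (hBso k) σ (hσ' k).2]
      change _ = (ev c (f k)).φ σ (ι k ((ev c e).φ σ₀ (π k (((ev c (f k)).φ σ₀).symm
        ((ev c (f k)).φ σ₀ x)))))
      rw [LinearEquiv.symm_apply_apply]
    rw [evTrace_eq, h1, map_sum, Fintype.sum_sigma]
    refine Finset.sum_congr rfl fun k _ => ?_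
    have h3 : (∑ j, b k j • D k j) ∘ₗ ((ev c (f k)).φ (σ * σ₀)).toLinearMap =
        ∑ j, b k j • (D k j ∘ₗ ((ev c (f k)).φ (σ * σ₀)).toLinearMap) := by
      refine LinearMap.ext fun x => ?_
      rw [LinearMap.comp_apply, LinearMap.sum_apply, LinearMap.sum_apply]
      rfl
    rw [trace_comm', h2, ← hb k, h3, map_sum]
    refine Finset.sum_congr rfl fun j _ => ?_
    rw [map_smul, smul_eq_mul]
    congr 1
    exact hDtr k j (σ * σ₀)

end

end Pool.Agent.Run7.h261.LI
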