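import Pool.Agent.N184.HK.WDefs

/-!
# Independence of `ℓ` for the local factors of hyperkähler varieties: definitions
-/

set_option autoImplicit false

namespace Pool.Agent.Run7.h261.LI

open Module Polynomial NumberField IsDedekindDomain
open Pool.Agent.W401.Cheb Pool.Agent.N184.HK

section generic

variable {Ω V : Type} [Field Ω] [AddCommGroup V] [Module Ω V]

/-- The trace of an endomorphism. -/
noncomputable def tr (φ : Module.End Ω V) : Ω := LinearMap.trace Ω V φ

/-- The exponential of a nilpotent endomorphism. -/
noncomputable def expo (A : Module.End Ω V) : Module.End Ω V :=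
  ∑ j ∈ Finset.range (finrank Ω V + 1), ((j.factorial : Ω)⁻¹) • A ^ j

/-- `φ` is zero. -/
def IsZeroMap (φ : Module.End Ω V) : Prop := ∀ x, φ x = 0

/-- `T` is the exponential of `t N`. -/
def IsExp (T N : Module.End Ω V) (t : Ω) : Prop := T = expo (t • N)

/-- All eigenvalues of `φ` are algebraic integers. -/
def IntegralEigenvalues (φ : Module.End Ω V) : Prop := ∀ e, φ.HasEigenvalue e → IsIntegral ℤ e

/-- The subspace of the vectors which are fixed by the operators `φ g` with `g ∈ S`. -/
def fixedBy {G : Type} (S : Set G) (φ : G → Module.End Ω V) : Submodule Ω V where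
  carrier := {x | ∀ g ∈ S, φ g x = x}
  add_mem' := by
    intro x y hx hy g hg
    rw [map_add, hx g hg, hy g hg]
  zero_mem' := by
    intro g _
    rw [map_zero]
  smul_mem' := by
    intro c x hx g hg
    rw [map_smul, hx g hg]

/-- `A` is the matrix of `φ` with respect to the basis `b` of the subspace `F`. -/
def IsMatrix (φ : Module.End Ω V) {F : Submodule Ω V} {m : ℕ} (b : Basis (Fin m) Ω F)
    (A : Matrix (Fin m) (Fin m) Ω) : Prop :=
  ∀ j, φ (b j : V) = ∑ i, A i j • (b i : V)

/-- `f` is the polynomial `det (1 - φ T)` of the operator `φ` on the stable subspace `F`: if `A` is the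
matrix of `φ` with respect to a basis of `F` then `f = det (1 - A T)`. -/
def IsDet (φ : Module.End Ω V) (F : Submodule Ω V) (f : Polynomial Ω) : Prop :=
  ∃ (m : ℕ) (b : Basis (Fin m) Ω F) (A : Matrix (Fin m) (Fin m) Ω),
    IsMatrix φ b A ∧ f = A.charpolyRev

/-- The polynomial `P`, with coefficients in `Ω`. -/
noncomputable def castPoly (Ω : Type) [Field Ω] (P : ℤ[X]) : Polynomial Ω :=
  P.map (Int.castRingHom Ω)

end generic

section

variable {K : Type} [Field K]

/-- `g` belongs to the inertia group at the ideal `Q` of the ring of all algebraic integers. -/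
def InInertia (Q : Ideal (𝓞 (AlgebraicClosure K))) (g : GK K) : Prop :=
  ∀ x : 𝓞 (AlgebraicClosure K), g • x - x ∈ Q

/-- `g` acts on the residue field of `Q` as the inverse of `x ↦ x ^ N`. For `N = q`, the number of
elements of the residue field of a place, these are the geometric Frobenius elements. -/
def GeomFrob (Q : Ideal (𝓞 (AlgebraicClosure K))) (N : ℕ) (g : GK K) : Prop :=
  ∀ x : 𝓞 (AlgebraicClosure K), g⁻¹ • x - x ^ N ∈ Q

/-- The function `t` is not zero on the inertia elements in any open subgroup of the Galois group. -/
def IsTame {Ω : Type} [Field Ω] (Q : Ideal (𝓞 (AlgebraicClosure K))) (t : GK K → Ω) : Prop :=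
  ∀ U : Subgroup (GK K), IsOpen (U : Set (GK K)) → ∃ τ ∈ U, InInertia Q τ ∧ t τ ≠ 0

end

section

variable {K : Type} [Field K] [NumberField K]

/-- `Q` is a maximal ideal of the ring of all algebraic integers which lies above the finite
place `v` of `K`. -/
def LiesAbove (v : HeightOneSpectrum (𝓞 K)) (Q : Ideal (𝓞 (AlgebraicClosure K))) : Prop :=
  Q.IsMaximal ∧ Q.comap (algebraMap (𝓞 K) (𝓞 (AlgebraicClosure K))) = v.asIdeal

/-- `g` is in the Weil group at `Q`, and acts on the residue field as the inverse of `x ↦ x ^ (q ^ k)`,
where `q` is the norm of `u`. -/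
def IsWeil (u : HeightOneSpectrum (𝓞 K)) (Q : Ideal (𝓞 (AlgebraicClosure K))) (k : ℕ) (g : GK K) :
    Prop :=
  GeomFrob Q (Ideal.absNorm u.asIdeal ^ k) g

variable {Ω : Type} [Field Ω] [TopologicalSpace Ω]

/-- The trace of `g` on `H^i(X)`. -/
noncomputable def trH (X : HKVariety K Ω) (g : GK K) (i : ℕ) : Ω := tr (X.E.Φ g i)

/-- The alternating sum of the traces of `g` on the cohomology groups of `X`. -/
noncomputable def altTrace (X : HKVariety K Ω) (g : GK K) : Ω :=
  ∑ j ∈ Finset.range (X.d + 1), (-1) ^ j * trH X g j

/-- The subspace of `H^i(X)` which is fixed by the inertia group at `Q`. -/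
def fixedPart (X : HKVariety K Ω) (Q : Ideal (𝓞 (AlgebraicClosure K))) (i : ℕ) :
    Submodule Ω (X.E.X.H i) :=
  fixedBy {τ | InInertia Q τ} fun τ => X.E.Φ τ i

/-- `f` is the polynomial `det (1 - g T)` of `g` on the subspace of `H^i(X)` which is fixed by the
inertia group at `Q`. -/
def IsLocalFactor (X : HKVariety K Ω) (Q : Ideal (𝓞 (AlgebraicClosure K))) (i : ℕ) (g : GK K)
    (f : Polynomial Ω) : Prop :=
  IsDet (X.E.Φ g i) (fixedPart X Q i) f

variable [CharZero Ω]

/-- The monodromy operator of `H²(X)` is zero: an open subgroup of the inertia group acts trivially on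
`H²(X)`. -/
def TwoPotUnramified {X : HKVariety K Ω} {u : HeightOneSpectrum (𝓞 K)} (L : LocalMonodromy X u) :
    Prop :=
  IsZeroMap (L.data.N 2)

/-- The inertia elements `τ` in the subgroup `U` act on `H^i(X)` as `exp (t(τ) N i)`. -/
def LogOn {X : HKVariety K Ω} {u : HeightOneSpectrum (𝓞 K)} (L : LocalMonodromy X u)
    (Q : Ideal (𝓞 (AlgebraicClosure K))) (U : Subgroup (GK K)) (t : GK K → Ω) : Prop :=
  ∀ i ≤ X.d, ∀ τ ∈ U, InInertia Q τ → IsExp (X.E.Φ τ i) (L.data.N i) (t τ)

/-- `L` is given by the geometric Frobenius element `L.σ` at `Q`, and the operators `N i` of `L` are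
the logarithms of the monodromy (Grothendieck): the elements `τ` of the inertia group at `Q` which
are in a small open subgroup `U` of the Galois group act on `H^i(X)` as `exp (t(τ) N i)`, where `t(τ)`
is a number; it is not zero for some of the `τ` in each open subgroup. -/
structure IsLog {X : HKVariety K Ω} {u : HeightOneSpectrum (𝓞 K)} (L : LocalMonodromy X u)
    (Q : Ideal (𝓞 (AlgebraicClosure K))) : Prop where
  frob : IsWeil u Q 1 L.σ
  log : ∃ (U : Subgroup (GK K)) (t : GK K → Ω), IsOpen (U : Set (GK K)) ∧ LogOn L Q U t ∧
    IsTame Q t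

end

/-- The `ℓ`-adic cohomology, for one prime `ℓ` which is not below the finite place `u` of `K`, of a
projective hyperkähler variety over the number field `K`: `Ω` is an algebraic closure of the field of
`ℓ`-adic numbers (or another algebraically closed topological field which contains it), `X` is the
cohomology with the actions of the Galois group and of `so(H²)`, and `L` consists of a geometric
Frobenius element at `Q` and of the logarithms of the monodromy, where `Q` is a maximal ideal above `u`
of the ring of all algebraic integers. -/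
structure HKPlace (K : Type) [Field K] [NumberField K] (u : HeightOneSpectrum (𝓞 K))
    (Q : Ideal (𝓞 (AlgebraicClosure K))) where
  Ω : Type
  [field : Field Ω]
  [char : CharZero Ω]
  [closed : IsAlgClosed Ω]
  [top : TopologicalSpace Ω]
  [ring : IsTopologicalRing Ω]
  [haus : T2Space Ω]
  X : HKVariety K Ω
  L : LocalMonodromy X u
  isLog : IsLog L Q

attribute [instance] HKPlace.field HKPlace.char HKPlace.closed HKPlace.top HKPlace.ring HKPlace.haus

section

variable {K : Type} [Field K] [NumberField K] {u : HeightOneSpectrum (𝓞 K)}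
  {Q : Ideal (𝓞 (AlgebraicClosure K))}

/-- The alternating sum of the traces of `g` is equal to `r`. -/
def HKPlace.AltTraceIs (R : HKPlace K u Q) (g : GK K) (r : ℚ) : Prop := altTrace R.X g = (r : R.Ω)

/-- The eigenvalues of `g` on the cohomology groups are algebraic integers. -/
def HKPlace.Integral (R : HKPlace K u Q) (g : GK K) : Prop :=
  ∀ i ≤ R.X.d, IntegralEigenvalues (R.X.E.Φ g i)

/-- `H²(X)` is potentially unramified. -/
def HKPlace.PotUnramified (R : HKPlace K u Q) : Prop := TwoPotUnramified R.L

/-- The polynomial `det (1 - g T)` of `g` on the subspace of `H^i(X)` which is fixed by the inertia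
group at `Q` is equal to `P`. -/
def HKPlace.LocalFactorIs (R : HKPlace K u Q) (i : ℕ) (g : GK K) (P : ℤ[X]) : Prop :=
  IsLocalFactor R.X Q i g (castPoly R.Ω P)

/-- The alternating sum of the traces of `g` is rational and independent of `ℓ`, for the elements `g` of
positive degree of the Weil group. -/
def AltTraceIndep {Λ : Type} (R : Λ → HKPlace K u Q) : Prop :=
  ∀ k, 0 < k → ∀ g, IsWeil u Q k g → ∃ r : ℚ, ∀ l, (R l).AltTraceIs g r

/-- The eigenvalues of the elements of positive degree of the Weil group are algebraic integers. -/
def IntegralEig {Λ : Type} (R : Λ → HKPlace K u Q) : Prop :=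
  ∀ k, 0 < k → ∀ g, IsWeil u Q k g → ∀ l, (R l).Integral g

end

/-- The `ℓ`-adic cohomology of a projective hyperkähler variety `X` over a number field `K`, for all
primes `ℓ` which are not below the finite place `u` of `K`: the index set `Λ` is the set of these prime
numbers, and `R l` is the `l`-adic cohomology. The cohomology groups have degrees at most `d`. Two
known facts are fields of the structure:

* `trace`: for the elements `g` of positive degree of the Weil group the alternating sum of the traces
  of `g` is rational and independent of `l` (Ochiai; T. Saito);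
* `integral`: their eigenvalues are algebraic integers (Deligne, SGA 7). -/
structure HKSystem (K : Type) [Field K] [NumberField K] (u : HeightOneSpectrum (𝓞 K))
    (Q : Ideal (𝓞 (AlgebraicClosure K))) where
  above : LiesAbove u Q
  Λ : Type
  R : Λ → HKPlace K u Q
  d : ℕ
  deg : ∀ l, (R l).X.d = d
  trace : AltTraceIndep R
  integral : IntegralEig R

end Pool.Agent.Run7.h261.LI
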