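import Pool.Agent.Run7.h261.LI.Defs
import Pool.Agent.Run7.h261.LI.CosetDefs

/-!
# Independence of `ℓ` for local factors: definitions for the tensor constructions of even weight
-/

set_option autoImplicit false

namespace Pool.Agent.Run7.h261.LI

open Module Polynomial NumberField IsDedekindDomain
open Pool.Agent.W401.Cheb Pool.Agent.N184.HK Pool.Agent.Run7.h261.MT

/-- `V = 0`. -/
def IsZeroSpace (V : Type) [AddCommGroup V] : Prop := ∀ x : V, x = 0

/-- There is an isomorphism `L : V → W` with `ψ(g) L = a(g) L φ(g)` for all `g`. -/
def AreSimilar {G Ω V W : Type} [Field Ω] [AddCommGroup V] [Module Ω V] [AddCommGroup W] [Module Ω W]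
    (φ : G → Module.End Ω V) (ψ : G → Module.End Ω W) (a : G → Ω) : Prop :=
  ∃ L : V ≃ₗ[Ω] W, ∀ g x, ψ g (L x) = a g • L (φ g x)

/-- The polynomial `P`, with coefficients in `Ω`. -/
noncomputable def ratPoly (Ω : Type) [Field Ω] [CharZero Ω] (P : ℚ[X]) : Polynomial Ω :=
  P.map (algebraMap ℚ Ω)

section

variable {K : Type} [Field K] [NumberField K] {Ω : Type} [Field Ω] [TopologicalSpace Ω]

/-- The elements `g` of the Weil group which act on the residue field as the inverse of
`x ↦ x ^ (q ^ k)` have `χ(g) = q ^ k`. -/
def IsCyclotomic {X : HKVariety K Ω} (c : Twist X) (u : HeightOneSpectrum (𝓞 K))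
    (Q : Ideal (𝓞 (AlgebraicClosure K))) : Prop :=
  ∀ k g, IsWeil u Q k g → (c.χ g : Ω) = (Ideal.absNorm u.asIdeal : Ω) ^ k

/-- The relation `N g = q ^ k g N` for the elements `g` of the Weil group which act on the residue
field as the inverse of `x ↦ x ^ (q ^ k)`, and the operators `N i` on `H^i(X)`. -/
def IsTwisted [CharZero Ω] {X : HKVariety K Ω} {u : HeightOneSpectrum (𝓞 K)}
    (L : LocalMonodromy X u) (Q : Ideal (𝓞 (AlgebraicClosure K))) : Prop :=
  ∀ k g, IsWeil u Q k g → ∀ i ≤ X.d, Twisted (Ideal.absNorm u.asIdeal ^ k) (X.E.Φ g i) (L.data.N i)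

/-- The subspace of the tensor construction `e` which is fixed by the inertia group at `Q`. -/
noncomputable def fixedEv {X : HKVariety K Ω} (c : Twist X) (Q : Ideal (𝓞 (AlgebraicClosure K))) (e : Expr) :
    Submodule Ω (ev c e).V :=
  fixedBy {τ | InInertia Q τ} (act c e)

end

section

variable {K : Type} [Field K] [NumberField K] {u : HeightOneSpectrum (𝓞 K)}
  {Q : Ideal (𝓞 (AlgebraicClosure K))}

/-- The trace of `g` on `H²(X)` is equal to `r`. -/
def HKPlace.TwoTraceIs (R : HKPlace K u Q) (g : GK K) (r : ℚ) : Prop := trH R.X g 2 = (r : R.Ω)

/-- The trace of `g` on `H²(X)` is rational and independent of `ℓ`, for the elements `g` of positive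
degree of the Weil group. -/
def TwoIndep {Λ : Type} (R : Λ → HKPlace K u Q) : Prop :=
  ∀ k, 0 < k → ∀ g, IsWeil u Q k g → ∃ r : ℚ, ∀ l, (R l).TwoTraceIs g r

/-- At the common places of good reduction the characteristic polynomials of the Frobenius elements
on `H^i(X)` are equal. -/
def SamePoly (R R' : HKPlace K u Q) : Prop :=
  ∀ v, v ∉ R.X.bad → v ∉ R'.X.bad → ∀ i ≤ R.X.d, R.X.poly v i = R'.X.poly v i

end

/-- The `ℓ`-adic cohomology of a projective hyperkähler variety `X` over a number field `K`, for all
primes `ℓ` which are not below the finite place `u` of `K`: the index set `Λ` is the set of these prime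
numbers, and `R l` is the `l`-adic cohomology. The cohomology groups have degrees at most `d`, and
`c l` is the cyclotomic character. The following known facts are fields of the structure:

* `integral`: the eigenvalues of the elements of positive degree of the Weil group are algebraic
  integers (Deligne, SGA 7);
* `twist`: `N g = q ^ k g N` for the elements `g` of degree `k` of the Weil group (Grothendieck);
* `cyc`: `χ(g) = q ^ k` for these elements. -/
structure HKBase (K : Type) [Field K] [NumberField K] (u : HeightOneSpectrum (𝓞 K))
    (Q : Ideal (𝓞 (AlgebraicClosure K))) where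
  above : LiesAbove u Q
  Λ : Type
  R : Λ → HKPlace K u Q
  d : ℕ
  deg : ∀ l, (R l).X.d = d
  c : ∀ l, Twist (R l).X
  integral : IntegralEig R
  twist : ∀ l, IsTwisted (R l).L Q
  cyc : ∀ l, IsCyclotomic (c l) u Q

/-- `HKBase` together with the known facts

* `rigid`: extensions of trivial representations by trivial representations inside of the twisted
  tensor constructions split over open subgroups (Faltings, Bloch-Kato, see `Rigid`);
* `poly`: the characteristic polynomials of the Frobenius elements of the places of good reduction do
  not depend on `ℓ` (Deligne);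
* `two`: for the elements `g` of positive degree of the Weil group, the trace of `g` on `H²(X)` is
  rational and independent of `ℓ`. This is known if the Künneth projector for `H²(X)` is algebraic
  (T. Saito), for example for the deformation types `K3^[n]` (Charles, Markman) and `Kum_n` (Foster),
  and if `X` is covered by Lagrangian subvarieties (Voisin). -/
structure HKTwo (K : Type) [Field K] [NumberField K] (u : HeightOneSpectrum (𝓞 K))
    (Q : Ideal (𝓞 (AlgebraicClosure K))) extends HKBase K u Q where
  rigid : ∀ l, Rigid (c l)
  poly : ∀ l l', SamePoly (R l) (R l')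
  two : TwoIndep R

section

variable {K : Type} [Field K] [NumberField K] {u : HeightOneSpectrum (𝓞 K)}
  {Q : Ideal (𝓞 (AlgebraicClosure K))}

/-- The tensor construction `e` is contained in a finite direct sum of tensor constructions with `H²`
and Tate twists of the same weight, as a representation of `so(H²)`, and for these tensor
constructions the first fundamental theorem of invariant theory holds (see `Brauer`).

This is known for all `e` of even weight if `b₂(X)` is odd, for example for the deformation types
`K3^[n]`, `n > 1`, and `Kum_n`: the action of `so(H²)` integrates to an action of `SO(H²)` (Verbitsky),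
representations of `SO(H²)` are contained in sums of tensor powers `V ^ ⊗ m` of `V = H²`, and the
endomorphisms of `V ^ ⊗ m` which commute with `SO(V)` are spanned by Brauer diagrams if `dim V` is odd
or `2 m < dim V` (Weyl). It is known for the `H^i(X)` of even degree for all known deformation types:
for `OG6` and `OG10` the tensor powers with `m ≤ 3` and `m ≤ 5` are sufficient (Green, Kim, Laza,
Robles), and `b₂ = 8` and `b₂ = 24`. -/
def HKTwo.Weyl (S : HKTwo K u Q) (e : Expr) : Prop := ∀ l, InTwoB (S.c l) e

/-- `H^i(X) = 0`. -/
def HKBase.Vanish (S : HKBase K u Q) (i : ℕ) : Prop := ∀ l, IsZeroSpace ((S.R l).X.E.X.H i)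

end

/-- The polynomial `det (1 - g T)` of `g` on the subspace of the tensor construction `e` which is fixed
by the inertia group at `Q` has rational coefficients and does not depend on `ℓ`. -/
def HKBase.FactorIndep {K : Type} [Field K] [NumberField K] {u : HeightOneSpectrum (𝓞 K)}
    {Q : Ideal (𝓞 (AlgebraicClosure K))} (S : HKBase K u Q) (e : Expr) (g : GK K) : Prop :=
  ∃ P : ℚ[X], ∀ l, IsDet (act (S.c l) e g) (fixedEv (S.c l) Q e) (ratPoly (S.R l).Ω P)

/-- There is an isomorphism `L : H^i(X) → H^j(X)` with `g L = χ(g) L g` for all elements `g` of the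
Galois group. -/
def HasLef {K : Type} [Field K] [NumberField K] {Ω : Type} [Field Ω] [TopologicalSpace Ω]
    {X : HKVariety K Ω} (c : Twist X) (i j : ℕ) : Prop :=
  AreSimilar (fun g => X.E.Φ g i) (fun g => X.E.Φ g j) (c.pow 1)

/-- A projective hyperkähler variety of dimension four. In addition to `HKTwo` there are the fields

* `trace`: for the elements `g` of positive degree of the Weil group the alternating sum of the traces
  of `g` is rational and independent of `l` (Ochiai; T. Saito);
* `H^1(X)` and `H^7(X)` are zero (`X` is simply connected);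
* `lef`: hard Lefschetz, an isomorphism of `H^3(X)` and `H^5(X)`, the cup product with the class of a
  hyperplane section (Deligne);
* `weyl`: see `HKTwo.Weyl`. -/
structure HKFour (K : Type) [Field K] [NumberField K] (u : HeightOneSpectrum (𝓞 K))
    (Q : Ideal (𝓞 (AlgebraicClosure K))) extends HKTwo K u Q where
  dim : d = 8
  trace : AltTraceIndep R
  one : toHKBase.Vanish 1
  seven : toHKBase.Vanish 7
  lef : ∀ l, HasLef (c l) 3 5
  weyl : ∀ i ≤ d, Even i → toHKTwo.Weyl (.H i)

end Pool.Agent.Run7.h261.LI
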