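import Pool.Agent.Run7.h261.LI.Avg
import Pool.Agent.Run7.h261.LI.Defs

/-!
# Independence of `ℓ` for local factors: the local factor
-/

set_option autoImplicit false
set_option linter.unusedSectionVars false

namespace Pool.Agent.Run7.h261.LI

open Module Polynomial Pool.Agent.N184.HK Pool.Agent.Y143 Pool.Agent.R401.Tr4

section one

variable {Ω V : Type} [Field Ω] [CharZero Ω] [AddCommGroup V] [Module Ω V]
  [FiniteDimensional Ω V]

lemma exists_mat {φ : Module.End Ω V} {F : Submodule Ω V} (hF : ∀ x ∈ F, φ x ∈ F) :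
    ∃ (m : ℕ) (b : Basis (Fin m) Ω F) (A : Matrix (Fin m) (Fin m) Ω),
      ∀ j, φ (b j : V) = ∑ i, A i j • (b i : V) := by
  let b := Module.finBasis Ω F
  refine ⟨_, b, LinearMap.toMatrix b b (φ.restrict hF), fun j => ?_⟩
  have h1 : φ.restrict hF (b j) = ∑ i, LinearMap.toMatrix b b (φ.restrict hF) i j • b i := by
    rw [← Matrix.toLin_self b b, Matrix.toLin_toMatrix]
  have h2 := congrArg (Subtype.val) h1
  rw [Submodule.coe_sum] at h2
  exact h2

lemma mat_eq {φ : Module.End Ω V} {F : Submodule Ω V} (hF : ∀ x ∈ F, φ x ∈ F) {m : ℕ}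
    (b : Basis (Fin m) Ω F) {A : Matrix (Fin m) (Fin m) Ω}
    (hA : ∀ j, φ (b j : V) = ∑ i, A i j • (b i : V)) :
    Matrix.toLin b b A = φ.restrict hF := by
  refine b.ext fun j => Subtype.ext ?_
  rw [Matrix.toLin_self, Submodule.coe_sum]
  exact (hA j).symm

lemma restrict_pow' {φ : Module.End Ω V} {F : Submodule Ω V} (hF : ∀ x ∈ F, φ x ∈ F) (k : ℕ)
    (h : ∀ x ∈ F, (φ ^ k) x ∈ F) : (φ.restrict hF) ^ k = (φ ^ k).restrict h := by
  refine LinearMap.ext fun x => Subtype.ext ?_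
  have : ∀ k : ℕ, (((φ.restrict hF) ^ k) x : V) = (φ ^ k) x := by
    intro k
    induction k with
    | zero => rfl
    | succ k ih =>
      rw [pow_succ', pow_succ', Module.End.mul_apply, Module.End.mul_apply, ← ih]
      rfl
  exact this k

lemma stab_pow {φ : Module.End Ω V} {F : Submodule Ω V} (hF : ∀ x ∈ F, φ x ∈ F) (k : ℕ) :
    ∀ x ∈ F, (φ ^ k) x ∈ F := by
  induction k with
  | zero => exact fun x hx => hx
  | succ k ih =>
    intro x hx
    rw [pow_succ', Module.End.mul_apply]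
    exact hF _ (ih x hx)

lemma trace_mat {φ : Module.End Ω V} {F : Submodule Ω V} (hF : ∀ x ∈ F, φ x ∈ F) {m : ℕ}
    (b : Basis (Fin m) Ω F) {A : Matrix (Fin m) (Fin m) Ω}
    (hA : ∀ j, φ (b j : V) = ∑ i, A i j • (b i : V)) (k : ℕ) :
    (A ^ k).trace = trOn F (φ ^ k) := by
  rw [trOn_eq (stab_pow hF k), ← restrict_pow' hF k, ← mat_eq hF b hA,
    LinearMap.trace_eq_matrix_trace Ω b]
  congr 1
  have : (Matrix.toLin b b A) ^ k = Matrix.toLin b b (A ^ k) := by
    induction k with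
    | zero => rw [pow_zero, pow_zero, Matrix.toLin_one]; rfl
    | succ k ih => rw [pow_succ, pow_succ, Matrix.toLin_mul b b b, ih]; rfl
  rw [this, LinearMap.toMatrix_toLin]

/-- The coefficients of the polynomial are algebraic integers. -/
lemma coeff_integral [IsAlgClosed Ω] {φ : Module.End Ω V} {F : Submodule Ω V}
    (hF : ∀ x ∈ F, φ x ∈ F) {m : ℕ}
    (b : Basis (Fin m) Ω F) {A : Matrix (Fin m) (Fin m) Ω}
    (hA : ∀ j, φ (b j : V) = ∑ i, A i j • (b i : V))
    (hint : ∀ e, φ.HasEigenvalue e → IsIntegral ℤ e) (k : ℕ) :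
    IsIntegral ℤ (A.charpolyRev.coeff k) := by
  rw [← Matrix.reverse_charpoly, coeff_reverse]
  generalize revAt A.charpoly.natDegree k = n
  have h1 : ∀ e ∈ A.charpoly.roots, IsIntegral ℤ e := by
    intro e he
    rw [mem_roots (Matrix.charpoly_monic A).ne_zero, ← Matrix.charpoly_toLin A b,
      mat_eq hF b hA, ← Module.End.hasEigenvalue_iff_isRoot_charpoly] at he
    obtain ⟨x, hx⟩ := he.exists_hasEigenvector
    refine hint e (Module.End.hasEigenvalue_of_hasEigenvector (x := (x : V)) ⟨?_, ?_⟩)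
    · rw [Module.End.mem_eigenspace_iff]
      have := congrArg Subtype.val hx.apply_eq_smul
      exact this
    · intro h0
      exact hx.2 (Subtype.ext h0)
  have h2 : A.charpoly = (A.charpoly.roots.map fun a => X - C a).prod :=
    (IsAlgClosed.splits A.charpoly).eq_prod_roots_of_monic (Matrix.charpoly_monic A)
  have h3 : (A.charpoly.roots.map fun a => X - C a).prod ∈
      lifts (algebraMap (integralClosure ℤ Ω) Ω) := by
    refine Subsemiring.multiset_prod_mem _ _ fun p hp => ?_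
    obtain ⟨e, he, rfl⟩ := Multiset.mem_map.1 hp
    refine ⟨X - C ⟨e, h1 e he⟩, ?_⟩
    simp only [coe_mapRingHom, Polynomial.map_sub, map_X, map_C]
    rfl
  rw [← h2, lifts_iff_coeff_lifts] at h3
  obtain ⟨c, hc⟩ := h3 n
  rw [← hc]
  exact c.2

end one

section family

variable {Λ : Type} {Ω : Λ → Type} [∀ l, Field (Ω l)] [∀ l, CharZero (Ω l)]
  {V : Λ → Type} [∀ l, AddCommGroup (V l)] [∀ l, Module (Ω l) (V l)]
  [∀ l, FiniteDimensional (Ω l) (V l)]

/-- The local factor is rational and independent of `l`. -/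
theorem factor_rat (φ : ∀ l, Module.End (Ω l) (V l)) (F : ∀ l, Submodule (Ω l) (V l))
    (hF : ∀ l, ∀ x ∈ F l, φ l x ∈ F l)
    (htr : ∀ k : ℕ, 0 < k → ∃ r : ℚ, ∀ l, trOn (F l) (φ l ^ k) = (r : Ω l)) :
    ∃ P : ℚ[X], ∀ l, IsDet (φ l) (F l) (P.map (algebraMap ℚ (Ω l))) := by
  classical
  choose s hs using fun k : ℕ => htr (k + 1) k.succ_pos
  let s' : ℕ → ℚ := fun k => s (k - 1)
  have hcoeff : ∀ l (m : ℕ) (b : Basis (Fin m) (Ω l) (F l)) (A : Matrix (Fin m) (Fin m) (Ω l)),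
      (∀ j, φ l (b j : V l) = ∑ i, A i j • (b i : V l)) →
      ∀ k, A.charpolyRev.coeff k = (cf s' k : Ω l) := by
    intro l m b A hA k
    refine coeff_eq A s' (fun k => ?_) k
    rw [trace_mat (hF l) b hA, hs k l]
    rfl
  by_cases hΛ : Nonempty Λ
  · obtain ⟨l₀⟩ := hΛ
    obtain ⟨m₀, b₀, A₀, hA₀⟩ := exists_mat (hF l₀)
    have hzero : ∀ k, m₀ < k → cf s' k = 0 := by
      intro k hk
      have h1 := hcoeff l₀ m₀ b₀ A₀ hA₀ k
      rw [coeff_eq_zero_of_natDegree_lt (lt_of_le_of_lt (natDegree_charpolyRev A₀) hk)] at h1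
      exact_mod_cast h1.symm
    refine ⟨∑ k ∈ Finset.range (m₀ + 1), C (cf s' k) * X ^ k, fun l => ?_⟩
    obtain ⟨m, b, A, hA⟩ := exists_mat (hF l)
    refine ⟨m, b, A, hA, ?_⟩
    refine Polynomial.ext fun k => ?_
    rw [hcoeff l m b A hA k, coeff_map, finsetSum_coeff]
    simp only [coeff_C_mul, coeff_X_pow, mul_ite, mul_one, mul_zero]
    rw [Finset.sum_ite_eq]
    split_ifs with hk
    · rw [eq_ratCast]
    · rw [Finset.mem_range] at hk
      rw [hzero k (by omega), Rat.cast_zero, map_zero]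
  · exact ⟨0, fun l => (hΛ ⟨l⟩).elim⟩

/-- The local factor is integral. -/
theorem factor_int [∀ l, IsAlgClosed (Ω l)] (φ : ∀ l, Module.End (Ω l) (V l))
    (F : ∀ l, Submodule (Ω l) (V l)) (hF : ∀ l, ∀ x ∈ F l, φ l x ∈ F l)
    (htr : ∀ k : ℕ, 0 < k → ∃ r : ℚ, ∀ l, trOn (F l) (φ l ^ k) = (r : Ω l))
    (hint : ∀ l e, (φ l).HasEigenvalue e → IsIntegral ℤ e) :
    ∃ P : ℤ[X], ∀ l, IsDet (φ l) (F l) (castPoly (Ω l) P) := by
  obtain ⟨P, hP⟩ := factor_rat φ F hF htr
  by_cases hΛ : Nonempty Λ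
  · obtain ⟨l₀⟩ := hΛ
    obtain ⟨m₀, b₀, A₀, hA₀, h1⟩ := hP l₀
    have h2 : ∀ k, ∃ c : ℤ, (algebraMap ℤ ℚ) c = P.coeff k := by
      intro k
      have h3 := coeff_integral (hF l₀) b₀ hA₀ (hint l₀) k
      have h4 : A₀.charpolyRev.coeff k = algebraMap ℚ (Ω l₀) (P.coeff k) := by
        rw [← h1, coeff_map]
      rw [h4, isIntegral_algebraMap_iff (algebraMap ℚ (Ω l₀)).injective] at h3
      exact IsIntegrallyClosed.isIntegral_iff.1 h3
    have h5 : P ∈ lifts (algebraMap ℤ ℚ) := (lifts_iff_coeff_lifts P).2 fun k => h2 k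
    obtain ⟨Q, hQ⟩ := h5
    refine ⟨Q, fun l => ?_⟩
    have h6 : castPoly (Ω l) Q = P.map (algebraMap ℚ (Ω l)) := by
      rw [← hQ, coe_mapRingHom, Polynomial.map_map, castPoly]
      congr 1
      exact (RingHom.ext_int _ _)
    rw [h6]
    exact hP l
  · exact ⟨0, fun l => (hΛ ⟨l⟩).elim⟩

end family

end Pool.Agent.Run7.h261.LI
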