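import Pool.Agent.Run7.h261.LI.Base

/-!
# Independence of `ℓ` for local factors: sums over roots
-/

set_option autoImplicit false
set_option linter.unusedSectionVars false

namespace Pool.Agent.Run7.h261.LI

open Module Polynomial Pool.Agent.N184.HK Pool.Agent.Y143

section roots

open Classical in
/-- the sum of the roots of the irreducible factors with the property `T` -/
noncomputable def rsum (P : ℚ[X]) (T : ℚ[X] → Prop) : ℚ :=
  ((UniqueFactorizationMonoid.normalizedFactors P).map fun f => if T f then -f.nextCoeff else 0).sum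

lemma minpoly_of_root {Ω : Type} [Field Ω] [CharZero Ω] {f : ℚ[X]} (hf : Irreducible f)
    (hm : f.Monic) {e : Ω} (he : e ∈ (f.map (algebraMap ℚ Ω)).roots) : minpoly ℚ e = f := by
  have h1 : aeval e f = 0 := by
    have := (mem_roots (map_ne_zero hf.ne_zero)).1 he
    rwa [IsRoot.def, eval_map_algebraMap] at this
  exact (minpoly.eq_of_irreducible_of_monic hf h1 hm).symm

open Classical in
/-- Sums over roots with a property which only depends on the minimal polynomial. -/
lemma rsum_eq {Ω : Type} [Field Ω] [CharZero Ω] [IsAlgClosed Ω] {P : ℚ[X]} (hP : P.Monic)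
    (T : ℚ[X] → Prop) :
    ((P.map (algebraMap ℚ Ω)).roots.map fun e => if T (minpoly ℚ e) then e else 0).sum =
      (rsum P T : Ω) := by
  have h0 : P ≠ 0 := hP.ne_zero
  have hmon : ∀ f ∈ UniqueFactorizationMonoid.normalizedFactors P, f.Monic := fun f hf => by
    have h2 := UniqueFactorizationMonoid.normalize_normalized_factor f hf
    have h3 := UniqueFactorizationMonoid.irreducible_of_normalized_factor f hf
    rw [← h2]
    exact monic_normalize h3.ne_zero
  have hnf : (UniqueFactorizationMonoid.normalizedFactors P).prod = P := by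
    have h1 := UniqueFactorizationMonoid.prod_normalizedFactors h0
    have h2 := monic_multiset_prod_of_monic (UniqueFactorizationMonoid.normalizedFactors P)
      (fun f => f) hmon
    rw [Multiset.map_id'] at h2
    exact Polynomial.eq_of_monic_of_associated h2 hP h1
  have key : ∀ s : Multiset ℚ[X], (∀ f ∈ s, Irreducible f ∧ f.Monic) →
      ((s.prod.map (algebraMap ℚ Ω)).roots.map fun e => if T (minpoly ℚ e) then e else 0).sum =
        (((s.map fun f => if T f then -f.nextCoeff else 0).sum : ℚ) : Ω) := by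
    intro s
    induction s using Multiset.induction_on with
    | empty => intro _; simp
    | cons f s ih =>
      intro hs
      have hf := hs f (Multiset.mem_cons_self f s)
      have hs' : ∀ g ∈ s, Irreducible g ∧ g.Monic := fun g hg => hs g (Multiset.mem_cons_of_mem hg)
      have hsm : s.prod.Monic := by
        have := monic_multiset_prod_of_monic s (fun f => f) (fun g hg => (hs' g hg).2)
        simpa using this
      rw [Multiset.prod_cons, Polynomial.map_mul, roots_mul
        (mul_ne_zero (map_ne_zero hf.1.ne_zero) (map_ne_zero hsm.ne_zero)), Multiset.map_add,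
        Multiset.sum_add, ih hs', Multiset.map_cons, Multiset.sum_cons, Rat.cast_add]
      congr 1
      rw [Multiset.map_congr rfl fun e he => by rw [minpoly_of_root hf.1 hf.2 he]]
      split_ifs with hT
      · rw [Multiset.map_id']
        have h4 := (IsAlgClosed.splits (f.map (algebraMap ℚ Ω))).nextCoeff_eq_neg_sum_roots_of_monic
          (hf.2.map _)
        rw [nextCoeff_map (algebraMap ℚ Ω).injective, eq_ratCast] at h4
        rw [Rat.cast_neg, h4, neg_neg]
      · simp
  have h5 := key _ (fun f hf =>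
    ⟨UniqueFactorizationMonoid.irreducible_of_normalized_factor f hf, hmon f hf⟩)
  rw [hnf] at h5
  exact h5

end roots

section newton

open Pool.Agent.R401.Tr4

/-- the power sums given by Newton's identities: `tn c k` is the trace of the `k + 1`-st power (see
`Pool.Agent.R401.Tr10`) -/
noncomputable def tn (c : ℕ → ℚ) : ℕ → ℚ
  | k => -(c (k + 1) * ((k : ℚ) + 1)) - ∑ i : Fin k, c (k - i.1) * tn c i.1
decreasing_by exact i.2

theorem trace_eq_tn {L : Type} [Field L] {m : ℕ} (A : Matrix (Fin m) (Fin m) L)
    [CharZero L] (c : ℕ → ℚ) (hc : ∀ k, A.charpolyRev.coeff k = (c k : L)) (k : ℕ) :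
    (A ^ (k + 1)).trace = (tn c k : L) := by
  induction k using Nat.strong_induction_on with
  | _ k ih =>
    have h1 := Pool.Agent.TH658.Eq.newton A k
    rw [Finset.Nat.sum_antidiagonal_eq_sum_range_succ
      (fun i j => A.charpolyRev.coeff i * (A ^ (j + 1)).trace) k, ← Finset.sum_range_reflect,
      Finset.sum_range_succ] at h1
    have h2 : A.charpolyRev.coeff 0 = 1 := by
      rw [coeff_zero_eq_eval_zero, Matrix.eval_charpolyRev]
    have h3 : k + 1 - 1 - k = 0 := by omega
    rw [h3, h2, one_mul, Nat.sub_zero] at h1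
    have h4 : ∑ x ∈ Finset.range k, A.charpolyRev.coeff (k + 1 - 1 - x) *
        (A ^ (k - (k + 1 - 1 - x) + 1)).trace = ∑ i : Fin k, (c (k - i.1) : L) * (tn c i.1 : L) := by
      rw [← Fin.sum_univ_eq_sum_range (fun x => A.charpolyRev.coeff (k + 1 - 1 - x) *
        (A ^ (k - (k + 1 - 1 - x) + 1)).trace) k]
      refine Finset.sum_congr rfl fun i _ => ?_
      have h5 : k - (k + 1 - 1 - i.1) = i.1 := by omega
      have h6 : k + 1 - 1 - i.1 = k - i.1 := by omega
      rw [h5, h6, ih i.1 i.2, hc]
    rw [h4, hc] at h1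
    rw [tn]
    push_cast
    linear_combination h1

/-- The trace of `φ ^ k` if the characteristic polynomial is `P`. -/
noncomputable def ptrace (P : ℚ[X]) : ℕ → ℚ
  | 0 => P.natDegree
  | k + 1 => tn (fun n => P.coeff (revAt P.natDegree n)) k

lemma trace_pow_eq {Ω V : Type} [Field Ω] [CharZero Ω] [AddCommGroup V] [Module Ω V]
    [FiniteDimensional Ω V] {φ : Module.End Ω V} {P : ℚ[X]}
    (h : φ.charpoly = P.map (algebraMap ℚ Ω)) (k : ℕ) :
    LinearMap.trace Ω V (φ ^ k) = (ptrace P k : Ω) := by
  have hdeg : P.natDegree = finrank Ω V := by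
    rw [← φ.charpoly_natDegree, h, natDegree_map]
  cases k with
  | zero =>
    rw [pow_zero, LinearMap.trace_one, ptrace, hdeg]
    push_cast
    rfl
  | succ k =>
    let b := Module.finBasis Ω V
    have hdeg' : (LinearMap.toMatrix b b φ).charpoly = P.map (algebraMap ℚ Ω) := by
      rw [LinearMap.charpoly_toMatrix, h]
    rw [ptrace, ← trace_eq_tn (LinearMap.toMatrix b b φ)
      (fun n => P.coeff (revAt P.natDegree n)) (fun n => ?_) k,
      LinearMap.trace_eq_matrix_trace Ω b, LinearMap.toMatrix_pow]
    rw [← Matrix.reverse_charpoly, coeff_reverse, hdeg', natDegree_map, coeff_map, eq_ratCast]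

/-- The trace of `f(φ)` if the characteristic polynomial is rational. -/
lemma trace_aeval_eq {Ω V : Type} [Field Ω] [CharZero Ω] [AddCommGroup V] [Module Ω V]
    [FiniteDimensional Ω V] {φ : Module.End Ω V} {P : ℚ[X]}
    (h : φ.charpoly = P.map (algebraMap ℚ Ω)) (f : ℚ[X]) :
    LinearMap.trace Ω V (aeval φ (f.map (algebraMap ℚ Ω))) =
      ((∑ k ∈ Finset.range (f.natDegree + 1), f.coeff k * ptrace P k : ℚ) : Ω) := by
  rw [aeval_eq_sum_range' (n := f.natDegree + 1)
    (by rw [natDegree_map]; exact Nat.lt_succ_self _), map_sum]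
  push_cast
  refine Finset.sum_congr rfl fun k _ => ?_
  rw [map_smul, coeff_map, smul_eq_mul, trace_pow_eq h, eq_ratCast]

/-- The polynomial `f` with `φ⁻¹ = f(φ)`. -/
noncomputable def invPoly (P : ℚ[X]) : ℚ[X] := C (-(P.coeff 0)⁻¹) * P.divX

lemma inv_eq {Ω V : Type} [Field Ω] [CharZero Ω] [AddCommGroup V] [Module Ω V]
    [FiniteDimensional Ω V] {φ ψ : Module.End Ω V} (hψ : ψ * φ = 1) {P : ℚ[X]}
    (h : φ.charpoly = P.map (algebraMap ℚ Ω)) :
    ψ = aeval φ ((invPoly P).map (algebraMap ℚ Ω)) := by
  have h0 : P.coeff 0 ≠ 0 := by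
    intro h0
    have h1 : φ.charpoly.coeff 0 = 0 := by rw [h, coeff_map, h0, map_zero]
    have h2 : LinearMap.det φ = 0 := by
      rw [LinearMap.det_eq_sign_charpoly_coeff, h1, mul_zero]
    have h3 := congrArg LinearMap.det hψ
    rw [map_mul, h2, mul_zero, map_one] at h3
    exact zero_ne_one h3
  have h4 : aeval φ (P.map (algebraMap ℚ Ω)) = 0 := by rw [← h]; exact φ.aeval_self_charpoly
  have h5 : P.map (algebraMap ℚ Ω) = (P.divX.map (algebraMap ℚ Ω)) * X +
      C (algebraMap ℚ Ω (P.coeff 0)) := by
    conv_lhs => rw [← P.divX_mul_X_add]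
    rw [Polynomial.map_add, Polynomial.map_mul, map_X, map_C]
  have h6 : aeval φ ((invPoly P).map (algebraMap ℚ Ω)) * φ = 1 := by
    rw [h5, map_add, map_mul, aeval_X, aeval_C] at h4
    rw [invPoly, Polynomial.map_mul, map_C, map_mul, aeval_C, mul_assoc,
      eq_neg_of_add_eq_zero_left h4, map_neg, map_inv₀, map_neg, neg_mul_neg, ← map_mul,
      inv_mul_cancel₀, map_one]
    exact (map_ne_zero_iff _ (algebraMap ℚ Ω).injective).2 h0
  have h7 : φ * ψ = 1 := mul_eq_one_comm.1 hψ
  calc ψ = (aeval φ ((invPoly P).map (algebraMap ℚ Ω)) * φ) * ψ := by rw [h6, one_mul]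
    _ = _ := by rw [mul_assoc, h7, mul_one]

end newton

end Pool.Agent.Run7.h261.LI
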