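import Pool.Agent.Run7.h261.LI.Kernel
import Pool.Agent.Run7.h261.LI.Rat
import Pool.Agent.Run7.h261.LI.Factor

/-!
# Independence of `ℓ` for local factors: rationality of the trace on the kernel of `N`
-/

set_option autoImplicit false
set_option linter.unusedSectionVars false

namespace Pool.Agent.Run7.h261.LI

open Module Polynomial Pool.Agent.N184.HK Pool.Agent.Y143

section family

variable {Λ : Type} {Ω : Λ → Type} [∀ l, Field (Ω l)] [∀ l, CharZero (Ω l)]
  [∀ l, IsAlgClosed (Ω l)] {V : Λ → Type} [∀ l, AddCommGroup (V l)] [∀ l, Module (Ω l) (V l)]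
  [∀ l, FiniteDimensional (Ω l) (V l)]

/-- The characteristic polynomial is rational and independent of `l`. -/
theorem charpoly_rat (φ : ∀ l, Module.End (Ω l) (V l)) (hinj : ∀ l, Function.Injective (φ l))
    (htr : ∀ k : ℕ, 0 < k → ∃ r : ℚ, ∀ l, LinearMap.trace (Ω l) (V l) (φ l ^ k) = (r : Ω l)) :
    ∃ P : ℚ[X], ∀ l, (φ l).charpoly = P.map (algebraMap ℚ (Ω l)) := by
  obtain ⟨P, hP⟩ := factor_rat φ (fun _ => ⊤) (fun _ _ _ => Submodule.mem_top)
    (fun k hk => by
      obtain ⟨r, hr⟩ := htr k hk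
      exact ⟨r, fun l => by rw [trOn_top]; exact hr l⟩)
  refine ⟨P.reverse, fun l => ?_⟩
  obtain ⟨m, b, A, hA, hPA⟩ := hP l
  have h1 : Matrix.toLin b b A = (φ l).restrict (fun x _ => Submodule.mem_top) := mat_eq _ b hA
  have h2 : A.charpoly = (φ l).charpoly := by
    rw [← Matrix.charpoly_toLin A b, h1]
    let e : (⊤ : Submodule (Ω l) (V l)) ≃ₗ[Ω l] V l := Submodule.topEquiv
    have h3 : (φ l).restrict (p := ⊤) (q := ⊤) (fun x _ => Submodule.mem_top) =
        e.symm.conj (φ l) := by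
      refine LinearMap.ext fun x => Subtype.ext ?_
      rfl
    rw [h3, LinearEquiv.charpoly_conj]
  have h0 : A.charpoly.coeff 0 ≠ 0 := by
    rw [h2]
    intro h0
    have h3 : LinearMap.det (φ l) = 0 := by
      rw [LinearMap.det_eq_sign_charpoly_coeff, h0, mul_zero]
    have h4 : LinearMap.det (φ l) ≠ 0 := by
      have h5 : IsUnit (φ l) := by
        rw [Module.End.isUnit_iff]
        exact ⟨hinj l, (LinearMap.injective_iff_surjective.1 (hinj l))⟩
      exact (h5.map (LinearMap.det : Module.End (Ω l) (V l) →* Ω l)).ne_zero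
    exact h4 h3
  have h6 : P.map (algebraMap ℚ (Ω l)) = A.charpoly.reverse := by
    rw [hPA, Matrix.reverse_charpoly]
  have h7 : (P.reverse).map (algebraMap ℚ (Ω l)) = (P.map (algebraMap ℚ (Ω l))).reverse := by
    rw [reverse, reverse, natDegree_map, reflect_map]
  rw [h7, h6, ← h2]
  have h8 : A.charpoly.reverse.reverse = A.charpoly := by
    have h9 : A.charpoly.reverse.natDegree = A.charpoly.natDegree := by
      have := reverse_natDegree A.charpoly
      have h10 : A.charpoly.natTrailingDegree = 0 := by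
        rw [natTrailingDegree_eq_zero]
        exact Or.inr h0
      omega
    rw [reverse, h9, reverse, reflect_reflect]
  exact h8.symm

/-- The property of the minimal polynomials of the Weil numbers of weight at most `j`. -/
def Tle (q : ℕ) (j : ℤ) (f : ℚ[X]) : Prop :=
  ∃ w ≤ j, ∀ z : ℂ, aeval z f = 0 → ‖z‖ = (q : ℝ) ^ ((w : ℝ) / 2)

open Classical in
lemma ind_sum {Ω : Type} [Field Ω] [CharZero Ω] [IsAlgClosed Ω] (q : ℕ) (j : ℤ) {P : ℚ[X]}
    (hP : P.Monic) :
    ((P.map (algebraMap ℚ Ω)).roots.map fun e => ind q j e * e).sum = (rsum P (Tle q j) : Ω) := by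
  rw [← rsum_eq hP (Tle q j)]
  congr 1
  refine Multiset.map_congr rfl fun e he => ?_
  have halg : IsAlgebraic ℚ e := by
    refine ⟨P, hP.ne_zero, ?_⟩
    have := (mem_roots (map_ne_zero hP.ne_zero)).1 he
    rwa [IsRoot.def, eval_map_algebraMap] at this
  have h1 : (∃ w ≤ j, IsWeilNumber q w e) ↔ Tle q j (minpoly ℚ e) :=
    ⟨fun ⟨w, hw, h⟩ => ⟨w, hw, h.2⟩, fun ⟨w, hw, h⟩ => ⟨w, hw, halg, h⟩⟩
  unfold ind
  by_cases h : ∃ w ≤ j, IsWeilNumber q w e
  · rw [if_pos h, if_pos (h1.1 h), one_mul]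
  · rw [if_neg h, if_neg fun h' => h (h1.2 h'), zero_mul]

/-- The trace on the kernel of `N` is rational and independent of `l`. -/
theorem ker_rat {q : ℕ} (hq : 1 < q) (w : ℤ) (φ N : ∀ l, Module.End (Ω l) (V l))
    (hinj : ∀ l, Function.Injective (φ l))
    (hN : ∀ l x, N l (φ l x) = (q : Ω l) • φ l (N l x)) (hp : ∀ l, IsMWPure q w (φ l) (N l))
    (htr : ∀ k : ℕ, 0 < k → ∃ r : ℚ, ∀ l, LinearMap.trace (Ω l) (V l) (φ l ^ k) = (r : Ω l)) :
    ∃ r : ℚ, ∀ l, trOn (LinearMap.ker (N l)) (φ l) = (r : Ω l) := by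
  obtain ⟨P, hP⟩ := charpoly_rat φ hinj htr
  refine ⟨rsum P (Tle q w) - q * rsum P (Tle q (w - 2)), fun l => ?_⟩
  have hPm : P.Monic := by
    have h1 := LinearMap.charpoly_monic (φ l)
    rw [hP l] at h1
    exact monic_of_injective (algebraMap ℚ (Ω l)).injective h1
  rw [tr_ker hq (hN l) (hp l), hP l, ind_sum q w hPm, ind_sum q (w - 2) hPm]
  push_cast
  rfl

end family

end Pool.Agent.Run7.h261.LI
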