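import Pool.Agent.Run7.h261.LI.Exp
import Pool.Agent.Run7.h261.LI.Defs2
import Pool.Agent.Run7.h261.PW.Main

/-!
# Independence of `ℓ` for local factors: purity for the elements of the Weil group
-/

set_option autoImplicit false
set_option linter.unusedSectionVars false

namespace Pool.Agent.Run7.h261.LI

open Module Polynomial NumberField IsDedekindDomain
open Pool.Agent.W401.Cheb Pool.Agent.N184.HK Pool.Agent.Y143 Pool.Agent.Run7.h261.MT

section step

variable {Ω V : Type} [Field Ω] [AddCommGroup V] [Module Ω V]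

/-- Eigenvalues on a quotient. -/
lemma exists_step {Φ : Module.End Ω V} {A B : Submodule Ω V} (hA : ∀ x ∈ A, Φ x ∈ A)
    (s : Multiset Ω) : ∀ x ∈ A, x ∉ B → aeval Φ ((s.map fun β => X - C β).prod) x ∈ B →
    ∃ β ∈ s, ∃ y ∈ A, y ∉ B ∧ Φ y - β • y ∈ B := by
  induction s using Multiset.induction_on with
  | empty =>
    intro x _ hxB h
    rw [Multiset.map_zero, Multiset.prod_zero, map_one, Module.End.one_apply] at h
    exact absurd h hxB
  | cons β s ih =>
    intro x hxA hxB h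
    by_cases h1 : Φ x - β • x ∈ B
    · exact ⟨β, Multiset.mem_cons_self β s, x, hxA, hxB, h1⟩
    · rw [Multiset.map_cons, Multiset.prod_cons, mul_comm, map_mul, Module.End.mul_apply,
        map_sub, aeval_X, aeval_C, LinearMap.sub_apply] at h
      obtain ⟨γ, hγ, y, hy⟩ := ih (Φ x - β • x) (A.sub_mem (hA x hxA) (A.smul_mem β hxA)) h1 h
      exact ⟨γ, Multiset.mem_cons_of_mem hγ, y, hy⟩

end step

section pure

variable {Ω V : Type} [Field Ω] [CharZero Ω] [IsAlgClosed Ω] [AddCommGroup V] [Module Ω V]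
  [FiniteDimensional Ω V]

lemma nil_of_fil {N : Module.End Ω V} {M : ℤ → Submodule Ω V} (h : IsMonodromyFiltration N M) :
    IsNilpotent N := by
  obtain ⟨a, ha⟩ := h.bot
  obtain ⟨b, hb⟩ := h.top
  refine ⟨(b - a).toNat, LinearMap.ext fun x => ?_⟩
  have h1 : ∀ k : ℕ, (N ^ k) x ∈ M (b - 2 * k) := by
    intro k
    induction k with
    | zero => simp [hb]
    | succ k ih =>
      rw [pow_succ', Module.End.mul_apply]
      have := h.map _ _ ih
      rwa [show b - 2 * (k : ℤ) - 2 = b - 2 * ((k + 1 : ℕ) : ℤ) by push_cast; ring] at this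
  have h2 := h1 (b - a).toNat
  by_cases hab : a ≤ b
  · have h3 : M (b - 2 * ((b - a).toNat : ℤ)) ≤ M a := h.mono (by omega)
    have h4 := h3 h2
    rw [ha, Submodule.mem_bot] at h4
    exact h4
  · have h3 : x ∈ M a := h.mono (by omega : b ≤ a) (by rw [hb]; exact Submodule.mem_top)
    rw [ha, Submodule.mem_bot] at h3
    rw [h3, map_zero]
    rfl

lemma nil_of_pure {q : ℕ} {w : ℤ} {Φ N : Module.End Ω V} (h : IsMWPure q w Φ N) :
    IsNilpotent N := by
  obtain ⟨M, hM, -⟩ := h
  exact nil_of_fil hM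

/-- The exponential of a nilpotent operator acts trivially on the graded pieces. -/
lemma expo_gr {N : Module.End Ω V} {M : ℤ → Submodule Ω V} (h : IsMonodromyFiltration N M) (t : Ω)
    (a : ℤ) {x : V} (hx : x ∈ M a) : expo (t • N) x - x ∈ M (a - 1) := by
  have h1 : ∀ j : ℕ, (N ^ (j + 1)) x ∈ M (a - 1) := by
    intro j
    induction j with
    | zero => rw [pow_one]; exact h.mono (by omega) (h.map a x hx)
    | succ j ih =>
      rw [pow_succ', Module.End.mul_apply]
      exact h.mono (by omega) (h.map _ _ ih)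
  rw [expo, LinearMap.sum_apply, Finset.sum_range_succ']
  simp only [Nat.factorial_zero, Nat.cast_one, inv_one, pow_zero, one_smul, Module.End.one_apply,
    add_sub_cancel_right]
  refine Submodule.sum_mem _ fun j _ => ?_
  rw [LinearMap.smul_apply, _root_.smul_pow, LinearMap.smul_apply]
  exact Submodule.smul_mem _ _ (Submodule.smul_mem _ _ (h1 j))

lemma stab_pow' {Φ : Module.End Ω V} {M : Submodule Ω V} (hM : ∀ x ∈ M, Φ x ∈ M) (k : ℕ) :
    ∀ x ∈ M, (Φ ^ k) x ∈ M := stab_pow hM k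

lemma pow_gr {Ψ : Module.End Ω V} {B : Submodule Ω V} (hB : ∀ x ∈ B, Ψ x ∈ B) {α : Ω} {x : V}
    (h : Ψ x - α • x ∈ B) (n : ℕ) : (Ψ ^ n) x - α ^ n • x ∈ B := by
  induction n with
  | zero => simp
  | succ n ih =>
    have e : (Ψ ^ (n + 1)) x - α ^ (n + 1) • x =
        Ψ ((Ψ ^ n) x - α ^ n • x) + α ^ n • (Ψ x - α • x) := by
      rw [pow_succ' Ψ, Module.End.mul_apply, map_sub, map_smul, smul_sub, smul_smul,
        ← _root_.pow_succ]
      abel
    rw [e]
    exact B.add_mem (hB _ ih) (B.smul_mem _ h)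

/-- Purity for elements with a power in the subgroup generated by Frobenius and small elements of the
inertia group. -/
lemma pure_transfer {q : ℕ} {w : ℤ} {Φ Ψ N : Module.End Ω V} (h : IsMWPure q w Φ N)
    {c : Ω} (hc : c ≠ 0) (hN : ∀ x, N (Ψ x) = c • Ψ (N x)) {k m : ℕ} (hk : 0 < k) (hm : 0 < m)
    {t : Ω} (hΨ : Ψ ^ m = expo (t • N) * Φ ^ (k * m)) : IsMWPure (q ^ k) w Ψ N := by
  obtain ⟨M, hM, hst, hw⟩ := h
  have hst' : ∀ a x, x ∈ M a → Ψ x ∈ M a := fun a x hx =>
    PW.functorial' hM hM Ψ hc hN a hx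
  refine ⟨M, hM, hst', fun a α x hx hx' hα => ?_⟩
  have h1 := pow_gr (hst' (a - 1)) hα m
  rw [hΨ, Module.End.mul_apply] at h1
  have h2 : (Φ ^ (k * m)) x ∈ M a := stab_pow (hst a) (k * m) x hx
  have h3 : (Φ ^ (k * m)) x - α ^ m • x ∈ M (a - 1) := by
    have h4 := (M (a - 1)).sub_mem h1 (expo_gr hM t a h2)
    have e : expo (t • N) ((Φ ^ (k * m)) x) - α ^ m • x -
        (expo (t • N) ((Φ ^ (k * m)) x) - (Φ ^ (k * m)) x) = (Φ ^ (k * m)) x - α ^ m • x := by abel
    rwa [e] at h4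
  -- factor the polynomial
  set P : Polynomial Ω := X ^ (k * m) - C (α ^ m) with hP
  have hkm : 0 < k * m := Nat.mul_pos hk hm
  have hPm : P.Monic := monic_X_pow_sub_C _ hkm.ne'
  have h5 : P = (P.roots.map fun β => X - C β).prod :=
    (IsAlgClosed.splits P).eq_prod_roots_of_monic hPm
  have h6 : aeval Φ ((P.roots.map fun β => X - C β).prod) x ∈ M (a - 1) := by
    rw [← h5, hP, map_sub, map_pow, aeval_X, aeval_C, LinearMap.sub_apply]
    exact h3
  obtain ⟨β, hβ, y, hy, hy', hyβ⟩ := exists_step (hst a) P.roots x hx hx' h6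
  have h7 := (hw a β y hy hy' hyβ).pow (k * m)
  have h8 : β ^ (k * m) = α ^ m := by
    have h9 := (mem_roots hPm.ne_zero).1 hβ
    rw [IsRoot.def, hP, eval_sub, eval_pow, eval_X, eval_C, sub_eq_zero] at h9
    exact h9
  rw [h8] at h7
  refine PW.weil_base (IsWeilNumber.of_pow (k := m) hm ?_)
  rwa [show (m : ℤ) * (k * (a + w)) = ((k * m : ℕ) : ℤ) * (a + w) by push_cast; ring]

omit [IsAlgClosed Ω] in
/-- Purity in dimension one. -/
lemma pure_scal {q : ℕ} {w : ℤ} {a : Ω} (ha : a ≠ 0) (h : IsWeilNumber q w a) :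
    IsMWPure q w (en (scal a ha : Ω ≃ₗ[Ω] Ω)) (0 : Module.End Ω Ω) := by
  refine ⟨fun j => if 0 ≤ j then ⊤ else ⊥, ⟨?_, ⟨-1, by simp⟩, ⟨0, by simp⟩, ?_, ?_, ?_⟩, ?_, ?_⟩
  · intro a b hab
    dsimp only
    split_ifs with h1 h2
    · exact le_rfl
    · omega
    · exact bot_le
    · exact le_rfl
  · intro a x _
    exact Submodule.zero_mem _
  · intro b x _ hx
    rcases Nat.eq_zero_or_pos b with rfl | hb
    · rw [pow_zero, Module.End.one_apply] at hx
      simpa using hx
    · rw [if_pos (by omega)]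
      exact Submodule.mem_top
  · intro b y hy
    rcases Nat.eq_zero_or_pos b with rfl | hb
    · refine ⟨y, by simp, ?_⟩
      rw [pow_zero, Module.End.one_apply, sub_self]
      exact Submodule.zero_mem _
    · rw [if_neg (by omega), Submodule.mem_bot] at hy
      refine ⟨0, Submodule.zero_mem _, ?_⟩
      rw [hy, map_zero, sub_zero]
      exact Submodule.zero_mem _
  · intro b x hx
    dsimp only at hx ⊢
    split_ifs with h1
    · exact Submodule.mem_top
    · rw [if_neg h1, Submodule.mem_bot] at hx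
      rw [hx, map_zero]
      exact Submodule.zero_mem _
  · intro b α x hx hx' hα
    dsimp only at hx hx' hα
    have hb0 : b = 0 := by
      by_contra hne
      by_cases hb : 0 ≤ b
      · rw [if_pos (by omega)] at hx'
        exact hx' Submodule.mem_top
      · rw [if_neg hb, Submodule.mem_bot] at hx
        rw [hx] at hx'
        exact hx' (Submodule.zero_mem _)
    subst hb0
    rw [if_neg (by omega), Submodule.mem_bot] at hx' hα
    have h1 : a * x = α * x := sub_eq_zero.1 hα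
    rw [← mul_right_cancel₀ hx' h1, zero_add]
    exact h

end pure

section ev

variable {K : Type} [Field K] [NumberField K] {Ω : Type} [Field Ω] [CharZero Ω] [IsAlgClosed Ω]
  [TopologicalSpace Ω] [IsTopologicalRing Ω] [T2Space Ω] {X : HKVariety K Ω}
  {u : HeightOneSpectrum (𝓞 K)} (L : LocalMonodromy X u) (c : Twist X)

/-- The monodromy operator on the tensor constructions. -/
noncomputable def NE : (e : Expr) → Module.End Ω (ev c e).V
  | .H i => L.data.N i
  | .tate _ => 0
  | .hom a b => ppc (NE a) (NE b)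

variable {L c} {Q : Ideal (𝓞 (AlgebraicClosure K))}

lemma q_ne : (Ideal.absNorm u.asIdeal : Ω) ≠ 0 := by
  have : 1 < Ideal.absNorm u.asIdeal := one_lt_q
  exact_mod_cast (by omega : Ideal.absNorm u.asIdeal ≠ 0)

lemma weil_inertia {τ : GK K} (h : InInertia Q τ) : IsWeil u Q 0 τ := by
  intro x
  have h1 := (IQ Q).inv_mem (mem_IQ.2 h) x
  rw [pow_zero, pow_one]
  exact h1

lemma chi_inertia (hcyc : IsCyclotomic c u Q) {τ : GK K} (h : InInertia Q τ) : (c.χ τ : Ω) = 1 := by
  rw [hcyc 0 τ (weil_inertia h), pow_zero]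

lemma en_scal_one {a : Ω} (ha : a ≠ 0) (h : a = 1) : en (scal a ha : Ω ≃ₗ[Ω] Ω) = 1 := by
  refine LinearMap.ext fun x => ?_
  change a * x = x
  rw [h, one_mul]

/-- The relation between the monodromy operator and the elements of the Weil group. -/
lemma NE_twist (htw : IsTwisted L Q) {k : ℕ} {g : GK K} (hg : IsWeil u Q k g) :
    ∀ e : Expr, e.le X.d → ∀ x, NE L c e (act c e g x) =
      ((Ideal.absNorm u.asIdeal ^ k : ℕ) : Ω) • act c e g (NE L c e x)
  | .H i, he, x => htw k g hg i he x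
  | .tate m, _, x => by
    change (0 : Ω) = ((Ideal.absNorm u.asIdeal ^ k : ℕ) : Ω) * (c.pow m g * 0)
    rw [mul_zero, mul_zero]
  | .hom a b, he, f => by
    have hq : ((Ideal.absNorm u.asIdeal ^ k : ℕ) : Ω) ≠ 0 := by
      push_cast
      exact pow_ne_zero _ q_ne
    exact PW.arr_rel hq (NE_twist htw hg a he.1) (NE_twist htw hg b he.2) f

/-- Purity for the elements of positive degree of the Weil group. -/
lemma NE_pure (hQ : Q.IsPrime) (hL : IsLog L Q) (htw : IsTwisted L Q)
    (hcyc : IsCyclotomic c u Q) {k : ℕ} (hk : 0 < k) {g : GK K} (hg : IsWeil u Q k g) :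
    ∀ e : Expr, e.le X.d → IsMWPure (Ideal.absNorm u.asIdeal ^ k) e.wt (act c e g) (NE L c e)
  | .H i, he => by
    obtain ⟨U, t, hU, hlog, -⟩ := hL.log
    obtain ⟨m, hm, τ, hτU, hτ, hgm⟩ := exists_pow hL hQ hU hg
    have hq : ((Ideal.absNorm u.asIdeal ^ k : ℕ) : Ω) ≠ 0 := by
      push_cast
      exact pow_ne_zero _ q_ne
    have h1 : X.E.Φ τ i = expo (t τ • L.data.N i) := hlog i he τ hτU hτ
    refine pure_transfer (Φ := X.E.Φ L.σ i) (pure_all L he) hq (htw k g hg i he) hk hm (t := t τ) ?_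
    rw [← h1, ← Phi_pow, ← Phi_pow, hgm, Phi_mul']
  | .tate m, _ => by
    have hq : 0 < Ideal.absNorm u.asIdeal := zero_lt_one.trans one_lt_q
    have h1 := (IsWeilNumber.one (Ω := Ω) (Ideal.absNorm u.asIdeal ^ k)).twist
      (pow_pos hq k).ne' m
    rw [mul_one, zero_add] at h1
    refine pure_scal (c.pow_ne m g) ?_
    rw [Twist.pow, hcyc k g hg]
    push_cast at h1
    exact h1
  | .hom a b, he => by
    exact PW.pure_hom (Nat.one_lt_pow hk.ne' one_lt_q) (NE_pure hQ hL htw hcyc hk hg a he.1)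
      (NE_pure hQ hL htw hcyc hk hg b he.2) (NE_twist htw hg a he.1) (NE_twist htw hg b he.2)

lemma NE_nil (hQ : Q.IsPrime) (hL : IsLog L Q) (htw : IsTwisted L Q)
    (hcyc : IsCyclotomic c u Q) (e : Expr) (he : e.le X.d) : IsNilpotent (NE L c e) :=
  nil_of_pure (NE_pure hQ hL htw hcyc one_pos hL.frob e he)

lemma NE_exp (hQ : Q.IsPrime) (hL : IsLog L Q) (htw : IsTwisted L Q)
    (hcyc : IsCyclotomic c u Q) {U : Subgroup (GK K)} {t : GK K → Ω} (hlog : LogOn L Q U t)
    {τ : GK K} (hτU : τ ∈ U) (hτ : InInertia Q τ) :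
    ∀ e : Expr, e.le X.d → act c e τ = expo (t τ • NE L c e)
  | .H i, he => hlog i he τ hτU hτ
  | .tate m, _ => by
    have h1 : NE L c (.tate m) = 0 := rfl
    rw [h1, smul_zero, expo_zero]
    refine en_scal_one _ ?_
    rw [Twist.pow, chi_inertia hcyc hτ, one_zpow]
  | .hom a b, he => by
    have h1 : t τ • NE L c (.hom a b) = ppc (t τ • NE L c a) (t τ • NE L c b) :=
      (PW.ppc_smul _ _ _).symm
    rw [h1]
    have hn : ∀ e : Expr, e.le X.d → IsNilpotent (t τ • NE L c e) := by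
      intro e he
      obtain ⟨n, hn⟩ := NE_nil hQ hL htw hcyc e he
      exact ⟨n, by rw [_root_.smul_pow, hn, smul_zero]⟩
    exact expo_hom (hn a he.1) (hn b he.2) (NE_exp hQ hL htw hcyc hlog hτU hτ a he.1)
      (NE_exp hQ hL htw hcyc hlog hτU hτ b he.2)

end ev

end Pool.Agent.Run7.h261.LI
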