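import Pool.Agent.Run7.h261.LI.Transfer
import Pool.Agent.Run7.h261.LI.Pure
import Pool.Agent.Run7.h261.LI.KerRat

/-!
# Independence of `ℓ` for local factors: tensor constructions of even weight
-/

set_option autoImplicit false
set_option linter.unusedSectionVars false

namespace Pool.Agent.Run7.h261.LI

open Module Polynomial NumberField IsDedekindDomain
open Pool.Agent.W401.Cheb Pool.Agent.N184.HK Pool.Agent.Y143 Pool.Agent.Run7.h261.MT

section act

variable {K : Type} [Field K] [NumberField K] {Ω : Type} [Field Ω] [CharZero Ω] [IsAlgClosed Ω]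
  [TopologicalSpace Ω] [IsTopologicalRing Ω] [T2Space Ω] {X : HKVariety K Ω} (c : Twist X)
  {e : Expr} (he : e.le X.d)

include he

lemma act_mul (g h : GK K) (x : (ev c e).V) : act c e (g * h) x = act c e g (act c e h x) := by
  change (ev c e).φ (g * h) x = (ev c e).φ g ((ev c e).φ h x)
  rw [(good_ev c e he).mul]
  rfl

lemma act_mul' (g h : GK K) : act c e (g * h) = act c e g * act c e h :=
  LinearMap.ext fun x => act_mul c he g h x

omit he in
lemma act_inj (g : GK K) : Function.Injective (act c e g) := ((ev c e).φ g).injective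

lemma act_one : act c e 1 = 1 := by
  refine LinearMap.ext fun x => act_inj c 1 ?_
  rw [← act_mul c he, mul_one]
  rfl

lemma act_pow (g : GK K) (m : ℕ) : act c e (g ^ m) = act c e g ^ m := by
  induction m with
  | zero => rw [pow_zero, pow_zero, act_one c he]
  | succ m ih => rw [pow_succ, pow_succ, act_mul' c he, ih]

lemma fixedEv_stable {Q : Ideal (𝓞 (AlgebraicClosure K))} [hQ : Q.IsPrime] {N : ℕ} (hN : 0 < N)
    {g : GK K} (hg : GeomFrob Q N g) :
    ∀ x ∈ fixedEv c Q e, act c e g x ∈ fixedEv c Q e := by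
  intro x hx τ hτ
  rw [← act_mul c he]
  have h1 : τ * g = g * (g⁻¹ * τ * g) := by group
  rw [h1, act_mul c he, hx _ (inertia_conj hN hg hτ)]

end act

section main

variable {K : Type} [Field K] [NumberField K] {u : HeightOneSpectrum (𝓞 K)}
  {Q : Ideal (𝓞 (AlgebraicClosure K))} (S : HKTwo K u Q)

lemma HKTwo.two_pair {k : ℕ} (hk : 0 < k) {g : GK K} (hg : IsWeil u Q k g) (l l' : S.Λ) (j : ℕ) :
    ∃ r : ℚ, twoTrace (S.R l).X j g = (r : (S.R l).Ω) ∧
      twoTrace (S.R l').X j g = (r : (S.R l').Ω) := by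
  rcases Nat.eq_zero_or_pos j with rfl | hj
  · obtain ⟨v, hv, -, σ, -, hσ⟩ := t_frob K ((S.R l).X.bad ∪ (S.R l').X.bad)
      ((S.R l).X.finite.union (S.R l').X.finite) Set.univ isOpen_univ ⟨1, Set.mem_univ _⟩
    have hv1 : v ∉ (S.R l).X.bad := fun h => hv (Or.inl h)
    have hv2 : v ∉ (S.R l').X.bad := fun h => hv (Or.inr h)
    obtain ⟨r, h1, h2⟩ := two_frob hv1 hv2 (S.poly l l' v hv1 hv2) hσ 0
    refine ⟨r, ?_, ?_⟩
    · rw [← h1, twoTrace_eq, twoTrace_eq, pow_zero, pow_zero]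
    · rw [← h2, twoTrace_eq, twoTrace_eq, pow_zero, pow_zero]
  · have h2 := geom_pow hg j
    rw [← _root_.pow_mul] at h2
    obtain ⟨r, hr⟩ := S.two (k * j) (Nat.mul_pos hk hj) _ h2
    have h3 : ∀ l, twoTrace (S.R l).X j g = (r : (S.R l).Ω) := by
      intro l
      rw [twoTrace_eq, ← Phi_pow]
      exact hr l
    exact ⟨r, h3 l, h3 l'⟩

/-- The traces of the elements of the Weil group. -/
theorem HKTwo.trace {e : Expr} (he : e.le S.d) (hV : S.Weyl e) {k : ℕ} (hk : 0 < k) {g : GK K}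
    (hg : IsWeil u Q k g) : ∃ r : ℚ, ∀ l, evTrace (S.c l) e g = (r : (S.R l).Ω) := by
  refine glue (fun l => evTrace (S.c l) e g) fun l l' => ?_
  refine transfer_pair (S.c l) (S.c l') (S.rigid l) (by rw [S.deg, S.deg]) (S.poly l l')
    (by rw [S.deg]; exact he) (hV l) ⟨(Ideal.absNorm u.asIdeal : ℚ) ^ k, ?_, ?_⟩
    (S.two_pair hk hg l l')
  · rw [S.cyc l k g hg]
    push_cast
    rfl
  · rw [S.cyc l' k g hg]
    push_cast
    rfl

/-- The traces on the part which is fixed by the inertia group. -/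
theorem HKBase.inv_trace (S : HKBase K u Q) {e : Expr} (he : e.le S.d)
    (htr : ∀ k, 0 < k → ∀ g, IsWeil u Q k g →
      ∃ r : ℚ, ∀ l, evTrace (S.c l) e g = (r : (S.R l).Ω)) {g : GK K}
    (hg : IsWeil u Q 1 g) {k : ℕ} (hk : 0 < k) :
    ∃ r : ℚ, ∀ l, trOn (fixedEv (S.c l) Q e) (act (S.c l) e g ^ k) = (r : (S.R l).Ω) := by
  have hQ : Q.IsPrime := S.above.1.isPrime
  have hq : 0 < Ideal.absNorm u.asIdeal := zero_lt_one.trans one_lt_q
  have he' : ∀ l, e.le (S.R l).X.d := fun l => by rw [S.deg l]; exact he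
  choose U t hU hlog ht using fun l => (S.R l).isLog.log
  have hg' : GeomFrob Q (Ideal.absNorm u.asIdeal) g := by
    have := hg
    rwa [IsWeil, pow_one] at this
  have hgk : IsWeil u Q k (g ^ k) := geom_pow hg' k
  let N : ∀ l, Module.End (S.R l).Ω (ev (S.c l) e).V := fun l => NE (S.R l).L (S.c l) e
  have hnil : ∀ l, IsNilpotent (N l) := fun l =>
    NE_nil hQ (S.R l).isLog (S.twist l) (S.cyc l) e (he' l)
  have hexp : ∀ l, ∀ τ, InInertia Q τ → τ ∈ U l → act (S.c l) e τ = expo (t l τ • N l) :=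
    fun l τ hτ hτU => NE_exp hQ (S.R l).isLog (S.twist l) (S.cyc l) (hlog l) hτU hτ e (he' l)
  have hstab : ∀ l j h, IsWeil u Q j h → ∀ x ∈ LinearMap.ker (N l),
      act (S.c l) e h x ∈ LinearMap.ker (N l) := by
    intro l j h hh x hx
    rw [LinearMap.mem_ker] at hx ⊢
    have h1 := NE_twist (c := S.c l) (S.twist l) hh e (he' l) x
    change N l (act (S.c l) e h x) = _ • act (S.c l) e h (N l x) at h1
    rw [h1, hx, map_zero, smul_zero]
  obtain ⟨r, hr⟩ := avg_family (Ω := fun l => (S.R l).Ω) (fun l g => act (S.c l) e g)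
    (fun l g h x => act_mul (S.c l) (he' l) g h x)
    (IQ Q) U (fun l l' => by
      have : Finite (GK K ⧸ (U l ⊓ U l')) :=
        Subgroup.quotient_finite_of_isOpen _ ((hU l).inter (hU l'))
      have hfi : (U l ⊓ U l').FiniteIndex := Subgroup.finiteIndex_of_finite_quotient
      infer_instance) (fun l => LinearMap.ker (N l))
    (fun l => fixedEv (S.c l) Q e)
    (fun l τ hτ x hx => hstab l 0 τ (weil_inertia hτ) x hx)
    (fun l τ hτ hτU x hx => by
      rw [LinearMap.mem_ker] at hx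
      rw [hexp l τ hτ hτU]
      refine expo_of_zero _ ?_
      rw [LinearMap.smul_apply, hx, smul_zero])
    (fun l x => ⟨fun hx => ⟨by
      obtain ⟨τ, hτU, hτ, hτ0⟩ := ht l (U l) (hU l)
      refine ker_of_expo (hnil l) hτ0 ?_
      rw [← hexp l τ hτ hτU]
      exact hx τ hτ, hx⟩, fun hx => hx.2⟩) (g ^ k)
    (fun l => hstab l k (g ^ k) hgk) (fun l => fixedEv_stable (S.c l) (he' l) (pow_pos hq k) hgk)
    (fun τ hτ => by
      have h1 : IsWeil u Q k (g ^ k * τ) := geom_mul hgk hτ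
      refine ker_rat (Ω := fun l => (S.R l).Ω) (Nat.one_lt_pow hk.ne' one_lt_q) e.wt
        (fun l => act (S.c l) e (g ^ k * τ)) N
        (fun l => act_inj (S.c l) _) (fun l x => NE_twist (S.twist l) h1 e (he' l) x)
        (fun l => NE_pure hQ (S.R l).isLog (S.twist l) (S.cyc l) hk h1 e (he' l))
        (fun n hn => ?_)
      have h2 := geom_pow h1 n
      rw [← _root_.pow_mul] at h2
      obtain ⟨r, hr⟩ := htr _ (Nat.mul_pos hk hn) _ h2
      exact ⟨r, fun l => by
        rw [← act_pow (S.c l) (he' l)]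
        have := hr l
        rwa [evTrace_eq] at this⟩)
  exact ⟨r, fun l => by rw [← act_pow (S.c l) (he' l)]; exact hr l⟩

/-- The local factor of a tensor construction. -/
theorem HKBase.factor_of_trace (S : HKBase K u Q) {e : Expr} (he : e.le S.d)
    (htr : ∀ k, 0 < k → ∀ g, IsWeil u Q k g →
      ∃ r : ℚ, ∀ l, evTrace (S.c l) e g = (r : (S.R l).Ω)) {g : GK K}
    (hg : IsWeil u Q 1 g) :
    S.FactorIndep e g := by
  have hQ : Q.IsPrime := S.above.1.isPrime
  have hq : 0 < Ideal.absNorm u.asIdeal := zero_lt_one.trans one_lt_q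
  have hg' : GeomFrob Q (Ideal.absNorm u.asIdeal) g := by
    have := hg
    rwa [IsWeil, pow_one] at this
  exact factor_rat (Ω := fun l => (S.R l).Ω) (fun l => act (S.c l) e g)
    (fun l => fixedEv (S.c l) Q e)
    (fun l => fixedEv_stable (S.c l) (by rw [S.deg l]; exact he) hq hg')
    (fun k hk => S.inv_trace he htr hg hk)

/-- The local factor of `H^i(X)`. -/
theorem HKBase.local_of_trace (S : HKBase K u Q) {i : ℕ} (hi : i ≤ S.d)
    (htr : ∀ k, 0 < k → ∀ g, IsWeil u Q k g →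
      ∃ r : ℚ, ∀ l, trH (S.R l).X g i = (r : (S.R l).Ω)) {g : GK K}
    (hg : IsWeil u Q 1 g) :
    ∃ P : ℤ[X], ∀ l, (S.R l).LocalFactorIs i g P := by
  have hQ : Q.IsPrime := S.above.1.isPrime
  have hq : 0 < Ideal.absNorm u.asIdeal := zero_lt_one.trans one_lt_q
  have hg' : GeomFrob Q (Ideal.absNorm u.asIdeal) g := by
    have := hg
    rwa [IsWeil, pow_one] at this
  exact factor_int (Ω := fun l => (S.R l).Ω) (fun l => (S.R l).X.E.Φ g i)
    (fun l => fixedPart (S.R l).X Q i)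
    (fun l => fixed_stable (S.R l).X hq hg' i)
    (fun k hk => S.inv_trace (e := .H i) hi htr hg hk)
    (fun l e he => S.integral 1 one_pos g hg l i (by rw [S.deg l]; exact hi) e he)

/-- **Tensor constructions of even weight.** -/
theorem HKTwo.factor {e : Expr} (he : e.le S.d) (hV : S.Weyl e) {g : GK K}
    (hg : IsWeil u Q 1 g) :
    S.FactorIndep e g :=
  S.factor_of_trace he (fun _ hk _ hg => S.trace he hV hk hg) hg

/-- **The cohomology groups of even degree.** -/
theorem HKTwo.even {i : ℕ} (hi : i ≤ S.d) (hV : S.Weyl (.H i)) {g : GK K}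
    (hg : IsWeil u Q 1 g) :
    ∃ P : ℤ[X], ∀ l, (S.R l).LocalFactorIs i g P :=
  S.local_of_trace hi (fun _ hk _ hg => S.trace (e := .H i) hi hV hk hg) hg

end main

section four

variable {K : Type} [Field K] [NumberField K] {u : HeightOneSpectrum (𝓞 K)}
  {Q : Ideal (𝓞 (AlgebraicClosure K))} (S : HKFour K u Q)

lemma HKBase.trace_zero (S : HKBase K u Q) {i : ℕ} (h : S.Vanish i) (g : GK K) (l : S.Λ) :
    trH (S.R l).X g i = 0 := by
  have h1 : (S.R l).X.E.Φ g i = 0 := LinearMap.ext fun x => by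
    rw [h l x, map_zero, LinearMap.zero_apply]
  rw [trH, tr, h1, map_zero]

lemma HKFour.trace_five (l : S.Λ) {k : ℕ} {g : GK K} (hg : IsWeil u Q k g) :
    trH (S.R l).X g 5 = (Ideal.absNorm u.asIdeal : (S.R l).Ω) ^ k * trH (S.R l).X g 3 := by
  obtain ⟨L, hL⟩ := S.lef l
  have h1 : (S.c l).pow 1 g = ((S.c l).χ g : (S.R l).Ω) := by rw [Twist.pow, zpow_one]
  rw [← S.cyc l k g hg, ← h1, ← smul_eq_mul, trH, trH, tr, tr, ← map_smul]
  refine trace_of_equiv L _ _ fun z => ?_
  rw [LinearMap.smul_apply, map_smul]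
  exact (hL g z).symm

lemma HKFour.trace_three {k : ℕ} (hk : 0 < k) {g : GK K} (hg : IsWeil u Q k g) :
    ∃ r : ℚ, ∀ l, trH (S.R l).X g 3 = (r : (S.R l).Ω) := by
  have hev : ∀ i, i ≤ 8 → Even i → ∃ r : ℚ, ∀ l, trH (S.R l).X g i = (r : (S.R l).Ω) := by
    intro i hi hi'
    have hi'' : i ≤ S.d := by rw [S.dim]; exact hi
    exact S.toHKTwo.trace (e := .H i) hi'' (S.weyl i hi'' hi') hk hg
  obtain ⟨r0, h0⟩ := hev 0 (by omega) (by decide)
  obtain ⟨r2, h2⟩ := hev 2 (by omega) (by decide)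
  obtain ⟨r4, h4⟩ := hev 4 (by omega) (by decide)
  obtain ⟨r6, h6⟩ := hev 6 (by omega) (by decide)
  obtain ⟨r8, h8⟩ := hev 8 (by omega) (by decide)
  obtain ⟨r, hr⟩ := S.trace k hk g hg
  refine ⟨(r0 + r2 + r4 + r6 + r8 - r) / (1 + (Ideal.absNorm u.asIdeal : ℚ) ^ k), fun l => ?_⟩
  have h9 : altTrace (S.R l).X g = (r : (S.R l).Ω) := hr l
  have hne : (1 + (Ideal.absNorm u.asIdeal : (S.R l).Ω) ^ k) ≠ 0 := by
    have h10 : (1 + Ideal.absNorm u.asIdeal ^ k : ℕ) ≠ 0 := by omega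
    exact_mod_cast h10
  rw [altTrace, S.deg l, S.dim] at h9
  simp only [Finset.sum_range_succ, Finset.sum_range_zero, h0 l, h2 l, h4 l, h6 l, h8 l,
    S.trace_zero S.one g l, S.trace_zero S.seven g l, S.trace_five l hg] at h9
  push_cast
  rw [eq_div_iff hne]
  linear_combination -h9

/-- **Hyperkähler varieties of dimension four.** -/
theorem HKFour.all {i : ℕ} (hi : i ≤ 8) {g : GK K} (hg : IsWeil u Q 1 g) :
    ∃ P : ℤ[X], ∀ l, (S.R l).LocalFactorIs i g P := by
  have hi' : i ≤ S.d := by rw [S.dim]; exact hi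
  by_cases hev : Even i
  · exact S.toHKTwo.even hi' (S.weyl i hi' hev) hg
  · have hodd : i = 1 ∨ i = 3 ∨ i = 5 ∨ i = 7 := by
      rw [Nat.not_even_iff_odd] at hev
      obtain ⟨m, hm⟩ := hev
      omega
    refine S.local_of_trace hi' (fun k hk g hg => ?_) hg
    rcases hodd with rfl | rfl | rfl | rfl
    · exact ⟨0, fun l => by rw [S.trace_zero S.one g l, Rat.cast_zero]⟩
    · exact S.trace_three hk hg
    · obtain ⟨r, hr⟩ := S.trace_three hk hg
      refine ⟨(Ideal.absNorm u.asIdeal : ℚ) ^ k * r, fun l => ?_⟩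
      rw [S.trace_five l hg, hr l]
      push_cast
      rfl
    · exact ⟨0, fun l => by rw [S.trace_zero S.seven g l, Rat.cast_zero]⟩

/-- The traces on the tensor constructions. -/
lemma HKBase.tr_ev (S : HKBase K u Q) {k : ℕ} {g : GK K} (hg : IsWeil u Q k g)
    (htr : ∀ i ≤ S.d, ∀ m, 0 < m → ∃ r : ℚ, ∀ l,
      LinearMap.trace (S.R l).Ω _ ((S.R l).X.E.Φ g i ^ m) = (r : (S.R l).Ω)) :
    ∀ e : Expr, e.le S.d → ∃ r r' : ℚ, ∀ l, TrIs (S.c l) e g r r'
  | .H i, he => by
    obtain ⟨P, hP⟩ := charpoly_rat (Ω := fun l => (S.R l).Ω) (fun l => (S.R l).X.E.Φ g i)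
      (fun l => Phi_inj (S.R l).X g i) (htr i he)
    exact ⟨_, _, fun l => tr_of_cp (S.c l) (hP l)⟩
  | .tate m, _ => by
    refine ⟨((Ideal.absNorm u.asIdeal : ℚ) ^ k) ^ m, (((Ideal.absNorm u.asIdeal : ℚ) ^ k) ^ m)⁻¹,
      fun l => ⟨?_, ?_⟩⟩
    · have h1 := trace_scal ((S.c l).pow_ne m g)
      push_cast
      rw [← S.cyc l k g hg, evTrace_eq]
      exact h1
    · have h1 := trace_scal_symm ((S.c l).pow_ne m g)
      push_cast
      rw [← S.cyc l k g hg]
      exact h1
  | .hom a b, he => by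
    obtain ⟨ra, ra', ha⟩ := HKBase.tr_ev S hg htr a he.1
    obtain ⟨rb, rb', hb⟩ := HKBase.tr_ev S hg htr b he.2
    refine ⟨ra' * rb, ra * rb', fun l => ⟨?_, ?_⟩⟩
    · rw [Rat.cast_mul, ← (ha l).2, ← (hb l).1, evTrace_eq, evTrace_eq]
      exact trace_arr _ _
    · rw [Rat.cast_mul, ← (ha l).1, ← (hb l).2, evTrace_eq]
      exact trace_arr ((ev (S.c l) a).φ g).symm ((ev (S.c l) b).φ g).symm

/-- If the traces on the `H^i(X)` are rational and independent of `ℓ` then this is true for the local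
factors of all tensor constructions. -/
theorem HKBase.all_of_trace (S : HKBase K u Q)
    (htr : ∀ i ≤ S.d, ∀ k, 0 < k → ∀ g, IsWeil u Q k g →
      ∃ r : ℚ, ∀ l, trH (S.R l).X g i = (r : (S.R l).Ω)) {e : Expr} (he : e.le S.d) {g : GK K}
    (hg : IsWeil u Q 1 g) : S.FactorIndep e g := by
  refine S.factor_of_trace he (fun k hk g hg => ?_) hg
  obtain ⟨r, r', hr⟩ := S.tr_ev hg (fun i hi m hm => by
    have h2 := geom_pow hg m
    rw [← _root_.pow_mul] at h2
    obtain ⟨r, hr⟩ := htr i hi (k * m) (Nat.mul_pos hk hm) _ h2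
    exact ⟨r, fun l => by rw [← Phi_pow]; exact hr l⟩) e he
  exact ⟨r, fun l => (hr l).1⟩

lemma HKFour.traces {i : ℕ} (hi : i ≤ S.d) {k : ℕ} (hk : 0 < k) {g : GK K}
    (hg : IsWeil u Q k g) : ∃ r : ℚ, ∀ l, trH (S.R l).X g i = (r : (S.R l).Ω) := by
  by_cases hev : Even i
  · exact S.toHKTwo.trace (e := .H i) hi (S.weyl i hi hev) hk hg
  · have hi' : i ≤ 8 := by rw [← S.dim]; exact hi
    have hodd : i = 1 ∨ i = 3 ∨ i = 5 ∨ i = 7 := by
      rw [Nat.not_even_iff_odd] at hev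
      obtain ⟨m, hm⟩ := hev
      omega
    rcases hodd with rfl | rfl | rfl | rfl
    · exact ⟨0, fun l => by rw [S.trace_zero S.one g l, Rat.cast_zero]⟩
    · exact S.trace_three hk hg
    · obtain ⟨r, hr⟩ := S.trace_three hk hg
      refine ⟨(Ideal.absNorm u.asIdeal : ℚ) ^ k * r, fun l => ?_⟩
      rw [S.trace_five l hg, hr l]
      push_cast
      rfl
    · exact ⟨0, fun l => by rw [S.trace_zero S.seven g l, Rat.cast_zero]⟩

/-- **Hyperkähler varieties of dimension four: tensor constructions.** -/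
theorem HKFour.all_ev {e : Expr} (he : e.le S.d) {g : GK K} (hg : IsWeil u Q 1 g) :
    S.FactorIndep e g :=
  S.all_of_trace (fun _ hi _ hk _ hg => S.traces hi hk hg) he hg

/-- **Places where `H²(X)` is potentially unramified: tensor constructions.** -/
theorem HKBase.unram_ev (S : HKBase K u Q) (ha : AltTraceIndep S.R)
    (h0 : ∀ l, (S.R l).PotUnramified) {e : Expr} (he : e.le S.d) {g : GK K}
    (hg : IsWeil u Q 1 g) : S.FactorIndep e g := by
  let S' : HKSystem K u Q := ⟨S.above, S.Λ, S.R, S.d, S.deg, ha, S.integral⟩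
  exact S.all_of_trace (fun i hi k hk g hg => trace_unram S' h0 hi hk hg) he hg

end four

end Pool.Agent.Run7.h261.LI
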