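import Pool.Agent.Run7.h261.LI.Unram
import Pool.Agent.Run7.h261.MT.Good
import Mathlib.RingTheory.Nilpotent.Exp

/-!
# Independence of `ℓ` for local factors: exponentials of nilpotent operators
-/

set_option autoImplicit false
set_option linter.unusedSectionVars false

namespace Pool.Agent.Run7.h261.LI

open Module Pool.Agent.N184.HK Pool.Agent.Y143 Pool.Agent.Run7.h261.MT

section one

variable {Ω : Type} [Field Ω] [CharZero Ω]

/-- the action of the rational numbers -/
noncomputable abbrev ratMod (Ω : Type) [Field Ω] [CharZero Ω] (A : Type) [AddCommGroup A]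
    [Module Ω A] : Module ℚ A :=
  Module.compHom A (algebraMap ℚ Ω)

/-- the exponential function for nilpotent operators -/
noncomputable def nexp {V : Type} [AddCommGroup V] [Module Ω V] (T : Module.End Ω V) :
    Module.End Ω V :=
  letI : Module ℚ (Module.End Ω V) := ratMod Ω (Module.End Ω V)
  IsNilpotent.exp T

variable {V : Type} [AddCommGroup V] [Module Ω V]

lemma nexp_eq {T : Module.End Ω V} {m : ℕ} (h : T ^ m = 0) :
    nexp T = ∑ j ∈ Finset.range m, ((j.factorial : Ω)⁻¹) • T ^ j := by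
  let _ : Module ℚ (Module.End Ω V) := ratMod Ω (Module.End Ω V)
  rw [nexp, IsNilpotent.exp_eq_sum h]
  refine Finset.sum_congr rfl fun j _ => ?_
  change (algebraMap ℚ Ω ((j.factorial : ℚ)⁻¹)) • T ^ j = _
  rw [map_inv₀, map_natCast]

lemma nexp_add {S T : Module.End Ω V} (h : Commute S T) (hS : IsNilpotent S)
    (hT : IsNilpotent T) : nexp (S + T) = nexp S * nexp T := by
  let _ : Module ℚ (Module.End Ω V) := ratMod Ω (Module.End Ω V)
  exact IsNilpotent.exp_add_of_commute h hS hT

lemma nexp_zero : nexp (0 : Module.End Ω V) = 1 := by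
  rw [nexp_eq (m := 1) (by simp)]
  simp

lemma nexp_neg {T : Module.End Ω V} (hT : IsNilpotent T) : nexp (-T) * nexp T = 1 := by
  rw [← nexp_add (Commute.neg_left (Commute.refl T)) hT.neg hT, neg_add_cancel, nexp_zero]

lemma nexp_map {W : Type} [AddCommGroup W] [Module Ω W] {T : Module.End Ω V}
    {S : Module.End Ω W} {m : ℕ} (hT : T ^ m = 0) (hS : S ^ m = 0)
    {x : V} {G : V →ₗ[Ω] W}
    (h : ∀ j, G ((T ^ j) x) = (S ^ j) (G x)) : G (nexp T x) = nexp S (G x) := by
  rw [nexp_eq hT, nexp_eq hS, LinearMap.sum_apply, LinearMap.sum_apply, map_sum]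
  refine Finset.sum_congr rfl fun j _ => ?_
  rw [LinearMap.smul_apply, LinearMap.smul_apply, map_smul, h]

lemma pow_fin_zero [FiniteDimensional Ω V] {T : Module.End Ω V} (hT : IsNilpotent T) {m : ℕ}
    (hm : finrank Ω V ≤ m) : T ^ m = 0 := by
  obtain ⟨k, hk⟩ := hT
  refine LinearMap.ext fun x => ?_
  have h1 : x ∈ T.maxGenEigenspace 0 := by
    rw [Module.End.mem_maxGenEigenspace]
    exact ⟨k, by rw [zero_smul, sub_zero, hk]; rfl⟩
  rw [Module.End.maxGenEigenspace_eq_genEigenspace_finrank, Module.End.mem_genEigenspace_nat,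
    zero_smul, sub_zero] at h1
  have h2 : T ^ m = T ^ (m - finrank Ω V) * T ^ finrank Ω V := by
    rw [← pow_add]
    congr 1
    omega
  rw [h2, Module.End.mul_apply, h1, map_zero]
  rfl

lemma expo_nexp [FiniteDimensional Ω V] {T : Module.End Ω V} (hT : IsNilpotent T) :
    expo T = nexp T := by
  rw [nexp_eq (pow_fin_zero hT (Nat.le_succ _)), expo]

/-- A vector which is fixed by the exponential of `t N` is in the kernel of `N`. -/
lemma ker_of_expo [FiniteDimensional Ω V] {N : Module.End Ω V} (hN : IsNilpotent N) {t : Ω}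
    (ht : t ≠ 0) {x : V} (hx : expo (t • N) x = x) : N x = 0 := by
  classical
  by_contra hne
  obtain ⟨k, hk⟩ := hN
  have hex : ∃ n, (N ^ n) x = 0 := ⟨k, by rw [hk]; rfl⟩
  set r := Nat.find hex with hr
  have hr0 : (N ^ r) x = 0 := Nat.find_spec hex
  have hr2 : 2 ≤ r := by
    by_contra hcon
    have h1 : r ≤ 1 := by omega
    have h2 : (N ^ 1) x = 0 := by
      have h3 : N ^ 1 = N ^ (1 - r) * N ^ r := by
        rw [← pow_add]
        congr 1
        omega
      rw [h3, Module.End.mul_apply, hr0, map_zero]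
    rw [pow_one] at h2
    exact hne h2
  have hr1 : (N ^ (r - 1)) x ≠ 0 := Nat.find_min hex (by omega)
  have hnil : IsNilpotent (t • N) := ⟨k, by rw [smul_pow, hk, smul_zero]⟩
  have hm : (t • N) ^ (finrank Ω V + k + 2) = 0 := pow_fin_zero hnil (by omega)
  rw [expo_nexp hnil, nexp_eq hm, LinearMap.sum_apply] at hx
  have h3 := congrArg (N ^ (r - 2)) hx
  rw [map_sum, Finset.sum_range_succ', Finset.sum_range_succ'] at h3
  have h4 : ∀ j ∈ Finset.range (finrank Ω V + k), (N ^ (r - 2))
      ((((j + 1 + 1).factorial : Ω)⁻¹ • (t • N) ^ (j + 1 + 1)) x) = 0 := by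
    intro j _
    rw [LinearMap.smul_apply, map_smul, smul_pow, LinearMap.smul_apply, map_smul,
      ← Module.End.mul_apply, ← pow_add]
    have h5 : N ^ (r - 2 + (j + 1 + 1)) = N ^ j * N ^ r := by
      rw [← pow_add]
      congr 1
      omega
    rw [h5, Module.End.mul_apply, hr0, map_zero, smul_zero, smul_zero]
  rw [Finset.sum_eq_zero h4, zero_add] at h3
  simp only [zero_add, Nat.factorial_one, Nat.cast_one, inv_one, one_smul, pow_one,
    Nat.factorial_zero, pow_zero, Module.End.one_apply, LinearMap.smul_apply, map_smul] at h3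
  have h6 : t • (N ^ (r - 2)) (N x) = 0 := by
    have := h3
    rwa [add_eq_right] at this
  have h7 : (N ^ (r - 2)) (N x) = (N ^ (r - 1)) x := by
    rw [← Module.End.mul_apply, ← pow_succ]
    congr 2
    omega
  rw [h7] at h6
  exact hr1 ((smul_eq_zero.1 h6).resolve_left ht)

end one

section hom

variable {Ω : Type} [Field Ω] [CharZero Ω] {A B : Type} [AddCommGroup A] [Module Ω A]
  [FiniteDimensional Ω A] [AddCommGroup B] [Module Ω B] [FiniteDimensional Ω B]

/-- Exponentials on spaces of linear maps. -/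
lemma expo_hom {N : Module.End Ω A} {M : Module.End Ω B} (hN : IsNilpotent N)
    (hM : IsNilpotent M) {φ : A ≃ₗ[Ω] A} {ψ : B ≃ₗ[Ω] B} (hφ : en φ = expo N)
    (hψ : en ψ = expo M) : arr φ ψ = expo (ppc N M) := by
  obtain ⟨a, ha⟩ := hN
  obtain ⟨b, hb⟩ := hM
  have hN : IsNilpotent N := ⟨a, ha⟩
  have hM : IsNilpotent M := ⟨b, hb⟩
  let R : Module.End Ω (A →ₗ[Ω] B) := LinearMap.compRight Ω M
  let L : Module.End Ω (A →ₗ[Ω] B) := LinearMap.lcomp Ω B N
  have hR : R ^ b = 0 := by
    refine LinearMap.ext fun f => ?_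
    rw [post_pow, hb, LinearMap.zero_apply, LinearMap.zero_comp]
  have hL : L ^ a = 0 := by
    refine LinearMap.ext fun f => ?_
    rw [pre_pow, ha, LinearMap.zero_apply, LinearMap.comp_zero]
  have hc : Commute R (-L) := by
    refine LinearMap.ext fun f => LinearMap.ext fun x => ?_
    change M (-(f (N x))) = -(M (f (N x)))
    rw [map_neg]
  have hnil : IsNilpotent (ppc N M) := ppc_nil hN hM
  have h1 : expo (ppc N M) = nexp R * nexp (-L) := by
    rw [expo_nexp hnil, ← nexp_add hc ⟨b, hR⟩ (IsNilpotent.neg ⟨a, hL⟩), ← sub_eq_add_neg]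
    rfl
  have h2 : ∀ f : A →ₗ[Ω] B, nexp R f = nexp M ∘ₗ f := by
    intro f
    refine LinearMap.ext fun x => ?_
    rw [nexp_eq hR, nexp_eq hb, LinearMap.sum_apply, LinearMap.sum_apply, LinearMap.comp_apply,
      LinearMap.sum_apply]
    refine Finset.sum_congr rfl fun j _ => ?_
    rw [LinearMap.smul_apply, post_pow]
    rfl
  have h3 : ∀ f : A →ₗ[Ω] B, nexp (-L) f = f ∘ₗ nexp (-N) := by
    intro f
    have h4 : -L = (LinearMap.lcomp Ω B (-N) : Module.End Ω (A →ₗ[Ω] B)) := by
      refine LinearMap.ext fun g => LinearMap.ext fun x => ?_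
      change -(g (N x)) = g (-(N x))
      rw [map_neg]
    have h6 : (-N) ^ a = 0 := by rw [neg_pow, ha, mul_zero]
    have h5 : (-L) ^ a = 0 := by
      refine LinearMap.ext fun g => ?_
      rw [h4, pre_pow, h6, LinearMap.zero_apply, LinearMap.comp_zero]
    refine LinearMap.ext fun x => ?_
    rw [nexp_eq h5, nexp_eq h6, LinearMap.sum_apply, LinearMap.sum_apply, LinearMap.comp_apply,
      LinearMap.sum_apply, map_sum]
    refine Finset.sum_congr rfl fun j _ => ?_
    rw [LinearMap.smul_apply, LinearMap.smul_apply, LinearMap.smul_apply, map_smul, h4, pre_pow]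
    rfl
  refine LinearMap.ext fun f => LinearMap.ext fun x => ?_
  obtain ⟨y, rfl⟩ := φ.surjective x
  rw [arr_apply, h1, Module.End.mul_apply, h3, h2, LinearMap.comp_apply, LinearMap.comp_apply]
  have h7 : φ y = nexp N y := by
    rw [← expo_nexp hN, ← hφ]
    rfl
  have h8 : nexp (-N) (nexp N y) = y := by
    rw [← Module.End.mul_apply, nexp_neg hN]
    rfl
  rw [h7, h8, ← expo_nexp hM, ← hψ]
  rfl

end hom

end Pool.Agent.Run7.h261.LI
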