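import Pool.Agent.Run7.h261.LI.Coset
import Pool.Agent.Run7.h261.LI.Rat
import Pool.Agent.Run7.h261.MT.Clo

/-!
# Independence of `ℓ` for local factors: rational traces at the places of good reduction
-/

set_option autoImplicit false
set_option linter.unusedSectionVars false

namespace Pool.Agent.Run7.h261.LI

open Module Polynomial NumberField IsDedekindDomain
open Pool.Agent.W401.Cheb Pool.Agent.N184.HK Pool.Agent.Y143 Pool.Agent.Run7.h261.MT

section homtrace

variable {Ω A B : Type} [Field Ω] [AddCommGroup A] [Module Ω A] [FiniteDimensional Ω A]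
  [AddCommGroup B] [Module Ω B] [FiniteDimensional Ω B]

omit [FiniteDimensional Ω A] [FiniteDimensional Ω B] in
lemma trace_of_equiv (e : A ≃ₗ[Ω] B) (T : Module.End Ω A) (S : Module.End Ω B)
    (h : ∀ z, e (T z) = S (e z)) : LinearMap.trace Ω B S = LinearMap.trace Ω A T := by
  have h1 : S = e.conj T := by
    refine LinearMap.ext fun y => ?_
    obtain ⟨z, rfl⟩ := e.surjective y
    rw [← h z, LinearEquiv.conj_apply_apply, LinearEquiv.symm_apply_apply]
  rw [h1, LinearMap.trace_conj']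

/-- The trace on a space of linear maps. -/
lemma trace_arr (φ : A ≃ₗ[Ω] A) (ψ : B ≃ₗ[Ω] B) :
    LinearMap.trace Ω (A →ₗ[Ω] B) (LinearEquiv.arrowCongr φ ψ).toLinearMap =
      LinearMap.trace Ω A φ.symm.toLinearMap * LinearMap.trace Ω B ψ.toLinearMap := by
  have h1 := LinearMap.trace_tensorProduct' (R := Ω) (Module.Dual.transpose φ.symm.toLinearMap)
    ψ.toLinearMap
  rw [LinearMap.trace_transpose'] at h1
  rw [← h1]
  refine trace_of_equiv (Ω := Ω) (A := TensorProduct Ω (Dual Ω A) B) (B := A →ₗ[Ω] B)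
    (dualTensorHomEquiv Ω A B) _ _ fun z => ?_
  induction z using TensorProduct.induction_on with
  | zero => simp
  | tmul f b =>
    refine LinearMap.ext fun x => ?_
    rw [TensorProduct.map_tmul]
    change dualTensorHom Ω A B _ x = ψ (dualTensorHom Ω A B (f ⊗ₜ[Ω] b) (φ.symm x))
    rw [dualTensorHom_apply, dualTensorHom_apply, map_smul]
    rfl
  | add y z hy hz => rw [map_add, map_add, map_add, map_add, hy, hz]

lemma trace_scal {a : Ω} (ha : a ≠ 0) :
    LinearMap.trace Ω Ω (scal a ha : Ω ≃ₗ[Ω] Ω).toLinearMap = a := by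
  have h1 : (scal a ha : Ω ≃ₗ[Ω] Ω).toLinearMap = a • LinearMap.id := LinearMap.ext fun x => rfl
  rw [h1, map_smul, LinearMap.trace_id, finrank_self, Nat.cast_one, smul_eq_mul, mul_one]

lemma trace_scal_symm {a : Ω} (ha : a ≠ 0) :
    LinearMap.trace Ω Ω (scal a ha : Ω ≃ₗ[Ω] Ω).symm.toLinearMap = a⁻¹ := by
  have h1 : (scal a ha : Ω ≃ₗ[Ω] Ω).symm.toLinearMap = a⁻¹ • LinearMap.id := by
    refine LinearMap.ext fun x => ?_
    change (scal a ha : Ω ≃ₗ[Ω] Ω).symm x = a⁻¹ • x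
    rw [LinearEquiv.symm_apply_eq]
    change x = a • a⁻¹ • x
    rw [smul_smul, mul_inv_cancel₀ ha, one_smul]
  rw [h1, map_smul, LinearMap.trace_id, finrank_self, Nat.cast_one, smul_eq_mul, mul_one]

end homtrace

section

variable {K : Type} [Field K] [NumberField K] {Ω Ω' : Type} [Field Ω] [CharZero Ω]
  [IsAlgClosed Ω] [TopologicalSpace Ω] [Field Ω'] [CharZero Ω'] [IsAlgClosed Ω']
  [TopologicalSpace Ω'] {X : HKVariety K Ω} {X' : HKVariety K Ω'} (c : Twist X) (c' : Twist X')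

/-- The traces of `σ` and of its inverse. -/
def TrIs {X : HKVariety K Ω} (c : Twist X) (e : Expr) (σ : GK K) (r r' : ℚ) : Prop :=
  evTrace c e σ = (r : Ω) ∧
    LinearMap.trace Ω (ev c e).V ((ev c e).φ σ).symm.toLinearMap = (r' : Ω)

lemma cp_rat {v : HeightOneSpectrum (𝓞 K)} (hv : v ∉ X.bad) {σ : GK K} (hσ : IsFrob v σ⁻¹) {i : ℕ}
    (hi : i ≤ X.d) : (X.E.Φ σ i).charpoly =
      ((X.poly v i).map (Int.castRingHom ℚ)).map (algebraMap ℚ Ω) := by
  rw [Polynomial.map_map]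
  have h1 : (algebraMap ℚ Ω).comp (Int.castRingHom ℚ) = Int.castRingHom Ω := RingHom.ext_int _ _
  rw [h1]
  exact X.frob v hv σ hσ i hi

lemma tr_of_cp {σ : GK K} {i : ℕ} {P : ℚ[X]}
    (h1 : (X.E.Φ σ i).charpoly = P.map (algebraMap ℚ Ω)) :
    TrIs c (.H i) σ (ptrace P 1)
      (∑ k ∈ Finset.range ((invPoly P).natDegree + 1), (invPoly P).coeff k * ptrace P k) := by
  refine ⟨?_, ?_⟩
  · exact trace_pow_eq h1 1
  · have h3 : ((X.E.F σ).φ i).symm.toLinearMap * X.E.Φ σ i = 1 := by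
      refine LinearMap.ext fun x => ?_
      change ((X.E.F σ).φ i).symm (((X.E.F σ).φ i) x) = x
      rw [LinearEquiv.symm_apply_apply]
    have h4 := inv_eq h3 h1
    have h5 := trace_aeval_eq h1 (invPoly P)
    rw [← h4] at h5
    exact h5

lemma tr_H {v : HeightOneSpectrum (𝓞 K)} (hv : v ∉ X.bad) {σ : GK K} (hσ : IsFrob v σ⁻¹) {i : ℕ}
    (hi : i ≤ X.d) {P : ℚ[X]} (hP : (X.poly v i).map (Int.castRingHom ℚ) = P) :
    TrIs c (.H i) σ (ptrace P 1)
      (∑ k ∈ Finset.range ((invPoly P).natDegree + 1), (invPoly P).coeff k * ptrace P k) := by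
  have h1 := cp_rat hv hσ hi
  rw [hP] at h1
  exact tr_of_cp c h1

/-- The traces of Frobenius elements on the tensor constructions are rational and independent of
`ℓ`. -/
lemma frob_tr (hd : X'.d = X.d) {v : HeightOneSpectrum (𝓞 K)} (hv : v ∉ X.bad)
    (hv' : v ∉ X'.bad) (hp : ∀ i ≤ X.d, X.poly v i = X'.poly v i) {σ : GK K}
    (hσ : IsFrob v σ⁻¹) : ∀ e : Expr, e.le X.d →
      ∃ r r' : ℚ, TrIs c e σ r r' ∧ TrIs c' e σ r r'
  | .H i, he => ⟨_, _, tr_H c hv hσ he rfl, tr_H c' hv' hσ (by rw [hd]; exact he)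
      (congrArg (fun f => Polynomial.map (Int.castRingHom ℚ) f) (hp i he).symm)⟩
  | .tate m, _ => by
    refine ⟨(Ideal.absNorm v.asIdeal : ℚ) ^ m, ((Ideal.absNorm v.asIdeal : ℚ) ^ m)⁻¹,
      ⟨?_, ?_⟩, ?_, ?_⟩
    · have h1 := trace_scal (c.pow_ne m σ)
      push_cast
      rw [← c.frob v hv σ hσ, evTrace_eq]
      exact h1
    · have h1 := trace_scal_symm (c.pow_ne m σ)
      push_cast
      rw [← c.frob v hv σ hσ]
      exact h1
    · have h1 := trace_scal (c'.pow_ne m σ)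
      push_cast
      rw [← c'.frob v hv' σ hσ, evTrace_eq]
      exact h1
    · have h1 := trace_scal_symm (c'.pow_ne m σ)
      push_cast
      rw [← c'.frob v hv' σ hσ]
      exact h1
  | .hom a b, he => by
    obtain ⟨ra, ra', ⟨h1, h2⟩, h3, h4⟩ := frob_tr hd hv hv' hp hσ a he.1
    obtain ⟨rb, rb', ⟨h5, h6⟩, h7, h8⟩ := frob_tr hd hv hv' hp hσ b he.2
    refine ⟨ra' * rb, ra * rb', ⟨?_, ?_⟩, ?_, ?_⟩
    · rw [Rat.cast_mul, ← h2, ← h5, evTrace_eq, evTrace_eq]
      exact trace_arr _ _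
    · rw [Rat.cast_mul, ← h1, ← h6, evTrace_eq]
      exact trace_arr ((ev c a).φ σ).symm ((ev c b).φ σ).symm
    · rw [Rat.cast_mul, ← h4, ← h7, evTrace_eq, evTrace_eq]
      exact trace_arr _ _
    · rw [Rat.cast_mul, ← h3, ← h8, evTrace_eq]
      exact trace_arr ((ev c' a).φ σ).symm ((ev c' b).φ σ).symm

/-- Rationality of loops. -/
lemma loops_rat {σ : GK K} (hχ : ∃ a : ℚ, (c.χ σ : Ω) = a ∧ (c'.χ σ : Ω') = a)
    (h : ∀ k, ∃ r : ℚ, twoTrace X k σ = (r : Ω) ∧ twoTrace X' k σ = (r : Ω')) (s : ℤ)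
    (κ : Multiset ℕ) : ∃ r : ℚ, loops c s κ σ = (r : Ω) ∧ loops c' s κ σ = (r : Ω') := by
  obtain ⟨a, ha, ha'⟩ := hχ
  choose r hr hr' using h
  have key : ∀ {F : Type} [Field F] [CharZero F] (f : ℕ → F) (_ : ∀ k, f k = (r k : F)),
      (κ.map f).prod = (((κ.map r).prod : ℚ) : F) := by
    intro F _ _ f hf
    induction κ using Multiset.induction_on with
    | empty => simp
    | cons k κ ih =>
      rw [Multiset.map_cons, Multiset.prod_cons, Multiset.map_cons, Multiset.prod_cons,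
        Rat.cast_mul, ih, hf]
  refine ⟨a ^ s * (κ.map r).prod, ?_, ?_⟩
  · rw [loops, key (fun k => twoTrace X k σ) hr, Twist.pow, ha]
    push_cast
    rfl
  · rw [loops, key (fun k => twoTrace X' k σ) hr', Twist.pow, ha']
    push_cast
    rfl

lemma two_frob {v : HeightOneSpectrum (𝓞 K)} (hv : v ∉ X.bad)
    (hv' : v ∉ X'.bad) (hp : ∀ i ≤ X.d, X.poly v i = X'.poly v i) {σ : GK K}
    (hσ : IsFrob v σ⁻¹) (k : ℕ) :
    ∃ r : ℚ, twoTrace X k σ = (r : Ω) ∧ twoTrace X' k σ = (r : Ω') := by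
  refine ⟨ptrace ((X.poly v 2).map (Int.castRingHom ℚ)) k, ?_, ?_⟩
  · exact trace_pow_eq (cp_rat hv hσ X.two_le) k
  · refine trace_pow_eq ?_ k
    rw [hp 2 X.two_le]
    exact cp_rat hv' hσ X'.two_le

end

end Pool.Agent.Run7.h261.LI
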