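import Pool.Agent.Run7.h261.LI.Defs
import Pool.Agent.Run7.h261.LI.Factor
import Pool.Agent.Run7.h261.PW.Lin

/-!
# Independence of `ℓ` for local factors: the Weil group
-/

set_option autoImplicit false
set_option linter.unusedSectionVars false

namespace Pool.Agent.Run7.h261.LI

open Module Polynomial NumberField IsDedekindDomain
open Pool.Agent.W401.Cheb Pool.Agent.N184.HK Pool.Agent.Y143

section grp

variable {K : Type} [Field K] {Q : Ideal (𝓞 (AlgebraicClosure K))}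

/-- the inertia group -/
def IQ (Q : Ideal (𝓞 (AlgebraicClosure K))) : Subgroup (GK K) where
  carrier := {τ | InInertia Q τ}
  mul_mem' := by
    intro σ τ hσ hτ x
    have h1 : (σ * τ) • x - x = (σ • (τ • x) - τ • x) + (τ • x - x) := by
      rw [mul_smul]
      abel
    rw [h1]
    exact Q.add_mem (hσ _) (hτ x)
  one_mem' := by
    intro x
    rw [one_smul, sub_self]
    exact Q.zero_mem
  inv_mem' := by
    intro τ hτ x
    have h1 := hτ (τ⁻¹ • x)
    rw [smul_inv_smul] at h1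
    have h2 := Q.neg_mem h1
    rwa [neg_sub] at h2

lemma mem_IQ {τ : GK K} : τ ∈ IQ Q ↔ InInertia Q τ := Iff.rfl

lemma geom_mul {N : ℕ} {g τ : GK K} (hg : GeomFrob Q N g) (hτ : InInertia Q τ) :
    GeomFrob Q N (g * τ) := by
  intro x
  have h1 := (IQ Q).inv_mem (mem_IQ.2 hτ) (g⁻¹ • x)
  have h2 : (g * τ)⁻¹ • x - x ^ N = (τ⁻¹ • (g⁻¹ • x) - g⁻¹ • x) + (g⁻¹ • x - x ^ N) := by
    rw [mul_inv_rev, mul_smul]
    abel
  rw [h2]
  exact Q.add_mem h1 (hg x)

lemma geom_mul' {M N : ℕ} {g h : GK K} (hg : GeomFrob Q M g) (hh : GeomFrob Q N h) :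
    GeomFrob Q (M * N) (g * h) := by
  intro x
  have h2 : (g * h)⁻¹ • x - x ^ (M * N) =
      (h⁻¹ • (g⁻¹ • x) - (g⁻¹ • x) ^ N) + ((g⁻¹ • x) ^ N - (x ^ M) ^ N) := by
    rw [mul_inv_rev, mul_smul, _root_.pow_mul]
    ring
  rw [h2]
  exact Q.add_mem (hh _) (Q.mem_of_dvd (sub_dvd_pow_sub_pow _ _ _) (hg x))

lemma geom_one : GeomFrob Q 1 1 := by
  intro x
  rw [inv_one, one_smul, pow_one, sub_self]
  exact Q.zero_mem

lemma geom_pow {N : ℕ} {g : GK K} (hg : GeomFrob Q N g) (m : ℕ) : GeomFrob Q (N ^ m) (g ^ m) := by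
  induction m with
  | zero => rw [pow_zero, pow_zero]; exact geom_one
  | succ m ih => rw [pow_succ, pow_succ]; exact geom_mul' ih hg

lemma geom_mem [hQ : Q.IsPrime] {N : ℕ} {g : GK K} (hN : 0 < N) (hg : GeomFrob Q N g)
    {x : 𝓞 (AlgebraicClosure K)} : g⁻¹ • x ∈ Q ↔ x ∈ Q := by
  have h1 := hg x
  constructor
  · intro h
    have h2 : x ^ N = g⁻¹ • x - (g⁻¹ • x - x ^ N) := by ring
    exact hQ.mem_of_pow_mem N (h2 ▸ Q.sub_mem h h1)
  · intro h
    have h2 : g⁻¹ • x = (g⁻¹ • x - x ^ N) + x ^ N := by ring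
    rw [h2]
    exact Q.add_mem h1 (Q.pow_mem_of_mem h N hN)

lemma inertia_div [hQ : Q.IsPrime] {N : ℕ} {g h : GK K} (hN : 0 < N) (hg : GeomFrob Q N g)
    (hh : GeomFrob Q N h) : InInertia Q (g * h⁻¹) := by
  intro x
  rw [← geom_mem hN hg]
  have h1 : g⁻¹ • ((g * h⁻¹) • x - x) = (h⁻¹ • x - x ^ N) - (g⁻¹ • x - x ^ N) := by
    rw [smul_sub, ← mul_smul, inv_mul_cancel_left]
    ring
  rw [h1]
  exact Q.sub_mem (hh x) (hg x)

lemma inertia_conj [hQ : Q.IsPrime] {N : ℕ} {g τ : GK K} (hN : 0 < N) (hg : GeomFrob Q N g)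
    (hτ : InInertia Q τ) : InInertia Q (g⁻¹ * τ * g) := by
  intro x
  have h1 : (g⁻¹ * τ * g) • x - x = g⁻¹ • (τ • (g • x) - g • x) := by
    rw [smul_sub, mul_smul, mul_smul, inv_smul_smul]
  rw [h1, geom_mem hN hg]
  exact hτ _

end grp

section

variable {K : Type} [Field K] [NumberField K] {Ω : Type} [Field Ω] [TopologicalSpace Ω]
  (X : HKVariety K Ω)

lemma Phi_mul (g h : GK K) (i : ℕ) (x : X.E.X.H i) :
    X.E.Φ (g * h) i x = X.E.Φ g i (X.E.Φ h i x) := by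
  change ((X.E.F (g * h)).φ i) x = (X.E.F g).φ i ((X.E.F h).φ i x)
  rw [X.E.mul]
  rfl

lemma Phi_mul' (g h : GK K) (i : ℕ) : X.E.Φ (g * h) i = X.E.Φ g i * X.E.Φ h i :=
  LinearMap.ext fun x => Phi_mul X g h i x

lemma Phi_inj (g : GK K) (i : ℕ) : Function.Injective (X.E.Φ g i) := ((X.E.F g).φ i).injective

lemma Phi_one (i : ℕ) : X.E.Φ 1 i = 1 := by
  refine LinearMap.ext fun x => Phi_inj X 1 i ?_
  rw [← Phi_mul, mul_one]
  rfl

lemma Phi_pow (g : GK K) (i m : ℕ) : X.E.Φ (g ^ m) i = X.E.Φ g i ^ m := by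
  induction m with
  | zero => rw [pow_zero, pow_zero, Phi_one]
  | succ m ih => rw [pow_succ, pow_succ, Phi_mul', ih]

lemma fixed_stable {Q : Ideal (𝓞 (AlgebraicClosure K))} [hQ : Q.IsPrime] {N : ℕ} (hN : 0 < N)
    {g : GK K} (hg : GeomFrob Q N g) (i : ℕ) :
    ∀ x ∈ fixedPart X Q i, X.E.Φ g i x ∈ fixedPart X Q i := by
  intro x hx τ hτ
  rw [← Phi_mul]
  have h1 : τ * g = g * (g⁻¹ * τ * g) := by group
  rw [h1, Phi_mul, hx _ (inertia_conj hN hg hτ)]

end

section eig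

variable {Ω : Type} [Field Ω] [CharZero Ω] [IsAlgClosed Ω] {V : Type} [AddCommGroup V]
  [Module Ω V] [FiniteDimensional Ω V]

lemma eig_pow {φ : Module.End Ω V} {e : Ω} (h : φ.HasEigenvalue e) (m : ℕ) :
    (φ ^ m).HasEigenvalue (e ^ m) := by
  obtain ⟨x, hx⟩ := h.exists_hasEigenvector
  exact Module.End.hasEigenvalue_of_hasEigenvector (x := x)
    ⟨Module.End.mem_eigenspace_iff.2 (hx.pow_apply m), hx.2⟩

lemma eig_of_pow {φ : Module.End Ω V} {e : Ω} {m : ℕ} (hm : 0 < m)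
    (h : (φ ^ m).HasEigenvalue e) : ∃ a, φ.HasEigenvalue a ∧ a ^ m = e := by
  have h1 : e ∈ spectrum Ω (φ ^ m) := Module.End.hasEigenvalue_iff_mem_spectrum.1 h
  rw [spectrum.map_pow_of_pos φ hm] at h1
  obtain ⟨a, ha, hae⟩ := h1
  exact ⟨a, Module.End.hasEigenvalue_iff_mem_spectrum.2 ha, hae⟩

/-- Eigenvalues when `N = 0`. -/
lemma weil_of_zero {q : ℕ} {w : ℤ} {φ : Module.End Ω V} (h : IsMWPure q w φ 0) {e : Ω}
    (he : φ.HasEigenvalue e) : IsWeilNumber q w e := by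
  obtain ⟨M, hM, hst, hw⟩ := h
  have h1 : ∀ a : ℕ, M a = M 0 := by
    intro a
    induction a with
    | zero => rfl
    | succ a ih =>
      refine le_antisymm (fun x hx => ?_) (hM.mono (by omega))
      have := hM.inj (a + 1) x hx (by
        rw [zero_pow (Nat.succ_ne_zero a), LinearMap.zero_apply]; exact Submodule.zero_mem _)
      rw [show ((a + 1 : ℕ) : ℤ) - 1 = a by push_cast; ring, ih] at this
      exact this
  have h2 : ∀ a : ℕ, M (-(a : ℤ) - 1) = M (-1) := by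
    intro a
    induction a with
    | zero => rfl
    | succ a ih =>
      refine le_antisymm (hM.mono (by omega)) (fun y hy => ?_)
      rw [← ih, show -(a : ℤ) - 1 = -((a + 1 : ℕ) : ℤ) by push_cast; ring] at hy
      obtain ⟨x, -, hx⟩ := hM.surj (a + 1) y hy
      rw [zero_pow (Nat.succ_ne_zero a), LinearMap.zero_apply, sub_zero] at hx
      exact hx
  have htop : M 0 = ⊤ := by
    obtain ⟨a, ha⟩ := hM.top
    refine top_unique ?_
    rw [← ha, ← h1 a.toNat]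
    exact hM.mono (Int.self_le_toNat a)
  have hbot : M (-1) = ⊥ := by
    obtain ⟨a, ha⟩ := hM.bot
    refine bot_unique ?_
    rw [← ha, ← h2 (-a).toNat]
    exact hM.mono (by omega)
  obtain ⟨x, hx⟩ := he.exists_hasEigenvector
  have h3 := hw 0 e x (by rw [htop]; exact Submodule.mem_top)
    (by rw [zero_sub, hbot, Submodule.mem_bot]; exact hx.2)
    (by rw [hx.apply_eq_smul, sub_self]; exact Submodule.zero_mem _)
  rwa [zero_add] at h3

end eig

end Pool.Agent.Run7.h261.LI
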