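import Pool.Agent.Run7.h261.LI.Rat
import Pool.Agent.Run7.h261.LI.Avg
import Pool.Agent.Run7.h261.PW.Lin

/-!
# Independence of `ℓ` for local factors: the trace of Frobenius on the kernel of `N`
-/

set_option autoImplicit false
set_option linter.unusedSectionVars false

namespace Pool.Agent.Run7.h261.LI

open Module Polynomial Pool.Agent.N184.HK Pool.Agent.Y143

section exact

variable {Ω V : Type} [Field Ω] [CharZero Ω] [AddCommGroup V] [Module Ω V]
  [FiniteDimensional Ω V]

/-- Additivity of the trace. -/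
lemma tr_exact {Φ N : Module.End Ω V} {q : Ω} (hN : ∀ x, N (Φ x) = q • Φ (N x))
    {S S' : Submodule Ω V} (hS : ∀ x ∈ S, Φ x ∈ S) (hS' : ∀ x ∈ S', Φ x ∈ S')
    (hNS : ∀ x ∈ S, N x ∈ S') (hsurj : ∀ y ∈ S', ∃ x ∈ S, N x = y)
    (hker : LinearMap.ker N ≤ S) :
    trOn S Φ = trOn (LinearMap.ker N) Φ + q * trOn S' Φ := by
  have hK : ∀ x ∈ LinearMap.ker N, Φ x ∈ LinearMap.ker N := by
    intro x hx
    rw [LinearMap.mem_ker] at hx ⊢
    rw [hN, hx, map_zero, smul_zero]
  let p : S →ₗ[Ω] S' := N.restrict hNS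
  have hp : Function.Surjective p := by
    rintro ⟨y, hy⟩
    obtain ⟨x, hx, hxy⟩ := hsurj y hy
    exact ⟨⟨x, hx⟩, Subtype.ext hxy⟩
  obtain ⟨s, hs⟩ := p.exists_rightInverse_of_surjective (LinearMap.range_eq_top.2 hp)
  let F : Module.End Ω S := Φ.restrict hS
  let F' : Module.End Ω S' := Φ.restrict hS'
  have hpF : p ∘ₗ F = q • (F' ∘ₗ p) := by
    refine LinearMap.ext fun x => Subtype.ext ?_
    exact hN x
  let T : Module.End Ω S := F ∘ₗ (LinearMap.id - s ∘ₗ p)
  have h1 : F = F ∘ₗ s ∘ₗ p + T := by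
    refine LinearMap.ext fun x => ?_
    change F x = F (s (p x)) + F (x - s (p x))
    rw [map_sub]
    abel
  have h2 : LinearMap.trace Ω S (F ∘ₗ s ∘ₗ p) = q * LinearMap.trace Ω S' F' := by
    have h3 : LinearMap.trace Ω S ((F ∘ₗ s) ∘ₗ p) = LinearMap.trace Ω S' (p ∘ₗ (F ∘ₗ s)) :=
      LinearMap.trace_comp_comm' p (F ∘ₗ s)
    have h4 : p ∘ₗ (F ∘ₗ s) = q • F' := by
      rw [← LinearMap.comp_assoc, hpF]
      refine LinearMap.ext fun x => ?_
      have h5 : p (s x) = x := congrArg (fun g => g x) hs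
      change q • F' (p (s x)) = q • F' x
      rw [h5]
    rw [← LinearMap.comp_assoc, h3, h4, map_smul, smul_eq_mul]
  let K' : Submodule Ω S := (LinearMap.ker N).comap S.subtype
  have hTK : ∀ x : S, T x ∈ K' := by
    intro x
    have h5 : ∀ y, p (s y) = y := fun y => congrArg (fun g => g y) hs
    have h6 : p (T x) = 0 := by
      have h7 : p (F (x - s (p x))) = q • F' (p (x - s (p x))) :=
        congrArg (fun g => g (x - s (p x))) hpF
      change p (F (x - s (p x))) = 0
      rw [h7, map_sub, h5, sub_self, map_zero, smul_zero]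
    exact congrArg Subtype.val h6
  have h8 := LinearMap.trace_restrict_eq_of_forall_mem K' T hTK
  let e : K' ≃ₗ[Ω] LinearMap.ker N := Submodule.comapSubtypeEquivOfLe hker
  have h9 : LinearMap.trace Ω K' (T.restrict fun x _ => hTK x) = trOn (LinearMap.ker N) Φ := by
    rw [trOn_eq hK, ← LinearMap.trace_conj' _ e]
    congr 1
    refine LinearMap.ext fun y => Subtype.ext ?_
    have hy : p (⟨y, hker y.2⟩ : S) = 0 := Subtype.ext y.2
    change ((F (⟨y, hker y.2⟩ - s (p ⟨y, hker y.2⟩)) : S) : V) = Φ y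
    rw [hy, map_zero, sub_zero]
    rfl
  rw [trOn_eq hS, trOn_eq hS', ← h9, h8]
  change LinearMap.trace Ω S F = _ + q * LinearMap.trace Ω S' F'
  rw [← h2, add_comm, ← map_add]
  exact congrArg _ h1

end exact

section kernel

variable {Ω V : Type} [Field Ω] [CharZero Ω] [IsAlgClosed Ω] [AddCommGroup V] [Module Ω V]
  [FiniteDimensional Ω V]

lemma nil_sub (Φ : Module.End Ω V) : IsNilpotent (Φ - fop Φ fun e => e) := by
  refine ⟨finrank Ω V, ext_gen Φ fun e x hx => ?_⟩
  have key : ∀ k : ℕ, ((Φ - fop Φ fun e => e) ^ k) x = ((Φ - algebraMap Ω (Module.End Ω V) e) ^ k) x ∧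
      ((Φ - algebraMap Ω (Module.End Ω V) e) ^ k) x ∈ Φ.maxGenEigenspace e := by
    intro k
    induction k with
    | zero => exact ⟨rfl, hx⟩
    | succ k ih =>
      have h1 : (Φ - algebraMap Ω (Module.End Ω V) e)
          (((Φ - algebraMap Ω (Module.End Ω V) e) ^ k) x) ∈ Φ.maxGenEigenspace e := by
        refine Φ.mapsTo_maxGenEigenspace_of_comm ?_ e ih.2
        exact ((Commute.refl Φ).sub_right (Algebra.commutes e Φ).symm)
      refine ⟨?_, by rw [pow_succ']; exact h1⟩
      rw [pow_succ', pow_succ', Module.End.mul_apply, Module.End.mul_apply, ih.1,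
        LinearMap.sub_apply, LinearMap.sub_apply, fop_apply _ ih.2]
      rfl
  rw [(key _).1, LinearMap.zero_apply]
  rw [Module.End.maxGenEigenspace_eq_genEigenspace_finrank, Module.End.mem_genEigenspace_nat] at hx
  exact hx

lemma tr_fop_mul' (Φ : Module.End Ω V) (w : Ω → Ω) :
    LinearMap.trace Ω V (Φ * fop Φ w) = (Φ.charpoly.roots.map fun e => w e * e).sum := by
  have hc : Commute Φ (fop Φ w) := fop_comm (Commute.refl _) w
  have hc' : Commute (fop Φ w) (fop Φ fun e => e) := by
    rw [Commute, SemiconjBy, fop_mul, fop_mul]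
    congr 1
    funext e
    exact mul_comm _ _
  have h1 : Φ * fop Φ w - fop Φ (fun e => w e * e) = fop Φ w * (Φ - fop Φ fun e => e) := by
    rw [← fop_mul, mul_sub, hc.eq]
  have h2 : IsNilpotent (Φ * fop Φ w - fop Φ (fun e => w e * e)) := by
    rw [h1]
    exact (hc.symm.sub_right hc').isNilpotent_mul_left (nil_sub Φ)
  have h3 := (LinearMap.isNilpotent_trace_of_isNilpotent h2).eq_zero
  rw [map_sub, sub_eq_zero] at h3
  rw [h3, tr_fop]

variable (q : ℕ)

open Classical in
/-- the indicator function of the Weil numbers of weight at most `j` -/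
noncomputable def ind (j : ℤ) (e : Ω) : Ω := if ∃ w ≤ j, IsWeilNumber q w e then 1 else 0

lemma ind_sq (j : ℤ) (e : Ω) : ind q j e * ind q j e = ind q j e := by
  unfold ind
  split_ifs <;> simp

/-- the sum of the parts of weight at most `j` -/
noncomputable def Sle (Φ : Module.End Ω V) (j : ℤ) : Submodule Ω V :=
  LinearMap.range (fop Φ (ind q j))

lemma mem_Sle {Φ : Module.End Ω V} {j : ℤ} {x : V} :
    x ∈ Sle q Φ j ↔ fop Φ (ind q j) x = x := by
  constructor
  · rintro ⟨y, rfl⟩
    rw [← Module.End.mul_apply, fop_mul]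
    congr 2
    funext e
    exact ind_sq q j e
  · intro h
    exact ⟨x, h⟩

lemma Sle_stable (Φ : Module.End Ω V) (j : ℤ) : ∀ x ∈ Sle q Φ j, Φ x ∈ Sle q Φ j := by
  rintro _ ⟨y, rfl⟩
  refine ⟨Φ y, ?_⟩
  exact (congrArg (fun g : Module.End Ω V => g y) (fop_comm (Commute.refl Φ) (ind q j)).eq).symm

lemma trOn_Sle (Φ : Module.End Ω V) (j : ℤ) :
    trOn (Sle q Φ j) Φ = (Φ.charpoly.roots.map fun e => ind q j e * e).sum := by
  rw [trOn_eq (Sle_stable q Φ j), ← tr_fop_mul' Φ (ind q j)]
  have h1 : ∀ x, (Φ * fop Φ (ind q j)) x ∈ Sle q Φ j := fun x =>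
    Sle_stable q Φ j _ ⟨x, rfl⟩
  rw [← LinearMap.trace_restrict_eq_of_forall_mem (Sle q Φ j) _ h1]
  congr 1
  refine LinearMap.ext fun x => Subtype.ext ?_
  change Φ (x : V) = Φ (fop Φ (ind q j) x)
  rw [(mem_Sle q).1 x.2]

lemma gen_le_Sle {Φ : Module.End Ω V} {j w : ℤ} (hw : w ≤ j) {e : Ω} (he : IsWeilNumber q w e) :
    Φ.maxGenEigenspace e ≤ Sle q Φ j := by
  intro x hx
  rw [mem_Sle, fop_apply _ hx, ind, if_pos ⟨w, hw, he⟩, one_smul]

lemma WS_le_Sle {Φ : Module.End Ω V} {j w : ℤ} (hw : w ≤ j) : WS q Φ w ≤ Sle q Φ j :=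
  iSup₂_le fun _ he => gen_le_Sle q hw he

variable {q} (hq : 1 < q) {Φ N : Module.End Ω V} (hN : ∀ x, N (Φ x) = (q : Ω) • Φ (N x))

include hq hN in
lemma N_gen {e : Ω} {x : V} (hx : x ∈ Φ.maxGenEigenspace e) :
    N x ∈ Φ.maxGenEigenspace (e * (q : Ω)⁻¹) := by
  have hq0 : (q : Ω) ≠ 0 := by exact_mod_cast (by omega : q ≠ 0)
  rw [Module.End.mem_maxGenEigenspace] at hx ⊢
  obtain ⟨k, hk⟩ := hx
  refine ⟨k, ?_⟩
  have key : ∀ (k : ℕ) (x : V), ((Φ - (e * (q : Ω)⁻¹) • (1 : Module.End Ω V)) ^ k) (N x) =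
      ((q : Ω)⁻¹) ^ k • N (((Φ - e • (1 : Module.End Ω V)) ^ k) x) := by
    intro k
    induction k with
    | zero => intro x; simp
    | succ k ih =>
      intro x
      have h1 : (Φ - (e * (q : Ω)⁻¹) • (1 : Module.End Ω V)) (N x) =
          (q : Ω)⁻¹ • N ((Φ - e • (1 : Module.End Ω V)) x) := by
        rw [LinearMap.sub_apply, LinearMap.sub_apply, LinearMap.smul_apply, LinearMap.smul_apply,
          Module.End.one_apply, Module.End.one_apply, map_sub, hN, map_smul, smul_sub, smul_smul,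
          inv_mul_cancel₀ hq0, one_smul, smul_smul, mul_comm e]
      rw [pow_succ (Φ - (e * (q : Ω)⁻¹) • (1 : Module.End Ω V)), Module.End.mul_apply, h1,
        map_smul, ih, smul_smul, ← pow_succ', pow_succ (Φ - e • (1 : Module.End Ω V)),
        Module.End.mul_apply]
  rw [key, hk, map_zero, smul_zero]

include hq in
lemma ind_div (j : ℤ) (e : Ω) : ind q (j - 2) (e * (q : Ω)⁻¹) = ind q j e := by
  have hq0 : (q : Ω) ≠ 0 := by exact_mod_cast (by omega : q ≠ 0)
  have h1 : (∃ w ≤ j - 2, IsWeilNumber q w (e * (q : Ω)⁻¹)) ↔ ∃ w ≤ j, IsWeilNumber q w e := by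
    constructor
    · rintro ⟨w, hw, h⟩
      refine ⟨w + 2, by omega, ?_⟩
      have h2 := h.twist (by omega) 1
      rw [zpow_one] at h2
      have h3 : (q : Ω) * (e * (q : Ω)⁻¹) = e := by
        rw [mul_comm, mul_assoc, inv_mul_cancel₀ hq0, mul_one]
      rw [h3] at h2
      rwa [show w + 2 * 1 = w + 2 by ring] at h2
    · rintro ⟨w, hw, h⟩
      refine ⟨w - 2, by omega, ?_⟩
      have h2 := h.twist (by omega) (-1)
      rw [zpow_neg_one, mul_comm (q : Ω)⁻¹ e] at h2
      rwa [show w + 2 * -1 = w - 2 by ring] at h2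
  unfold ind
  by_cases h : ∃ w ≤ j, IsWeilNumber q w e
  · rw [if_pos h, if_pos (h1.2 h)]
  · rw [if_neg h, if_neg fun h' => h (h1.1 h')]

include hq hN in
lemma N_pr (j : ℤ) (x : V) : N (fop Φ (ind q j) x) = fop Φ (ind q (j - 2)) (N x) := by
  have : N ∘ₗ fop Φ (ind q j) = fop Φ (ind q (j - 2)) ∘ₗ N := by
    refine ext_gen Φ fun e x hx => ?_
    rw [LinearMap.comp_apply, LinearMap.comp_apply, fop_apply _ hx, fop_apply _ (N_gen hq hN hx),
      map_smul, ind_div hq]
  exact congrArg (fun g : Module.End Ω V => g x) this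

include hq hN in
lemma N_WS {a : ℤ} {x : V} (hx : x ∈ WS q Φ a) : N x ∈ WS q Φ (a - 2) := by
  have h1 : WS q Φ a ≤ (WS q Φ (a - 2)).comap N := by
    refine iSup₂_le fun e he x hx => ?_
    have h2 := N_gen hq hN hx
    have h3 : IsWeilNumber q (a - 2) (e * (q : Ω)⁻¹) := by
      have h4 : IsWeilNumber q a e := he
      have h5 := h4.twist (by omega) (-1)
      rw [zpow_neg_one, mul_comm (q : Ω)⁻¹ e] at h5
      rwa [show a + 2 * -1 = a - 2 by ring] at h5
    exact Submodule.mem_iSup_of_mem _ (Submodule.mem_iSup_of_mem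
      (show e * (q : Ω)⁻¹ ∈ {e : Ω | IsWeilNumber q (a - 2) e} from h3) h2)
  exact h1 hx

include hq hN in
lemma N_pow_WS {a : ℤ} {x : V} (hx : x ∈ WS q Φ a) (k : ℕ) : (N ^ k) x ∈ WS q Φ (a - 2 * k) := by
  induction k with
  | zero => simpa using hx
  | succ k ih =>
    rw [pow_succ', Module.End.mul_apply]
    have := N_WS hq hN ih
    rwa [show a - 2 * (k : ℤ) - 2 = a - 2 * ((k + 1 : ℕ) : ℤ) by push_cast; ring] at this

variable {w : ℤ} (h : IsMWPure q w Φ N)

include hq hN h in
/-- The trace of Frobenius on the kernel of `N`. -/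
theorem tr_ker : trOn (LinearMap.ker N) Φ =
    (Φ.charpoly.roots.map fun e => ind q w e * e).sum -
      q * (Φ.charpoly.roots.map fun e => ind q (w - 2) e * e).sum := by
  classical
  have hr := PW.weil_of_pure h
  have hfrm := t_frm Ω V q hq w Φ N hr hN h
  have hNS : ∀ x ∈ Sle q Φ w, N x ∈ Sle q Φ (w - 2) := by
    intro x hx
    rw [mem_Sle] at hx ⊢
    rw [← N_pr hq hN, hx]
  have hsurj : ∀ y ∈ Sle q Φ (w - 2), ∃ x ∈ Sle q Φ w, N x = y := by
    have h1 : (Submodule.mkQ ((Sle q Φ w).map N)) ∘ₗ fop Φ (ind q (w - 2)) = 0 := by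
      refine ext_gen Φ fun e y hy => ?_
      rw [LinearMap.comp_apply, fop_apply _ hy, LinearMap.zero_apply, Submodule.mkQ_apply,
        Submodule.Quotient.mk_eq_zero]
      unfold ind
      split_ifs with hw
      · obtain ⟨w', hw', he⟩ := hw
        rw [one_smul]
        obtain ⟨j, hj⟩ := Int.eq_ofNat_of_zero_le (show 0 ≤ w - w' by omega)
        have hyW : y ∈ WS q Φ (w - j) := by
          rw [show w - (j : ℤ) = w' by omega]
          exact Submodule.mem_iSup_of_mem _ (Submodule.mem_iSup_of_mem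
            (show e ∈ {e : Ω | IsWeilNumber q w' e} from he) hy)
        obtain ⟨z, hz, hzy⟩ := (hfrm j).surjOn hyW
        obtain ⟨k, rfl⟩ := Nat.exists_eq_succ_of_ne_zero (show j ≠ 0 by omega)
        refine ⟨(N ^ k) z, ?_, ?_⟩
        · refine WS_le_Sle q (w := w + (k + 1 : ℕ) - 2 * k) ?_ (N_pow_WS hq hN hz k)
          push_cast at hj ⊢
          omega
        · rw [← hzy, Nat.succ_eq_add_one, pow_succ', Module.End.mul_apply]
      · rw [zero_smul]
        exact Submodule.zero_mem _
    intro y hy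
    rw [mem_Sle] at hy
    have h2 := congrArg (fun g : V →ₗ[Ω] _ => g y) h1
    rw [LinearMap.comp_apply, hy, LinearMap.zero_apply, Submodule.mkQ_apply,
      Submodule.Quotient.mk_eq_zero] at h2
    exact h2
  have hker : LinearMap.ker N ≤ Sle q Φ w := by
    intro x hx
    rw [LinearMap.mem_ker] at hx
    -- the components of `x`
    have hδ : ∀ e : Ω, fop Φ (fun e' => if e' = e then 1 else 0) x ∈ Sle q Φ w := by
      intro e
      set y := fop Φ (fun e' => if e' = e then (1 : Ω) else 0) x with hy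
      have hye : y ∈ Φ.maxGenEigenspace e := by
        have h1 : (Submodule.mkQ (Φ.maxGenEigenspace e)) ∘ₗ
            fop Φ (fun e' => if e' = e then (1 : Ω) else 0) = 0 := by
          refine ext_gen Φ fun e' z hz => ?_
          rw [LinearMap.comp_apply, fop_apply _ hz, LinearMap.zero_apply, Submodule.mkQ_apply,
            Submodule.Quotient.mk_eq_zero]
          split_ifs with hee
          · subst hee; rw [one_smul]; exact hz
          · rw [zero_smul]; exact Submodule.zero_mem _
        have h2 := congrArg (fun g : V →ₗ[Ω] _ => g x) h1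
        rw [LinearMap.comp_apply, LinearMap.zero_apply, Submodule.mkQ_apply,
          Submodule.Quotient.mk_eq_zero] at h2
        exact h2
      have hNy : N y = 0 := by
        have hq0 : (q : Ω) ≠ 0 := by exact_mod_cast (by omega : q ≠ 0)
        have h3 : N ∘ₗ fop Φ (fun e' => if e' = e then (1 : Ω) else 0) =
            fop Φ (fun e' => if e' = e * (q : Ω)⁻¹ then (1 : Ω) else 0) ∘ₗ N := by
          refine ext_gen Φ fun e' z hz => ?_
          rw [LinearMap.comp_apply, LinearMap.comp_apply, fop_apply _ hz,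
            fop_apply _ (N_gen hq hN hz), map_smul]
          simp only [mul_left_inj' (inv_ne_zero hq0)]
        have h4 := congrArg (fun g : V →ₗ[Ω] _ => g x) h3
        rw [LinearMap.comp_apply, LinearMap.comp_apply, hx, map_zero] at h4
        exact h4
      by_cases he : ∃ w' ≤ w, IsWeilNumber q w' e
      · obtain ⟨w', hw', he⟩ := he
        exact gen_le_Sle q hw' he hye
      · by_cases hy0 : y = 0
        · rw [hy0]; exact Submodule.zero_mem _
        · exfalso
          have her : e ∈ Φ.charpoly.roots := ne_bot_iff.1 fun hb => hy0 (by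
            rw [hb, Submodule.mem_bot] at hye; exact hye)
          obtain ⟨w', hw'⟩ := hr e her
          have hlt : w < w' := by
            by_contra hcon
            exact he ⟨w', not_lt.1 hcon, hw'⟩
          obtain ⟨j, hj⟩ := Int.eq_ofNat_of_zero_le (show 0 ≤ w' - w by omega)
          have hyW : y ∈ WS q Φ (w + j) := by
            rw [show w + (j : ℤ) = w' by omega]
            exact Submodule.mem_iSup_of_mem _ (Submodule.mem_iSup_of_mem
              (show e ∈ {e : Ω | IsWeilNumber q w' e} from hw') hye)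
          obtain ⟨k, rfl⟩ := Nat.exists_eq_succ_of_ne_zero (show j ≠ 0 by omega)
          have h5 : (N ^ (k + 1)) y = 0 := by
            rw [pow_succ, Module.End.mul_apply, hNy, map_zero]
          refine hy0 ((hfrm (k + 1)).injOn hyW (Submodule.zero_mem _) ?_)
          rw [h5, map_zero]
    have hsum : (∑ e ∈ Φ.charpoly.roots.toFinset,
        fop Φ (fun e' => if e' = e then (1 : Ω) else 0)) = 1 := by
      refine ext_gen Φ fun e' z hz => ?_
      rw [LinearMap.sum_apply, Module.End.one_apply]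
      by_cases hz0 : z = 0
      · rw [hz0]; simp
      · have her : e' ∈ Φ.charpoly.roots := ne_bot_iff.1 fun hb => hz0 (by
          rw [hb, Submodule.mem_bot] at hz; exact hz)
        rw [Finset.sum_congr rfl fun e _ => by rw [fop_apply _ hz]]
        rw [← Finset.sum_smul, Finset.sum_ite_eq, if_pos (Multiset.mem_toFinset.2 her), one_smul]
    have hx2 := congrArg (fun g : Module.End Ω V => g x) hsum
    rw [LinearMap.sum_apply, Module.End.one_apply] at hx2
    rw [← hx2]
    exact Submodule.sum_mem _ fun e _ => hδ e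
  have h1 := tr_exact hN (Sle_stable q Φ w) (Sle_stable q Φ (w - 2)) hNS hsurj hker
  rw [trOn_Sle, trOn_Sle] at h1
  rw [h1]
  ring

end kernel

end Pool.Agent.Run7.h261.LI
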