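import Pool.Agent.Run7.h261.LI.Frob

/-!
# Independence of `ℓ` for local factors: traces of elements of the Weil group
-/

set_option autoImplicit false
set_option linter.unusedSectionVars false

namespace Pool.Agent.Run7.h261.LI

open Module Polynomial NumberField IsDedekindDomain
open Pool.Agent.W401.Cheb Pool.Agent.N184.HK Pool.Agent.Y143 Pool.Agent.Run7.h261.MT

section cont

variable {K : Type} [Field K] [NumberField K] {Ω : Type} [Field Ω] [CharZero Ω] [IsAlgClosed Ω]
  [TopologicalSpace Ω] [IsTopologicalRing Ω] [T2Space Ω] {X : HKVariety K Ω} (c : Twist X)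

lemma cont_ev {e : Expr} (he : e.le X.d) : Continuous (evTrace c e) := by
  have h1 : evTrace c e = fun σ => LinearMap.trace Ω (ev c e).V (en ((ev c e).φ σ)) := by
    funext σ
    exact evTrace_eq c e σ
  rw [h1]
  exact (good_ev c e he).cont (LinearMap.trace Ω (ev c e).V)

lemma cont_two (k : ℕ) : Continuous (twoTrace X k) := by
  have hpow : Cts fun σ => X.E.Φ σ 2 ^ k := by
    induction k with
    | zero =>
      intro L
      refine (continuous_const (y := L 1)).congr fun σ => ?_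
      exact congrArg L (_root_.pow_zero (X.E.Φ σ 2)).symm
    | succ n ih =>
      have h := (t_cts Ω _ (GK K) _ _ ih (X.E.cont 2)).1
      have h2 : (fun σ => X.E.Φ σ 2 ^ (n + 1)) = fun σ => X.E.Φ σ 2 ^ n * en ((X.E.F σ).φ 2) := by
        funext σ
        rw [_root_.pow_succ]
        rfl
      rw [h2]
      exact h
  exact hpow (LinearMap.trace Ω _)

lemma cont_loops (s : ℤ) (κ : Multiset ℕ) : Continuous (loops c s κ) :=
  (cont_zpow c s).mul (continuous_multiset_prod κ fun k _ => cont_two k)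

lemma dense2 {bad : Set (HeightOneSpectrum (𝓞 K))} (hbad : bad.Finite) {O : Set (GK K)}
    (hO : IsOpen O) {g : GK K → Ω} (hg : Continuous g)
    (h : ∀ v, v ∉ bad → ∀ σ ∈ O, IsFrob v σ⁻¹ → g σ = 0) : ∀ σ ∈ O, g σ = 0 := by
  intro σ hσ
  by_contra hne
  have h1 : IsOpen (O ∩ g ⁻¹' {0}ᶜ) := hO.inter (isOpen_compl_singleton.preimage hg)
  obtain ⟨v, hv, -, τ, hτ, hfr⟩ := t_frob K bad hbad _ h1 ⟨σ, hσ, hne⟩
  exact hτ.2 (h v hv τ hτ.1 hfr)

end cont

section

variable {Ω : Type} [Field Ω] [CharZero Ω]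

lemma exists_lam : ∃ lam : Ω →ₗ[ℚ] ℚ, ∀ r : ℚ, lam (r : Ω) = r := by
  obtain ⟨P, hP⟩ := LinearMap.exists_leftInverse_of_injective
    (LinearMap.toSpanSingleton ℚ Ω 1) (by
      rw [LinearMap.ker_eq_bot]
      intro a b hab
      have h1 : ((a : ℚ) : Ω) = ((b : ℚ) : Ω) := by
        have := hab
        rw [LinearMap.toSpanSingleton_apply, LinearMap.toSpanSingleton_apply, Rat.smul_def,
          Rat.smul_def, mul_one, mul_one] at this
        exact this
      exact_mod_cast h1)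
  refine ⟨P, fun r => ?_⟩
  have h1 := congrArg (fun f => f r) hP
  have h2 : P (LinearMap.toSpanSingleton ℚ Ω 1 r) = r := h1
  rwa [LinearMap.toSpanSingleton_apply, Rat.smul_def, mul_one] at h2

end

section pair

variable {K : Type} [Field K] [NumberField K] {Ω Ω' : Type} [Field Ω] [CharZero Ω]
  [IsAlgClosed Ω] [TopologicalSpace Ω] [IsTopologicalRing Ω] [T2Space Ω] [Field Ω'] [CharZero Ω']
  [IsAlgClosed Ω'] [TopologicalSpace Ω'] [IsTopologicalRing Ω'] [T2Space Ω']
  {X : HKVariety K Ω} {X' : HKVariety K Ω'} (c : Twist X) (c' : Twist X')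

/-- **Traces on tensor constructions of even weight.** -/
theorem transfer_pair (hc : Rigid c) (hd : X'.d = X.d)
    (hp : ∀ v, v ∉ X.bad → v ∉ X'.bad → ∀ i ≤ X.d, X.poly v i = X'.poly v i) {e : Expr}
    (he : e.le X.d) (hV : InTwoB c e) {g : GK K}
    (hχ : ∃ a : ℚ, (c.χ g : Ω) = a ∧ (c'.χ g : Ω') = a)
    (htwo : ∀ k, ∃ r : ℚ, twoTrace X k g = (r : Ω) ∧ twoTrace X' k g = (r : Ω')) :
    ∃ r : ℚ, evTrace c e g = (r : Ω) ∧ evTrace c' e g = (r : Ω') := by
  classical
  obtain ⟨U, J, hJ, s, κ, hU, h⟩ := coset c hc he hV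
  obtain ⟨b, hb⟩ := h g
  obtain ⟨lam, hlam⟩ := exists_lam (Ω := Ω)
  let b0 : J → ℚ := fun j => lam (b j)
  let O : Set (GK K) := {σ | σ * g⁻¹ ∈ U}
  have hO : IsOpen O := hU.preimage (continuous_mul_const g⁻¹)
  have hgO : g ∈ O := by
    change g * g⁻¹ ∈ U
    rw [mul_inv_cancel]
    exact U.one_mem
  have he' : e.le X'.d := by rw [hd]; exact he
  have key : ∀ v, v ∉ X.bad ∪ X'.bad → ∀ σ ∈ O, IsFrob v σ⁻¹ →
      evTrace c e σ - ∑ j, (b0 j : Ω) * loops c (s j) (κ j) σ = 0 ∧
      evTrace c' e σ - ∑ j, (b0 j : Ω') * loops c' (s j) (κ j) σ = 0 := by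
    intro v hv σ hσ hfr
    have hv1 : v ∉ X.bad := fun h => hv (Or.inl h)
    have hv2 : v ∉ X'.bad := fun h => hv (Or.inr h)
    obtain ⟨t, -, ⟨h1, -⟩, h2, -⟩ := frob_tr c c' hd hv1 hv2 (hp v hv1 hv2) hfr e he
    have h3 : ∀ j, ∃ r : ℚ, loops c (s j) (κ j) σ = (r : Ω) ∧ loops c' (s j) (κ j) σ = (r : Ω') :=
      fun j => loops_rat c c' ⟨(Ideal.absNorm v.asIdeal : ℚ), by
        rw [c.frob v hv1 σ hfr]; push_cast; rfl, by
        rw [c'.frob v hv2 σ hfr]; push_cast; rfl⟩
        (fun k => two_frob hv1 hv2 (hp v hv1 hv2) hfr k) (s j) (κ j)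
    choose r hr hr' using h3
    have h4 := hb (σ * g⁻¹) hσ
    rw [inv_mul_cancel_right, h1, Finset.sum_congr rfl fun j _ => by rw [hr j]] at h4
    have h5 := congrArg lam h4
    rw [hlam, map_sum] at h5
    have h6 : ∀ j, lam (b j * (r j : Ω)) = b0 j * r j := by
      intro j
      have : b j * (r j : Ω) = (r j) • b j := by rw [Rat.smul_def, mul_comm]
      rw [this, map_smul, smul_eq_mul, mul_comm]
    rw [Finset.sum_congr rfl fun j _ => h6 j] at h5
    refine ⟨?_, ?_⟩
    · rw [h1, Finset.sum_congr rfl fun j _ => by rw [hr j], h5]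
      push_cast
      exact sub_self _
    · rw [h2, Finset.sum_congr rfl fun j _ => by rw [hr' j], h5]
      push_cast
      exact sub_self _
  have hcont : Continuous fun σ => evTrace c e σ - ∑ j, (b0 j : Ω) * loops c (s j) (κ j) σ :=
    (cont_ev c he).sub (continuous_finsetSum _ fun j _ =>
      continuous_const.mul (cont_loops c (s j) (κ j)))
  have hcont' : Continuous fun σ =>
      evTrace c' e σ - ∑ j, (b0 j : Ω') * loops c' (s j) (κ j) σ :=
    (cont_ev c' he').sub (continuous_finsetSum _ fun j _ =>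
      continuous_const.mul (cont_loops c' (s j) (κ j)))
  have hbad : (X.bad ∪ X'.bad).Finite := X.finite.union X'.finite
  have z1 := dense2 hbad hO hcont (fun v hv σ hσ hfr => (key v hv σ hσ hfr).1) g hgO
  have z2 := dense2 hbad hO hcont' (fun v hv σ hσ hfr => (key v hv σ hσ hfr).2) g hgO
  choose r hr hr' using fun j => loops_rat c c' hχ htwo (s j) (κ j)
  refine ⟨∑ j, b0 j * r j, ?_, ?_⟩
  · rw [sub_eq_zero.1 z1, Finset.sum_congr rfl fun j _ => by rw [hr j]]
    push_cast
    rfl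
  · rw [sub_eq_zero.1 z2, Finset.sum_congr rfl fun j _ => by rw [hr' j]]
    push_cast
    rfl

end pair

end Pool.Agent.Run7.h261.LI
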