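import Pool.Agent.Run7.h261.LI.Grp
import Pool.Agent.Run7.h261.PW.Main

/-!
# Independence of `ℓ` for local factors: places where `H²` is potentially unramified
-/

set_option autoImplicit false
set_option linter.unusedSectionVars false

namespace Pool.Agent.Run7.h261.LI

open Module Polynomial NumberField IsDedekindDomain
open Pool.Agent.W401.Cheb Pool.Agent.N184.HK Pool.Agent.Y143

section expo

variable {Ω V : Type} [Field Ω] [CharZero Ω] [AddCommGroup V] [Module Ω V]

lemma expo_of_zero (A : Module.End Ω V) {x : V} (hx : A x = 0) : expo A x = x := by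
  rw [expo, LinearMap.sum_apply, Finset.sum_range_succ']
  have h1 : ∀ j, (((j + 1).factorial : Ω)⁻¹ • A ^ (j + 1)) x = 0 := by
    intro j
    rw [LinearMap.smul_apply, pow_succ, Module.End.mul_apply, hx, map_zero, smul_zero]
  rw [Finset.sum_congr rfl fun j _ => h1 j]
  simp

lemma expo_zero : expo (0 : Module.End Ω V) = 1 :=
  LinearMap.ext fun x => expo_of_zero 0 (x := x) rfl

end expo

section index

variable {G : Type} [Group G]

lemma exists_pow_both {U : Subgroup G} (hU : U.index ≠ 0) (g h : G) :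
    ∃ m, 0 < m ∧ g ^ m ∈ U ∧ h ^ m ∈ U := by
  obtain ⟨m, hm, -, h1⟩ := Subgroup.exists_pow_mem_of_index_ne_zero hU g
  obtain ⟨n, hn, -, h2⟩ := Subgroup.exists_pow_mem_of_index_ne_zero hU h
  refine ⟨m * n, Nat.mul_pos hm hn, ?_, ?_⟩
  · rw [_root_.pow_mul]; exact U.pow_mem h1 n
  · rw [mul_comm, _root_.pow_mul]; exact U.pow_mem h2 m

end index

section one

variable {K : Type} [Field K] [NumberField K] {Ω : Type} [Field Ω] [CharZero Ω] [IsAlgClosed Ω]
  [TopologicalSpace Ω] [IsTopologicalRing Ω] [T2Space Ω] {X : HKVariety K Ω}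
  {u : HeightOneSpectrum (𝓞 K)} {L : LocalMonodromy X u} {Q : Ideal (𝓞 (AlgebraicClosure K))}

lemma index_ne {U : Subgroup (GK K)} (hU : IsOpen (U : Set (GK K))) : U.index ≠ 0 := by
  have : Finite (GK K ⧸ U) := Subgroup.quotient_finite_of_isOpen _ hU
  have hfi : U.FiniteIndex := Subgroup.finiteIndex_of_finite_quotient
  exact hfi.index_ne_zero

/-- Elements of the Weil group and powers of `L.σ`. -/
lemma exists_pow (hL : IsLog L Q) (hQ : Q.IsPrime) {U : Subgroup (GK K)}
    (hU : IsOpen (U : Set (GK K))) {k : ℕ} {g : GK K}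
    (hg : GeomFrob Q (Ideal.absNorm u.asIdeal ^ k) g) :
    ∃ m, 0 < m ∧ ∃ τ ∈ U, InInertia Q τ ∧ g ^ m = τ * L.σ ^ (k * m) := by
  obtain ⟨m, hm, h1, h2⟩ := exists_pow_both (index_ne hU) g L.σ
  have hq : 0 < Ideal.absNorm u.asIdeal := zero_lt_one.trans one_lt_q
  refine ⟨m, hm, g ^ m * (L.σ ^ (k * m))⁻¹, ?_, ?_, ?_⟩
  · refine U.mul_mem h1 (U.inv_mem ?_)
    rw [mul_comm, _root_.pow_mul]
    exact U.pow_mem h2 k
  · have h3 := geom_pow hg m
    rw [← _root_.pow_mul] at h3
    exact inertia_div (pow_pos hq _) h3 (geom_pow (by have := hL.frob; rwa [IsWeil, pow_one] at this) (k * m))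
  · group

/-- If `N = 0` then the eigenvalues are pure. -/
lemma weil_unram (hL : IsLog L Q) (hQ : Q.IsPrime) (h0 : L.data.N 2 = 0) {i : ℕ} (hi : i ≤ X.d)
    {k : ℕ} (hk : 0 < k) {g : GK K} (hg : GeomFrob Q (Ideal.absNorm u.asIdeal ^ k) g) {e : Ω}
    (he : (X.E.Φ g i).HasEigenvalue e) : IsWeilNumber (Ideal.absNorm u.asIdeal ^ k) i e := by
  have hN : L.data.N i = 0 := by rw [N_eq L hi, h0, map_zero]
  obtain ⟨U, t, hU, hlog, -⟩ := hL.log
  obtain ⟨m, hm, τ, hτU, hτ, hgm⟩ := exists_pow hL hQ hU hg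
  have h1 := eig_pow he m
  have hτe : X.E.Φ τ i = expo (t τ • L.data.N i) := hlog i hi τ hτU hτ
  rw [← Phi_pow, hgm, Phi_mul', hτe, hN, smul_zero, expo_zero, one_mul, Phi_pow] at h1
  obtain ⟨a, ha, hae⟩ := eig_of_pow (Nat.mul_pos hk hm) h1
  have h2 : IsMWPure (Ideal.absNorm u.asIdeal) i (X.E.Φ L.σ i) (0 : Module.End Ω (X.E.X.H i)) := by
    have := pure_all L hi
    rw [LocalMonodromy.IsPure, hN] at this
    exact this
  have h3 := (weil_of_zero h2 ha).pow (k * m)
  rw [hae] at h3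
  refine PW.weil_base (IsWeilNumber.of_pow (k := m) hm ?_)
  rwa [show (m : ℤ) * (k * i) = ((k * m : ℕ) : ℤ) * i by push_cast; ring]

end one

section main

variable {K : Type} [Field K] [NumberField K] {u : HeightOneSpectrum (𝓞 K)}
  {Q : Ideal (𝓞 (AlgebraicClosure K))}

/-- The traces of the elements of the Weil group. -/
theorem trace_unram (S : HKSystem K u Q) (h0 : ∀ l, (S.R l).PotUnramified) {i : ℕ}
    (hi : i ≤ S.d) {k : ℕ} (hk : 0 < k) {g : GK K}
    (hg : GeomFrob Q (Ideal.absNorm u.asIdeal ^ k) g) :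
    ∃ s : ℚ, ∀ l, LinearMap.trace (S.R l).Ω _ ((S.R l).X.E.Φ g i) = (s : (S.R l).Ω) := by
  have hQ : Q.IsPrime := S.above.1.isPrime
  have hq : 1 < Ideal.absNorm u.asIdeal ^ k := Nat.one_lt_pow hk.ne' one_lt_q
  have h1 : ∀ m : ℕ, 0 < m → ∃ r : ℚ, ∀ l, (S.R l).AltTraceIs (g ^ m) r := by
    intro m hm
    have h2 := geom_pow hg m
    rw [← _root_.pow_mul] at h2
    exact S.trace (k * m) (Nat.mul_pos hk hm) _ h2
  choose! r hr using h1
  refine sep (Ω := fun l => (S.R l).Ω) (d := S.d) hq (fun l j => (S.R l).X.E.Φ g j)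
    (fun l j hj e he => ?_) r (fun l m hm => ?_) (Finset.mem_range.2 (Nat.lt_succ_of_le hi))
  · have hj' : j ≤ (S.R l).X.d := by
      rw [S.deg l]; exact Nat.lt_succ_iff.1 (Finset.mem_range.1 hj)
    refine weil_unram (S.R l).isLog hQ (LinearMap.ext (h0 l)) hj' hk hg ?_
    rw [Module.End.hasEigenvalue_iff_isRoot_charpoly,
      ← mem_roots (LinearMap.charpoly_monic _).ne_zero]
    exact he
  · have h2 : altTrace (S.R l).X (g ^ m) = (r m : (S.R l).Ω) := hr m hm l
    rw [← h2, altTrace]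
    refine Finset.sum_congr (by rw [S.deg l]) fun j _ => ?_
    rw [trH, tr, Phi_pow]

/-- **Places where `H²(X)` is potentially unramified.** -/
theorem unram (S : HKSystem K u Q) (h0 : ∀ l, (S.R l).PotUnramified) {i : ℕ} (hi : i ≤ S.d)
    {g : GK K} (hg : IsWeil u Q 1 g) :
    ∃ P : ℤ[X], ∀ l, (S.R l).LocalFactorIs i g P := by
  have hQ : Q.IsPrime := S.above.1.isPrime
  have hq : 0 < Ideal.absNorm u.asIdeal := zero_lt_one.trans one_lt_q
  have hi' : ∀ l, i ≤ (S.R l).X.d := fun l => by rw [S.deg l]; exact hi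
  choose U t hU hlog ht using fun l => (S.R l).isLog.log
  have hN : ∀ l, (S.R l).L.data.N i = 0 := fun l => by
    have h1 : (S.R l).L.data.N 2 = 0 := LinearMap.ext (h0 l)
    rw [N_eq (S.R l).L (hi' l), h1, map_zero]
  have hg' : GeomFrob Q (Ideal.absNorm u.asIdeal) g := by
    have := hg
    rwa [IsWeil, pow_one] at this
  refine factor_int (Ω := fun l => (S.R l).Ω) (fun l => (S.R l).X.E.Φ g i)
    (fun l => fixedPart (S.R l).X Q i)
    (fun l => fixed_stable (S.R l).X hq hg' i) (fun k hk => ?_) (fun l e he => ?_)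
  · have hgk := geom_pow hg' k
    obtain ⟨r, hr⟩ := avg_family (Ω := fun l => (S.R l).Ω) (fun l g => (S.R l).X.E.Φ g i)
      (fun l g h x => Phi_mul (S.R l).X g h i x)
      (IQ Q) U (fun l l' => by
        have : Finite (GK K ⧸ (U l ⊓ U l')) :=
          Subgroup.quotient_finite_of_isOpen _ ((hU l).inter (hU l'))
        have hfi : (U l ⊓ U l').FiniteIndex := Subgroup.finiteIndex_of_finite_quotient
        infer_instance) (fun _ => ⊤)
      (fun l => fixedPart (S.R l).X Q i) (fun _ _ _ _ _ => Submodule.mem_top)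
      (fun l τ hτ hτU x _ => by
        have h1 : (S.R l).X.E.Φ τ i = expo (t l τ • (S.R l).L.data.N i) := hlog l i (hi' l) τ hτU hτ
        rw [h1, hN l, smul_zero, expo_zero]
        rfl)
      (fun l x => ⟨fun hx => ⟨Submodule.mem_top, hx⟩, fun hx => hx.2⟩) (g ^ k)
      (fun _ _ _ => Submodule.mem_top) (fun l => fixed_stable (S.R l).X (pow_pos hq k) hgk i)
      (fun τ hτ => by
        obtain ⟨s, hs⟩ := trace_unram S h0 hi hk (geom_mul hgk hτ)
        exact ⟨s, fun l => by rw [trOn_top]; exact hs l⟩)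
    exact ⟨r, fun l => by rw [← Phi_pow]; exact hr l⟩
  · exact S.integral 1 one_pos g hg l i (hi' l) e he

end main

end Pool.Agent.Run7.h261.LI
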